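import Pool.Agent.FermAll.Types

/-!
# Abelian varieties with complex multiplication by cyclotomic fields
-/

set_option autoImplicit false

namespace Pool.Agent.FermAll

open Finset Pool.Stick Pool.Agent.FermD

variable {m : ℕ} [NeZero m] {P : (ZMod m)ˣ}

omit [NeZero m] in
theorem map_sum_sum {ι : Type*} (I : Finset ι) (S : ι → Multiset (ZMod m)) (g : ZMod m → ℕ) :
    ((∑ i ∈ I, S i).map g).sum = ∑ i ∈ I, ((S i).map g).sum := by
  classical
  induction I using Finset.induction_on with
  | empty => simp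
  | insert i I hi ih =>
    rw [Finset.sum_insert hi, Finset.sum_insert hi, Multiset.map_add, Multiset.sum_add, ih]

omit [NeZero m] in
theorem mem_degrees_lt (hm : m ∈ degrees) : 2 < m := by
  have h : ∀ n ∈ degrees, 2 < n := by decide
  exact h m hm

/-- All types of complex multiplication by the `m`-th roots of unity come from the Fermat curve,
and the Tate classes on the abelian varieties of these types are algebraic. -/
theorem cm_curves (hm : m ∈ degrees)
    (H : ∀ s : Multiset (ZMod m), IsTate P s ∧ s.sum = 0 ↔ Alg (curves P) s)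
    {ι : Type*} [Fintype ι] (a : ι → (ZMod m)ˣ → ℕ) (ha : ∀ i t, a i t + a i (-t) = 1) :
    ∃ x y z : ι → ZMod m, (∀ i, x i + y i + z i = 0 ∧ ∀ t : (ZMod m)ˣ,
      ((t : ZMod m) * x i).val + ((t : ZMod m) * y i).val + ((t : ZMod m) * z i).val =
        (a i t + 1) * m) ∧
      ((∃ r : ℕ, Fintype.card ι = 2 * r ∧ ∀ t : (ZMod m)ˣ,
        ∑ i, ∑ j ∈ range (orderOf P), a i (P ^ j * t) = r * orderOf P) ↔
        Alg (curves P) (∑ i, {x i, y i, z i})) := by
  obtain ⟨T, L, hTL⟩ := exists_types m hm
  choose x y z hx hy hz hs hv using fun i => exists_triple (mem_degrees_lt hm) hTL (ha i)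
  refine ⟨x, y, z, fun i => ⟨hs i, hv i⟩, ?_⟩
  rw [← H]
  have hm0 : 0 < m := NeZero.pos m
  have hcard : (∑ i, ({x i, y i, z i} : Multiset (ZMod m))).card = 3 * Fintype.card ι := by
    rw [Multiset.card_sum, Finset.sum_congr rfl fun i _ => (show
      Multiset.card ({x i, y i, z i} : Multiset (ZMod m)) = 3 from rfl)]
    rw [Finset.sum_const, Finset.card_univ, smul_eq_mul, mul_comm]
  have h0 : (0 : ZMod m) ∉ ∑ i, ({x i, y i, z i} : Multiset (ZMod m)) := by
    rw [Multiset.mem_sum]
    rintro ⟨i, _, hi⟩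
    simp only [Multiset.insert_eq_cons, Multiset.mem_cons, Multiset.mem_singleton] at hi
    rcases hi with h | h | h
    · exact hx i h.symm
    · exact hy i h.symm
    · exact hz i h.symm
  have hsum : (∑ i, ({x i, y i, z i} : Multiset (ZMod m))).sum = 0 := by
    rw [← Multiset.coe_sumAddMonoidHom, map_sum]
    refine Finset.sum_eq_zero fun i _ => ?_
    rw [Multiset.coe_sumAddMonoidHom]
    simp only [Multiset.insert_eq_cons, Multiset.sum_cons, Multiset.sum_singleton]
    rw [← add_assoc]
    exact hs i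
  have hval : ∀ t : (ZMod m)ˣ, ((∑ i, ({x i, y i, z i} : Multiset (ZMod m))).map fun c =>
      ∑ i ∈ range (orderOf P), (((P ^ i * t : (ZMod m)ˣ) : ZMod m) * c).val).sum =
      (∑ i, ∑ j ∈ range (orderOf P), a i (P ^ j * t) + Fintype.card ι * orderOf P) * m := by
    intro t
    rw [map_sum_sum]
    have h1 : ∀ i ∈ (univ : Finset ι), ((({x i, y i, z i} : Multiset (ZMod m))).map fun c =>
        ∑ i ∈ range (orderOf P), (((P ^ i * t : (ZMod m)ˣ) : ZMod m) * c).val).sum =
        (∑ j ∈ range (orderOf P), a i (P ^ j * t) + orderOf P) * m := by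
      intro i _
      simp only [Multiset.insert_eq_cons, Multiset.map_cons, Multiset.map_singleton,
        Multiset.sum_cons, Multiset.sum_singleton]
      rw [← Finset.sum_add_distrib, ← Finset.sum_add_distrib, add_mul, Finset.sum_mul]
      have h2 : ∀ j ∈ range (orderOf P), (((P ^ j * t : (ZMod m)ˣ) : ZMod m) * x i).val +
          ((((P ^ j * t : (ZMod m)ˣ) : ZMod m) * y i).val +
          (((P ^ j * t : (ZMod m)ˣ) : ZMod m) * z i).val) = a i (P ^ j * t) * m + m := by
        intro j _
        have := hv i (P ^ j * t)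
        rw [← add_assoc, this]
        ring
      rw [Finset.sum_congr rfl h2, Finset.sum_add_distrib, Finset.sum_const, Finset.card_range,
        smul_eq_mul]
    rw [Finset.sum_congr rfl h1, ← Finset.sum_mul, Finset.sum_add_distrib, Finset.sum_const,
      Finset.card_univ, smul_eq_mul]
  constructor
  · rintro ⟨r, hr, h⟩
    refine ⟨⟨h0, 3 * r, ?_, fun t => ?_⟩, hsum⟩
    · rw [hcard, hr]; ring
    · rw [hval, h, hr]; ring
  · rintro ⟨⟨_, R, hR, h⟩, _⟩
    rw [hcard] at hR
    obtain ⟨r, hr⟩ : ∃ r, Fintype.card ι = 2 * r := ⟨Fintype.card ι / 2, by omega⟩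
    have hR' : R = 3 * r := by omega
    subst hR'
    refine ⟨r, hr, fun t => ?_⟩
    have h1 := h t
    rw [hval] at h1
    have h2 := Nat.eq_of_mul_eq_mul_right hm0 h1
    rw [hr] at h2
    have h3 : 3 * r * orderOf P = r * orderOf P + 2 * r * orderOf P := by ring
    omega

end Pool.Agent.FermAll
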