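import Pool.Agent.FermAll.Ker

/-!
# Certificates: soundness
-/

set_option autoImplicit false

namespace Pool.Agent.FermAll

open Finset Pool.Stick Pool.Agent.FermD Pool.Agent.StarkRQ

/-- The certificate. `E` is a basis of the group of the classes of sum zero modulo torsion, `T` is the
element of order two, `Rp` are representatives of the units modulo `P` and `-1`. -/
def certB (n p f : ℕ) (E T : List (ℕ × ℕ × ℕ)) (Rp : List ℕ) (ν : List ℤ) (S : List (Rc × ℕ))
    (O : List Rc) : Bool :=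
  decide (3 ≤ n ∧ 0 < f ∧ p ^ f % n = 1 ∧ ν.getD 0 0 = 0 ∧ ν.getD 1 0 = 1 ∧ T.length ≤ 1 ∧
    E.length ≤ Rp.length ∧ Rp.Nodup) &&
  (((E ++ T).all fun g => posB n [g.1, g.2.1, g.2.2]) &&
  ((T.all fun g => decide ((g.1 + g.2.1 + g.2.2) % n = 0) &&
    tateB n ((List.range f).map fun i => p ^ i % n) [g.1, g.2.1, g.2.2, g.1, g.2.1, g.2.2] 3) &&
  ((Rp.all fun r => decide (Nat.Coprime r n ∧ r < n)) &&
  ((Rp.all fun r => Rp.all fun s => (List.range f).all fun i =>
    decide ((p ^ i % n * r + s) % n ≠ 0) && decide (r = s ∨ p ^ i % n * r % n ≠ s)) &&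
  (run n ((List.range f).map fun i => p ^ i % n) (E ++ T) ν S [0, 1] &&
  (ordB n ((List.range f).map fun i => p ^ i % n) (E ++ T) ν O &&
  ((List.range (n / 2 + 1)).all fun z => (ν.getD z 0 - z) % n == 0)))))))

variable {n : ℕ} [NeZero n] {P : (ZMod n)ˣ} {f p : ℕ}

omit [NeZero n] in
theorem toA_ms (L : List ℕ) : toA (ms n L) = (L.map fun y : ℕ => e (y : ZMod n)).sum := by
  rw [toA, ms, Multiset.map_coe, Multiset.sum_coe, List.map_map]
  rfl

omit [NeZero n] in
theorem toA_ms_zero {L : List ℕ} (h : posB n L = true) : toA (ms n L) 0 = 0 := by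
  simp only [posB, List.all_eq_true, decide_eq_true_eq] at h
  rw [toA_apply, Multiset.count_eq_zero_of_notMem]
  · rfl
  · intro h0
    rw [ms, Multiset.mem_coe, List.mem_map] at h0
    obtain ⟨y, hy, h1⟩ := h0
    exact natCast_ne_zero_of (h y hy).1 (h y hy).2 h1

omit [NeZero n] in
theorem trip_eq (g : ℕ × ℕ × ℕ) : trip n g = toA (ms n [g.1, g.2.1, g.2.2]) := by
  rw [toA_ms, trip]
  simp [add_assoc]

/-- the class of an element -/
noncomputable def cc (R : AddSubgroup (A n)) (x : ZMod n) : A n ⧸ R :=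
  if x = 0 then 0 else QuotientAddGroup.mk (e x)

theorem cc_neg {R : AddSubgroup (A n)} (hR : RelQ P ≤ R) (x : ZMod n) : cc R (-x) = - cc R x := by
  by_cases hx : x = 0
  · rw [hx, neg_zero, cc, if_pos rfl, neg_zero]
  · rw [cc, cc, if_neg hx, if_neg (neg_ne_zero.2 hx), eq_neg_iff_add_eq_zero,
      ← QuotientAddGroup.mk_add, QuotientAddGroup.eq_zero_iff, add_comm]
    exact hR (AddSubgroup.subset_closure (Or.inl (Or.inl ⟨x, hx, rfl⟩)))

theorem ext_cc (R : AddSubgroup (A n)) {u : A n} (hu : u 0 = 0) :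
    ext (cc R) u = QuotientAddGroup.mk u := by
  rw [ext_apply]
  conv_rhs => rw [← Finsupp.sum_single u, Finsupp.sum_fintype _ _ (fun i =>
    Finsupp.single_zero i), QuotientAddGroup.mk_sum]
  refine sum_congr rfl fun z _ => ?_
  by_cases hz : z = 0
  · rw [hz, hu, Finsupp.single_zero, QuotientAddGroup.mk_zero, zero_zsmul]
  · rw [cc, if_neg hz, ← QuotientAddGroup.mk_zsmul, e, Finsupp.smul_single, smul_eq_mul, mul_one]

omit [NeZero n] in
theorem ext_cc_ms (R : AddSubgroup (A n)) (L : List ℕ) :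
    ext (cc R) (toA (ms n L)) = (L.map fun y : ℕ => cc R (y : ZMod n)).sum := by
  rw [toA_ms]
  induction L with
  | nil => simp
  | cons y L ih => simp only [List.map_cons, List.sum_cons, map_add]; rw [ih, ext_e]

theorem dist_rel {R : AddSubgroup (A n)} (hR : RelQ P ≤ R) {l x : ℕ} (hl : l.Prime) (hln : n % l = 0)
    (hx : x < n / l) (hlx : l * x % n ≠ 0) :
    (((Rc.dist l x).lst n).map fun y : ℕ => cc R (y : ZMod n)).sum = 0 := by
  have hn : l ∣ n := Nat.dvd_of_mod_eq_zero hln
  have hm : n = l * (n / l) := (Nat.mul_div_cancel' hn).symm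
  have hxn : x < n := lt_of_lt_of_le hx (Nat.div_le_self _ _)
  have hx0 : (l : ZMod n) * (x : ZMod n) ≠ 0 := by
    intro h
    have h1 : ((l * x : ℕ) : ZMod n) = 0 := by push_cast; exact h
    rw [ZMod.natCast_eq_zero_iff] at h1
    exact hlx (Nat.mod_eq_zero_of_dvd h1)
  set v : A n := ∑ z ∈ univ.filter (fun z : ZMod n => (l : ZMod n) * z = l * (x : ZMod n)), e z
    + e (-((l : ZMod n) * (x : ZMod n))) + if l = 2 then e ((n / 2 : ℕ) : ZMod n) else 0 with hv
  have hvD : v ∈ relD n l := ⟨x, hx0, rfl⟩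
  have h1 : ext (cc R) v = 0 := by
    rw [ext_cc R (relD_zero hn hvD), QuotientAddGroup.eq_zero_iff]
    exact hR (AddSubgroup.subset_closure (Or.inl (Or.inr ⟨l, hl, hn, hvD⟩)))
  have h2 : ((x : ZMod n)).val % (n / l) = x := by
    rw [ZMod.val_natCast, Nat.mod_eq_of_lt hxn, Nat.mod_eq_of_lt hx]
  have h3 : (((n - l * x) % n : ℕ) : ZMod n) = -((l : ZMod n) * x) := by
    have h4 : l * x ≤ n := by
      calc l * x ≤ l * (n / l) := Nat.mul_le_mul_left _ hx.le
        _ = n := hm.symm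
    rw [ZMod.natCast_mod, Nat.cast_sub h4, ZMod.natCast_self, zero_sub]
    push_cast
    rfl
  have h5 : ext (cc R) v = ∑ a ∈ range l, cc R ((n / l * a + x : ℕ) : ZMod n) +
      cc R (-((l : ZMod n) * x)) + if l = 2 then cc R ((n / 2 : ℕ) : ZMod n) else 0 := by
    rw [hv, map_add, map_add, map_sum, ext_e]
    congr 1
    · congr 1
      simp only [ext_e]
      rw [sum_fibre hm hl.pos, h2]
    · split_ifs
      · rw [ext_e]
      · rw [map_zero]
  rw [h1] at h5
  rw [h5]
  simp only [Rc.lst, List.map_append, List.map_map, List.map_cons, List.sum_append, List.sum_cons]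
  have h6 : (List.map ((fun y : ℕ => cc R (y : ZMod n)) ∘ fun a => n / l * a + x)
      (List.range l)).sum = ∑ a ∈ range l, cc R ((n / l * a + x : ℕ) : ZMod n) :=
    sum_range_list l _
  rw [h3, h6, ← add_assoc]
  congr 1
  split_ifs <;> simp

theorem prime_of_contains' {l : ℕ} (h : [2, 3, 5, 7, 11, 13].contains l = true) : l.Prime := by
  rw [List.contains_iff_mem] at h
  simp only [List.mem_cons, List.not_mem_nil, or_false] at h
  rcases h with rfl | rfl | rfl | rfl | rfl | rfl <;> norm_num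

omit [NeZero n] in
theorem natCast_add_eq_zero {a b c : ℕ} (h : (a + b + c) % n = 0) :
    (a : ZMod n) + b + c = 0 := by
  have h1 : ((a + b + c : ℕ) : ZMod n) = 0 := by
    rw [ZMod.natCast_eq_zero_iff]
    exact Nat.dvd_of_mod_eq_zero h
  rw [← h1]
  push_cast
  ring

theorem ms_mem_curves (hp : (p : ZMod n) = P) (hPf : P ^ f = 1) (hf : f ≠ 0) {a b c a' b' c' : ℕ}
    (h1 : posB n [a, b, c, a', b', c'] = true) (h2 : (a + b + c) % n = 0)
    (h3 : (a' + b' + c') % n = 0)
    (h4 : tateB n ((List.range f).map fun i => p ^ i % n) [a, b, c, a', b', c'] 3 = true) :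
    ms n [a, b, c, a', b', c'] ∈ curves P :=
  ⟨tateB_sound hp hPf hf rfl h1 h4, a, b, c, a', b', c', natCast_add_eq_zero h2,
    natCast_add_eq_zero h3, rfl⟩

theorem rel_sound (hp : (p : ZMod n) = P) (hPf : P ^ f = 1) (hf : f ≠ 0) {R : AddSubgroup (A n)}
    (hR : RelQ P ≤ R) {G : List (ℕ × ℕ × ℕ)} (hG : ∀ g ∈ G, trip n g ∈ R)
    (hG0 : ∀ g ∈ G, posB n [g.1, g.2.1, g.2.2] = true) (r : Rc)
    (h : r.ok n ((List.range f).map fun i => p ^ i % n) G = true) :
    ((r.lst n).map fun y : ℕ => cc R (y : ZMod n)).sum = 0 := by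
  cases r with
  | dist l x =>
    simp only [Rc.ok, Bool.and_eq_true, decide_eq_true_eq] at h
    exact dist_rel hR (prime_of_contains' h.1) h.2.1 h.2.2.1 h.2.2.2
  | six a b c a' b' c' =>
    simp only [Rc.ok, Bool.and_eq_true, decide_eq_true_eq] at h
    obtain ⟨⟨h1, h2, h3⟩, h4⟩ := h
    have h5 := ms_mem_curves hp hPf hf h1 h2 h3 h4
    have h6 := ext_cc R (toA_ms_zero (n := n) h1)
    rw [ext_cc_ms] at h6
    change (([a, b, c, a', b', c'] : List ℕ).map fun y : ℕ => cc R (y : ZMod n)).sum = 0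
    rw [h6, QuotientAddGroup.eq_zero_iff]
    exact hR (AddSubgroup.subset_closure (Or.inr ⟨_, h5, rfl⟩))
  | gen a b c =>
    simp only [Rc.ok, List.contains_iff_mem] at h
    have h6 := ext_cc R (toA_ms_zero (n := n) (hG0 _ h))
    rw [ext_cc_ms] at h6
    change (([a, b, c] : List ℕ).map fun y : ℕ => cc R (y : ZMod n)).sum = 0
    have h7 : (([a, b, c] : List ℕ).map fun y : ℕ => cc R (y : ZMod n)).sum = _ := h6
    rw [h7, QuotientAddGroup.eq_zero_iff]
    have h8 := hG _ h
    rw [trip_eq] at h8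
    exact h8

omit [NeZero n] in
theorem zsum {W ι : Type*} [AddCommGroup W] (I : Finset ι) (a : ι → ℤ) (u : W) :
    (∑ i ∈ I, a i) • u = ∑ i ∈ I, a i • u := Finset.sum_smul

omit [NeZero n] in
theorem zmul {W : Type*} [AddCommGroup W] (a : ℤ) (b : ℕ) (u : W) :
    (a * (b : ℤ)) • u = a • (b • u) := by
  rw [mul_smul, natCast_zsmul]

omit [NeZero n] in
theorem zmul' {W : Type*} [AddCommGroup W] (a : ℤ) (b : ℕ) (u : W) :
    ((b : ℤ) * a) • u = a • (b • u) := by
  rw [mul_comm, zmul]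

/-- The kernel of the functionals. -/
theorem ker_cert {E T : List (ℕ × ℕ × ℕ)} {Rp : List ℕ} {ν : List ℤ} {S : List (Rc × ℕ)}
    {O : List Rc} (hp : (p : ZMod n) = P) (h : certB n p f E T Rp ν S O = true) {v : A n}
    (hv0 : v 0 = 0) (hb : ∀ t, beta P f t v = 0) (hs : sg v = 0) (hc : Even (cnt v)) :
    v ∈ RelQ P := by
  classical
  simp only [certB, Bool.and_eq_true, decide_eq_true_eq] at h
  obtain ⟨⟨hn3, hf0, hpf, hν0, hν1, hT1, hER, hRn⟩, hG0, hT, hRp, hRR, hrun, hord, hlab⟩ := h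
  have hf : f ≠ 0 := hf0.ne'
  have hPf : P ^ f = 1 := by
    apply Units.ext
    rw [Units.val_pow_eq_pow_val, Units.val_one, ← hp, ← Nat.cast_pow]
    have h1 : ((p ^ f : ℕ) : ZMod n) = ((p ^ f % n : ℕ) : ZMod n) := by rw [ZMod.natCast_mod]
    rw [h1, hpf, Nat.cast_one]
  have hG0' : ∀ g ∈ E ++ T, posB n [g.1, g.2.1, g.2.2] = true := List.all_eq_true.1 hG0
  set HE : AddSubgroup (A n) :=
    AddSubgroup.closure (Set.range fun i : Fin E.length => trip n (E.get i)) with hHE
  set HT : AddSubgroup (A n) := AddSubgroup.closure {w | ∃ g ∈ T, w = trip n g} with hHT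
  set R : AddSubgroup (A n) := RelQ P ⊔ HE ⊔ HT with hRdef
  have hR : RelQ P ≤ R := le_sup_left.trans le_sup_left
  have hG : ∀ g ∈ E ++ T, trip n g ∈ R := by
    intro g hg
    rcases List.mem_append.1 hg with hg | hg
    · obtain ⟨i, hi⟩ := List.get_of_mem hg
      refine (le_sup_right.trans le_sup_left : HE ≤ R) (AddSubgroup.subset_closure ⟨i, ?_⟩)
      change trip n (E.get i) = _
      rw [hi]
    · exact (le_sup_right : HT ≤ R) (AddSubgroup.subset_closure ⟨g, hg, rfl⟩)
  have hcneg := cc_neg (n := n) hR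
  have hF0 : (fun z : ℕ => cc R (z : ZMod n)) 0 = 0 := by
    change cc R ((0 : ℕ) : ZMod n) = 0
    rw [Nat.cast_zero, cc, if_pos rfl]
  have hFneg : ∀ z, 0 < z → z < n → (fun z : ℕ => cc R (z : ZMod n)) (n - z) =
      - (fun z : ℕ => cc R (z : ZMod n)) z := by
    intro z _ hz
    change cc R ((n - z : ℕ) : ZMod n) = - cc R (z : ZMod n)
    rw [Nat.cast_sub hz.le, ZMod.natCast_self, zero_sub, hcneg]
  obtain ⟨hu, hF⟩ := add_sound hF0 hFneg (fun r hr => rel_sound hp hPf hf hR hG hG0' r hr) hν0 hν1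
    hrun hord hlab
  set u : A n ⧸ R := cc R ((1 : ℕ) : ZMod n) with hudef
  have hcc : ∀ x : ZMod n, cc R x = x.val • u := by
    intro x
    have h1 := hF x.val (ZMod.val_lt x)
    change cc R ((x.val : ℕ) : ZMod n) = x.val • u at h1
    rwa [ZMod.natCast_zmod_val] at h1
  -- membership in `R`
  have hmem : ∀ w : A n, w 0 = 0 → (∃ k : ℤ, ∑ x, w x * (x.val : ℤ) = n * k) → w ∈ R := by
    rintro w hw ⟨k, hk⟩
    rw [← QuotientAddGroup.eq_zero_iff, ← ext_cc R hw, ext_apply]
    have h1 : ∑ x, w x • cc R x = (∑ x, w x * (x.val : ℤ)) • u := by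
      rw [zsum]
      refine sum_congr rfl fun x _ => ?_
      rw [hcc, zmul]
    rw [h1, hk, zmul', hu, smul_zero]
  have hdec : ∀ w ∈ R, ∃ r ∈ RelQ P, ∃ a : Fin E.length → ℤ, ∃ h ∈ HT,
      w = r + ∑ i, a i • trip n (E.get i) + h := by
    intro w hw
    obtain ⟨y, hy, h, hh, hyh⟩ := AddSubgroup.mem_sup.1 hw
    obtain ⟨r, hr, g, hg, hrg⟩ := AddSubgroup.mem_sup.1 hy
    rw [hHE, ← Submodule.span_int_eq_addSubgroupClosure, Submodule.mem_toAddSubgroup,
      Submodule.mem_span_range_iff_exists_fun] at hg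
    obtain ⟨a, ha⟩ := hg
    exact ⟨r, hr, a, h, hh, by rw [← hyh, ← hrg, ← ha]⟩
  have hRbeta : ∀ r ∈ RelQ P, bw P f r = 0 := by
    intro r hr
    funext t
    exact RelQ_beta hPf hf hr t
  -- the classes of order two
  have htau : ∀ g ∈ T, trip n g + trip n g ∈ RelQ P := by
    intro g hg
    have h1 := List.all_eq_true.1 hT g hg
    rw [Bool.and_eq_true, decide_eq_true_eq] at h1
    have h2 := hG0' g (List.mem_append_right _ hg)
    have h3 : posB n [g.1, g.2.1, g.2.2, g.1, g.2.1, g.2.2] = true := by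
      simp only [posB, List.all_eq_true, List.mem_cons, List.not_mem_nil, or_false] at h2 ⊢
      intro y hy
      exact h2 y (by tauto)
    have h4 := ms_mem_curves hp hPf hf h3 h1.1 h1.1 h1.2
    have h5 : trip n g + trip n g = toA (ms n [g.1, g.2.1, g.2.2, g.1, g.2.1, g.2.2]) := by
      rw [toA_ms, trip]
      simp only [List.map_cons, List.map_nil, List.sum_cons, List.sum_nil]
      abel
    rw [h5]
    exact AddSubgroup.subset_closure (Or.inr ⟨_, h4, rfl⟩)
  have hTbeta : ∀ h ∈ HT, bw P f h = 0 := by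
    intro h hh
    have h1 : HT ≤ (bw P f).ker := by
      rw [hHT, AddSubgroup.closure_le]
      rintro w ⟨g, hg, rfl⟩
      change bw P f (trip n g) = 0
      have h2 := hRbeta _ (htau g hg)
      rw [map_add] at h2
      exact self_eq_neg.1 (eq_neg_of_add_eq_zero_left h2)
    exact h1 hh
  have hbw : ∀ (r : A n) (a : Fin E.length → ℤ) (h : A n), r ∈ RelQ P → h ∈ HT →
      bw P f (r + ∑ i, a i • trip n (E.get i) + h) =
        ∑ i, (a i : ℝ) • bw P f (trip n (E.get i)) := by
    intro r a h hr hh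
    rw [map_add, map_add, hRbeta r hr, hTbeta h hh, zero_add, add_zero, map_sum]
    refine sum_congr rfl fun i _ => ?_
    rw [map_zsmul, ← Int.cast_smul_eq_zsmul ℝ]
  -- linear independence
  have hind : LinearIndependent ℝ fun i : Fin E.length => bw P f (trip n (E.get i)) := by
    rw [linearIndependent_iff_card_le_finrank_span, Fintype.card_fin]
    have hun : ∀ i : Fin Rp.length, Nat.Coprime (Rp.get i) n ∧ Rp.get i < n := by
      intro i
      have h1 := List.all_eq_true.1 hRp (Rp.get i) (List.get_mem _ _)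
      rwa [decide_eq_true_eq] at h1
    let t : Fin Rp.length → (ZMod n)ˣ := fun i => ZMod.unitOfCoprime (Rp.get i) (hun i).1
    have hval : ∀ (i : Fin Rp.length) (j : ℕ), ((P ^ j * t i : (ZMod n)ˣ) : ZMod n) =
        ((p ^ j % n * Rp.get i : ℕ) : ZMod n) := by
      intro i j
      rw [Units.val_mul, Units.val_pow_eq_pow_val, ZMod.coe_unitOfCoprime, Nat.cast_mul,
        ZMod.natCast_mod, Nat.cast_pow, hp]
    have hRR' : ∀ i i' : Fin Rp.length, ∀ j < f,
        (p ^ j % n * Rp.get i + Rp.get i') % n ≠ 0 ∧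
          (Rp.get i = Rp.get i' ∨ p ^ j % n * Rp.get i % n ≠ Rp.get i') := by
      intro i i' j hj
      have h1 := List.all_eq_true.1 (List.all_eq_true.1 (List.all_eq_true.1 hRR (Rp.get i)
        (List.get_mem _ _)) (Rp.get i') (List.get_mem _ _)) j (List.mem_range.2 hj)
      rw [Bool.and_eq_true, decide_eq_true_eq, decide_eq_true_eq] at h1
      exact h1
    have h1 := rank_le (P := P) (by omega : 3 ≤ n) hf0 t (fun i i' hii j hj heq => by
        have h2 := (hRR' i i' j hj).2
        have h3 : Rp.get i ≠ Rp.get i' := fun h => hii (hRn.injective_get h)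
        have h4 : ((P ^ j * t i : (ZMod n)ˣ) : ZMod n) = ((t i' : (ZMod n)ˣ) : ZMod n) :=
          congrArg _ heq
        rw [hval, ZMod.coe_unitOfCoprime] at h4
        have h5 := congrArg ZMod.val h4
        rw [ZMod.val_natCast, ZMod.val_natCast, Nat.mod_eq_of_lt (hun i').2] at h5
        exact h2.resolve_left h3 h5) (fun i i' j hj heq => by
        have h2 := (hRR' i i' j hj).1
        have h4 : ((P ^ j * t i : (ZMod n)ˣ) : ZMod n) = ((-t i' : (ZMod n)ˣ) : ZMod n) :=
          congrArg _ heq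
        rw [hval, Units.val_neg, ZMod.coe_unitOfCoprime, eq_neg_iff_add_eq_zero, ← Nat.cast_add,
          ZMod.natCast_eq_zero_iff] at h4
        exact h2 (Nat.mod_eq_zero_of_dvd h4))
    rw [Fintype.card_fin] at h1
    refine hER.trans (h1.trans ?_)
    refine Submodule.finrank_mono ?_
    rw [Submodule.span_le]
    rintro _ ⟨⟨x, hx⟩, rfl⟩
    change bw P f (e x) ∈ Submodule.span ℝ _
    have h2 : (n : ℤ) • e x ∈ R := by
      refine hmem _ ?_ ⟨x.val, ?_⟩
      · rw [Finsupp.smul_apply, e_zero hx, smul_zero]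
      · rw [sum_eq_single x]
        · rw [Finsupp.smul_apply, e, Finsupp.single_eq_same]
          simp
        · intro y _ hy
          rw [Finsupp.smul_apply, e, Finsupp.single_eq_of_ne hy]
          simp
        · intro h
          exact absurd (mem_univ x) h
    obtain ⟨r, hr, a, h, hh, hw⟩ := hdec _ h2
    have h3 := congrArg (bw P f) hw
    rw [hbw r a h hr hh, map_zsmul, ← Int.cast_smul_eq_zsmul ℝ] at h3
    have h4 : ((n : ℤ) : ℝ) ≠ 0 := by exact_mod_cast NeZero.ne n
    rw [← Submodule.smul_mem_iff _ h4, h3]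
    exact Submodule.sum_mem _ fun i _ => Submodule.smul_mem _ _ (Submodule.subset_span ⟨i, rfl⟩)
  -- conclusion
  have hvR : v ∈ R := by
    refine hmem v hv0 ?_
    have h1 : ((∑ x, v x * (x.val : ℤ) : ℤ) : ZMod n) = 0 := by
      rw [← hs, sg, ext_apply]
      push_cast
      refine sum_congr rfl fun x _ => ?_
      rw [ZMod.natCast_zmod_val, zsmul_eq_mul]
    rw [ZMod.intCast_zmod_eq_zero_iff_dvd] at h1
    exact h1
  obtain ⟨r, hr, a, h, hh, hw⟩ := hdec v hvR
  have h1 : ∑ i, (a i : ℝ) • bw P f (trip n (E.get i)) = 0 := by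
    rw [← hbw r a h hr hh, ← hw]
    funext t
    exact hb t
  have h2 := Fintype.linearIndependent_iff.1 hind (fun i => (a i : ℝ)) h1
  have h3 : ∑ i, a i • trip n (E.get i) = 0 := by
    refine sum_eq_zero fun i _ => ?_
    have h4 : a i = 0 := by exact_mod_cast h2 i
    rw [h4, zero_smul]
  rw [h3, add_zero] at hw
  have h5 : h ∈ RelQ P := by
    have hcnt : Even (cnt h) := by
      have h6 := hc
      rw [hw, map_add] at h6
      exact (Int.even_add.1 h6).1 (RelQ_cnt hr)
    rcases T with _ | ⟨g, _ | ⟨g', T⟩⟩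
    · have h6 : HT = ⊥ := by
        rw [hHT, AddSubgroup.closure_eq_bot_iff]
        rintro w ⟨g, hg, _⟩
        exact absurd hg List.not_mem_nil
      rw [h6, AddSubgroup.mem_bot] at hh
      rw [hh]
      exact zero_mem _
    · have h6 : {w | ∃ g' ∈ [g], w = trip n g'} = {trip n g} := by
        ext w
        simp
      rw [hHT, h6, AddSubgroup.mem_closure_singleton] at hh
      obtain ⟨k, rfl⟩ := hh
      rw [map_zsmul, trip, map_add, map_add, cnt_e, cnt_e, cnt_e, smul_eq_mul] at hcnt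
      have h7 : Even k := by
        rcases Int.even_mul.1 hcnt with h | h
        · exact h
        · exact absurd h (by decide)
      obtain ⟨j, rfl⟩ := h7
      rw [add_smul, ← smul_add]
      exact AddSubgroup.zsmul_mem _ (htau g (List.mem_singleton_self g)) j
    · simp only [List.length_cons] at hT1
      omega
  rw [hw]
  exact add_mem hr h5

/-- There is a certificate. -/
def HasCert (n p : ℕ) : Prop := ∃ (f : ℕ) (E T : List (ℕ × ℕ × ℕ)) (Rp : List ℕ) (ν : List ℤ)
  (S : List (Rc × ℕ)) (O : List Rc), certB n p f E T Rp ν S O = true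

/-- If there is a certificate then all Tate classes are algebraic. -/
theorem tate_of_cert {E T : List (ℕ × ℕ × ℕ)} {Rp : List ℕ} {ν : List ℤ} {S : List (Rc × ℕ)}
    {O : List Rc} (hp : (p : ZMod n) = P) (h : certB n p f E T Rp ν S O = true)
    (s : Multiset (ZMod n)) : IsTate P s ∧ s.sum = 0 ↔ Alg (curves P) s := by
  constructor
  · rintro ⟨hT, hsum⟩
    apply alg_of_relQ
    have h' := h
    simp only [certB, Bool.and_eq_true, decide_eq_true_eq] at h'
    obtain ⟨⟨hn3, hf0, hpf, _⟩, _⟩ := h'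
    have hPf : P ^ f = 1 := by
      apply Units.ext
      rw [Units.val_pow_eq_pow_val, Units.val_one, ← hp, ← Nat.cast_pow]
      have h1 : ((p ^ f : ℕ) : ZMod n) = ((p ^ f % n : ℕ) : ZMod n) := by rw [ZMod.natCast_mod]
      rw [h1, hpf, Nat.cast_one]
    obtain ⟨h0, heven, hb⟩ := (isTate_iff_f hPf hf0.ne').1 hT
    refine ker_cert hp h ?_ hb ?_ ?_
    · rw [toA_apply, Multiset.count_eq_zero_of_notMem h0]
      rfl
    · rw [sg_toA, hsum]
    · rw [cnt_toA]
      exact_mod_cast heven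
  · intro h
    exact ⟨alg_isTate (fun u hu => hu.1) h, alg_sum_eq (fun u hu => curves_sum hu) h⟩

end Pool.Agent.FermAll
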