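import Pool.Agent.FermAll.CertP

/-!
# Certificates for the degrees 12, 15, 20, 21
-/

set_option autoImplicit false

namespace Pool.Agent.FermAll

theorem cert_12_1 : certB 12 1 1
    [(2, 11, 11), (1, 2, 9)]
    []
    [1, 5]
    [0, 1, 2, 3, -8, 5, 6]
    [(.gen 2 11 11, 2), (.gen 1 2 9, 3), (.six 1 1 10 6 9 9, 6), (.dist 2 1, 5),
     (.six 1 3 8 7 7 10, 4)]
    [.dist 2 2, .dist 2 3] = true := by
  decide +kernel

theorem cert_12_5 : certB 12 5 2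
    [(1, 1, 10)]
    [(2, 3, 7)]
    [1]
    [0, 1, 2, 3, 4, 5, -6]
    [(.gen 1 1 10, 2), (.six 2 2 8 2 6 4, 6), (.six 1 2 9 2 7 3, 5), (.gen 2 3 7, 3),
     (.six 1 2 9 2 2 8, 4)]
    [.dist 2 1] = true := by
  decide +kernel

theorem cert_12_7 : certB 12 7 2
    [(3, 10, 11)]
    [(1, 1, 10)]
    [1]
    [0, 1, 2, 3, 16, -19, 6]
    [(.gen 1 1 10, 2), (.gen 3 10 11, 3), (.six 1 1 10 6 9 9, 6), (.six 1 5 6 3 3 6, 5),
     (.six 1 1 10 3 4 5, 4)]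
    [.dist 2 1, .dist 2 3] = true := by
  decide +kernel

theorem cert_12_11 : certB 12 11 2
    []
    [(6, 9, 9)]
    []
    [0, 1, 38, 3, -8, 5, 6]
    [(.six 1 1 10 1 9 2, 3), (.six 1 1 10 3 7 2, 5), (.gen 6 9 9, 6), (.six 6 9 9 7 8 9, 4),
     (.six 6 8 10 8 8 8, 2)]
    [.dist 2 1, .dist 2 2] = true := by
  decide +kernel

theorem certs_12 : ∀ p ∈ ([1, 5, 7, 11] : List ℕ), HasCert 12 p := by
  intro p hp
  simp only [List.mem_cons, List.not_mem_nil, or_false] at hp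
  rcases hp with rfl | rfl | rfl | rfl
  exacts [⟨_, _, _, _, _, _, _, cert_12_1⟩, ⟨_, _, _, _, _, _, _, cert_12_5⟩,
   ⟨_, _, _, _, _, _, _, cert_12_7⟩, ⟨_, _, _, _, _, _, _, cert_12_11⟩]

theorem cert_15_1 : certB 15 1 1
    [(2, 14, 14), (2, 2, 11), (1, 2, 12), (9, 10, 11)]
    []
    [1, 2, 4, 7]
    [0, 1, 2, 3, 4, 5, 6, 7]
    [(.gen 2 14 14, 2), (.gen 2 2 11, 4), (.gen 1 2 12, 3), (.dist 3 1, 6),
     (.six 1 6 8 6 11 13, 7), (.six 4 7 4 9 10 11, 5)]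
    [.gen 9 10 11] = true := by
  decide +kernel

theorem cert_15_2 : certB 15 2 4
    [(2, 14, 14)]
    [(2, 6, 7)]
    [1]
    [0, 1, 2, 18, 4, 5, 6, -8]
    [(.gen 2 14 14, 2), (.six 1 1 13 4 13 13, 4), (.six 1 1 13 8 11 11, 7), (.gen 2 6 7, 6),
     (.six 1 5 9 8 11 11, 5), (.six 1 7 7 2 3 10, 3)]
    [.dist 3 1] = true := by
  decide +kernel

theorem cert_15_4 : certB 15 4 2
    [(1, 1, 13), (3, 13, 14)]
    [(1, 3, 11)]
    [1, 2]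
    [0, 1, 2, 3, -11, -10, -9, -8]
    [(.gen 1 1 13, 2), (.gen 3 13 14, 3), (.six 2 3 10 3 7 5, 7), (.six 1 2 12 7 11 12, 4),
     (.six 3 3 9 3 6 6, 6), (.six 4 13 13 8 10 12, 5)]
    [.six 1 9 5 9 11 10, .gen 1 3 11] = true := by
  decide +kernel

theorem cert_15_7 : certB 15 7 4
    [(2, 14, 14)]
    [(1, 3, 11)]
    [1]
    [0, 1, 2, 3, 4, -10, -9, 7]
    [(.gen 2 14 14, 2), (.six 1 1 13 2 11 2, 4), (.six 1 7 7 11 11 8, 7), (.gen 1 3 11, 3),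
     (.six 1 3 11 8 9 13, 6), (.six 2 5 8 9 9 12, 5)]
    [.dist 3 1] = true := by
  decide +kernel

theorem cert_15_8 : certB 15 8 4
    [(2, 14, 14)]
    [(2, 6, 7)]
    [1]
    [0, 1, 2, 18, 4, 5, 6, -8]
    [(.gen 2 14 14, 2), (.six 1 1 13 4 13 13, 4), (.six 1 1 13 8 11 11, 7), (.gen 2 6 7, 6),
     (.six 1 5 9 8 11 11, 5), (.six 1 7 7 2 3 10, 3)]
    [.dist 3 1] = true := by
  decide +kernel

theorem cert_15_11 : certB 15 11 2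
    [(1, 1, 13), (5, 12, 13)]
    [(1, 2, 12)]
    [1, 2]
    [0, 1, 2, 3, 4, 5, -9, 7]
    [(.gen 1 1 13, 2), (.gen 1 2 12, 3), (.gen 5 12 13, 5), (.six 1 2 12 1 4 10, 4),
     (.six 1 2 12 4 8 3, 7), (.six 1 6 8 5 5 5, 6)]
    [.dist 3 1] = true := by
  decide +kernel

theorem cert_15_13 : certB 15 13 4
    [(2, 14, 14)]
    [(1, 3, 11)]
    [1]
    [0, 1, 2, 3, 4, -10, -9, 7]
    [(.gen 2 14 14, 2), (.six 1 1 13 2 11 2, 4), (.six 1 7 7 11 11 8, 7), (.gen 1 3 11, 3),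
     (.six 1 3 11 8 9 13, 6), (.six 2 5 8 9 9 12, 5)]
    [.dist 3 1] = true := by
  decide +kernel

theorem cert_15_14 : certB 15 14 2
    []
    [(1, 1, 13)]
    []
    [0, 1, -103, 3, -41, 5, 21, 97]
    [(.six 1 1 13 1 12 2, 3), (.six 1 5 9 12 12 6, 5), (.six 1 5 9 5 5 5, 6),
     (.six 4 5 6 5 5 5, 4), (.six 4 4 7 10 10 10, 7), (.six 2 6 7 10 10 10, 2)]
    [.dist 3 1, .dist 3 2, .gen 1 1 13] = true := by
  decide +kernel

theorem certs_15 : ∀ p ∈ ([1, 2, 4, 7, 8, 11, 13, 14] : List ℕ), HasCert 15 p := by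
  intro p hp
  simp only [List.mem_cons, List.not_mem_nil, or_false] at hp
  rcases hp with rfl | rfl | rfl | rfl | rfl | rfl | rfl | rfl
  exacts [⟨_, _, _, _, _, _, _, cert_15_1⟩, ⟨_, _, _, _, _, _, _, cert_15_2⟩,
   ⟨_, _, _, _, _, _, _, cert_15_4⟩, ⟨_, _, _, _, _, _, _, cert_15_7⟩,
   ⟨_, _, _, _, _, _, _, cert_15_8⟩, ⟨_, _, _, _, _, _, _, cert_15_11⟩,
   ⟨_, _, _, _, _, _, _, cert_15_13⟩, ⟨_, _, _, _, _, _, _, cert_15_14⟩]

theorem cert_20_1 : certB 20 1 1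
    [(2, 19, 19), (1, 2, 17), (3, 4, 13), (8, 15, 17)]
    []
    [1, 3, 7, 9]
    [0, 1, 2, 3, 4, 5, 6, 7, 8, 9, 10]
    [(.gen 2 19 19, 2), (.gen 1 2 17, 3), (.six 1 1 18 6 17 17, 6), (.six 1 4 15 17 18 5, 4),
     (.gen 3 4 13, 7), (.six 1 7 12 6 17 17, 8), (.dist 2 4, 10), (.six 4 9 7 13 14 13, 9),
     (.gen 8 15 17, 5)]
    [.dist 2 5] = true := by
  decide +kernel

theorem cert_20_9 : certB 20 9 2
    [(2, 19, 19), (2, 3, 15)]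
    [(6, 6, 8)]
    [1, 3]
    [0, 1, 2, 3, -16, 5, 6, 7, -12, 9, -10]
    [(.gen 2 19 19, 2), (.six 2 2 16 2 14 4, 6), (.six 1 2 17 6 11 3, 9),
     (.six 6 6 8 10 18 12, 10), (.gen 6 6 8, 8), (.six 10 14 16 12 14 14, 4),
     (.six 9 14 17 10 14 16, 3), (.six 2 19 19 3 7 10, 7), (.gen 2 3 15, 5)]
    [.dist 2 1] = true := by
  decide +kernel

theorem cert_20_11 : certB 20 11 2
    [(1, 2, 17), (1, 4, 15)]
    [(2, 19, 19)]
    [1, 3]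
    [0, 1, 2, 3, 4, 5, 6, -13, 8, 9, 10]
    [(.gen 2 19 19, 2), (.gen 1 2 17, 3), (.six 1 1 18 6 17 17, 6), (.six 1 6 13 16 17 7, 4),
     (.gen 1 4 15, 5), (.six 3 5 12 5 7 8, 7), (.six 3 4 13 12 14 14, 8),
     (.six 3 6 11 8 16 16, 9), (.six 10 15 15 11 13 16, 10)]
    [.dist 2 3] = true := by
  decide +kernel

theorem cert_20_13 : certB 20 13 4
    [(2, 3, 15)]
    [(1, 1, 18)]
    [1]
    [0, 1, 2, 3, 4, 5, 6, 7, 8, 9, 30]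
    [(.six 1 1 18 1 17 2, 3), (.six 3 3 14 3 11 6, 9), (.six 1 3 16 3 13 4, 7), (.gen 1 1 18, 2),
     (.six 10 13 17 11 11 18, 10), (.six 10 13 17 13 13 14, 6), (.six 10 14 16 13 13 14, 4),
     (.six 10 14 16 12 14 14, 8), (.gen 2 3 15, 5)]
    [.dist 2 1] = true := by
  decide +kernel

theorem cert_20_17 : certB 20 17 4
    [(2, 3, 15)]
    [(1, 1, 18)]
    [1]
    [0, 1, 2, 3, 4, 5, 6, 7, 8, 9, 30]
    [(.six 1 1 18 1 17 2, 3), (.six 3 3 14 3 11 6, 9), (.six 1 3 16 3 13 4, 7), (.gen 1 1 18, 2),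
     (.six 10 13 17 11 11 18, 10), (.six 10 13 17 13 13 14, 6), (.six 10 14 16 13 13 14, 4),
     (.six 10 14 16 12 14 14, 8), (.gen 2 3 15, 5)]
    [.dist 2 1] = true := by
  decide +kernel

theorem cert_20_19 : certB 20 19 2
    []
    [(11, 13, 16)]
    []
    [0, 1, -18, 3, -16, 5, -14, 7, 28, 9, 10]
    [(.six 1 1 18 1 17 2, 3), (.six 3 3 14 3 11 6, 9), (.six 1 1 18 3 15 2, 5),
     (.six 2 3 15 7 15 18, 7), (.gen 11 13 16, 4), (.six 10 15 15 11 13 16, 10),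
     (.six 10 15 15 13 13 14, 6), (.six 10 15 15 12 14 14, 8), (.six 10 12 18 13 13 14, 2)]
    [.dist 2 1] = true := by
  decide +kernel

theorem certs_20 : ∀ p ∈ ([1, 9, 11, 13, 17, 19] : List ℕ), HasCert 20 p := by
  intro p hp
  simp only [List.mem_cons, List.not_mem_nil, or_false] at hp
  rcases hp with rfl | rfl | rfl | rfl | rfl | rfl
  exacts [⟨_, _, _, _, _, _, _, cert_20_1⟩, ⟨_, _, _, _, _, _, _, cert_20_9⟩,
   ⟨_, _, _, _, _, _, _, cert_20_11⟩, ⟨_, _, _, _, _, _, _, cert_20_13⟩,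
   ⟨_, _, _, _, _, _, _, cert_20_17⟩, ⟨_, _, _, _, _, _, _, cert_20_19⟩]

theorem cert_21_1 : certB 21 1 1
    [(2, 20, 20), (2, 2, 17), (3, 4, 14), (1, 4, 16), (8, 17, 17), (3, 8, 10)]
    []
    [1, 2, 4, 5, 8, 10]
    [0, 1, 2, 3, 4, 5, 6, 7, 8, 9, 10]
    [(.gen 2 20 20, 2), (.gen 2 2 17, 4), (.six 1 4 16 18 19 5, 3), (.gen 3 4 14, 7),
     (.gen 1 4 16, 5), (.gen 8 17 17, 8), (.six 2 8 11 15 17 10, 6), (.six 1 4 16 9 15 18, 9),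
     (.dist 7 1, 10)]
    [.gen 3 8 10] = true := by
  decide +kernel

theorem cert_21_2 : certB 21 2 6
    [(2, 20, 20)]
    [(4, 7, 10)]
    [1]
    [0, 1, 2, 3, 4, 5, 6, -14, 8, -12, 10]
    [(.gen 2 20 20, 2), (.six 1 1 19 4 19 19, 4), (.six 1 1 19 6 17 19, 6),
     (.six 1 3 17 6 17 19, 3), (.dist 3 1, 8), (.six 8 16 18 8 17 17, 5),
     (.six 2 3 16 10 15 17, 10), (.six 2 9 10 10 16 16, 9), (.gen 4 7 10, 7)]
    [.dist 3 2] = true := by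
  decide +kernel

theorem cert_21_4 : certB 21 4 3
    [(2, 20, 20), (12, 14, 16)]
    []
    [1, 2]
    [0, 1, 2, 3, 4, 5, 6, 7, 8, -12, 10]
    [(.gen 2 20 20, 2), (.six 1 1 19 4 19 19, 4), (.six 1 1 19 6 17 19, 6),
     (.six 1 3 17 6 17 19, 3), (.dist 3 1, 8), (.six 8 16 18 8 17 17, 5),
     (.six 2 3 16 10 15 17, 10), (.six 2 9 10 10 16 16, 9), (.gen 12 14 16, 7)]
    [.dist 3 2] = true := by
  decide +kernel

theorem cert_21_5 : certB 21 5 6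
    []
    [(1, 1, 19)]
    []
    [0, 1, 191, 3, 109, 5, 27, 7, -55, -33, -11]
    [(.six 1 1 19 1 18 2, 3), (.six 1 5 15 18 18 6, 5), (.six 1 7 13 16 18 8, 7),
     (.six 5 7 9 7 7 7, 9), (.six 5 5 11 5 7 9, 10), (.six 5 6 10 14 14 14, 6),
     (.six 6 7 8 7 7 7, 8), (.six 4 8 9 14 14 14, 4), (.six 2 9 10 10 15 17, 2)]
    [.dist 3 1, .dist 3 2, .gen 1 1 19] = true := by
  decide +kernel

theorem cert_21_8 : certB 21 8 2
    [(1, 1, 19), (4, 19, 19), (5, 17, 20)]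
    [(7, 16, 19)]
    [1, 2, 4]
    [0, 1, 2, 3, 4, 5, 6, 7, 8, 9, 10]
    [(.gen 1 1 19, 2), (.gen 4 19 19, 4), (.six 1 4 16 18 19 5, 3), (.gen 5 17 20, 5),
     (.six 1 2 18 1 5 15, 6), (.six 2 2 17 3 5 13, 8), (.six 1 8 12 5 18 19, 9),
     (.six 2 8 11 9 15 18, 10), (.gen 7 16 19, 7)]
    [.six 1 11 9 13 17 12] = true := by
  decide +kernel

theorem cert_21_10 : certB 21 10 6
    [(13, 14, 15)]
    [(1, 1, 19)]
    [1]
    [0, 1, -439, 3, 109, -79, 27, 154, -181, 9, -11]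
    [(.six 1 1 19 1 18 2, 3), (.six 3 3 15 3 12 6, 9), (.six 3 3 15 3 9 9, 6),
     (.six 1 9 11 9 15 18, 10), (.six 5 6 10 6 6 9, 5), (.six 4 6 11 5 5 11, 4),
     (.six 4 8 9 11 15 16, 8), (.six 2 9 10 13 13 16, 2), (.gen 13 14 15, 7)]
    [.dist 3 1, .dist 3 2, .gen 1 1 19] = true := by
  decide +kernel

theorem cert_21_11 : certB 21 11 6
    [(2, 20, 20)]
    [(4, 7, 10)]
    [1]
    [0, 1, 2, 3, 4, 5, 6, -14, 8, -12, 10]
    [(.gen 2 20 20, 2), (.six 1 1 19 4 19 19, 4), (.six 1 1 19 6 17 19, 6),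
     (.six 1 3 17 6 17 19, 3), (.dist 3 1, 8), (.six 8 16 18 8 17 17, 5),
     (.six 2 3 16 10 15 17, 10), (.six 2 9 10 10 16 16, 9), (.gen 4 7 10, 7)]
    [.dist 3 2] = true := by
  decide +kernel

theorem cert_21_13 : certB 21 13 2
    [(2, 20, 20), (1, 2, 18), (1, 7, 13)]
    [(1, 4, 16)]
    [1, 2, 4]
    [0, 1, 2, 3, 4, 26, 27, 28, 29, 9, -74]
    [(.gen 2 20 20, 2), (.gen 1 2 18, 3), (.six 1 4 16 18 19 5, 4), (.six 3 3 15 3 12 6, 9),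
     (.six 1 4 16 3 9 9, 5), (.six 3 3 15 3 9 9, 6), (.six 2 4 15 11 15 16, 10),
     (.six 4 4 13 11 15 16, 8), (.gen 1 7 13, 7)]
    [.dist 3 2, .gen 1 4 16] = true := by
  decide +kernel

theorem cert_21_16 : certB 21 16 3
    [(2, 20, 20), (12, 14, 16)]
    []
    [1, 2]
    [0, 1, 2, 3, 4, 5, 6, 7, 8, -12, 10]
    [(.gen 2 20 20, 2), (.six 1 1 19 4 19 19, 4), (.six 1 1 19 6 17 19, 6),
     (.six 1 3 17 6 17 19, 3), (.dist 3 1, 8), (.six 8 16 18 8 17 17, 5),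
     (.six 2 3 16 10 15 17, 10), (.six 2 9 10 10 16 16, 9), (.gen 12 14 16, 7)]
    [.dist 3 2] = true := by
  decide +kernel

theorem cert_21_17 : certB 21 17 6
    []
    [(1, 1, 19)]
    []
    [0, 1, 191, 3, 109, 5, 27, 7, -55, -33, -11]
    [(.six 1 1 19 1 18 2, 3), (.six 1 5 15 18 18 6, 5), (.six 1 7 13 16 18 8, 7),
     (.six 5 7 9 7 7 7, 9), (.six 5 5 11 5 7 9, 10), (.six 5 6 10 14 14 14, 6),
     (.six 6 7 8 7 7 7, 8), (.six 4 8 9 14 14 14, 4), (.six 2 9 10 10 15 17, 2)]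
    [.dist 3 1, .dist 3 2, .gen 1 1 19] = true := by
  decide +kernel

theorem cert_21_19 : certB 21 19 6
    [(13, 14, 15)]
    [(1, 1, 19)]
    [1]
    [0, 1, -439, 3, 109, -79, 27, 154, -181, 9, -11]
    [(.six 1 1 19 1 18 2, 3), (.six 3 3 15 3 12 6, 9), (.six 3 3 15 3 9 9, 6),
     (.six 1 9 11 9 15 18, 10), (.six 5 6 10 6 6 9, 5), (.six 4 6 11 5 5 11, 4),
     (.six 4 8 9 11 15 16, 8), (.six 2 9 10 13 13 16, 2), (.gen 13 14 15, 7)]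
    [.dist 3 1, .dist 3 2, .gen 1 1 19] = true := by
  decide +kernel

theorem cert_21_20 : certB 21 20 2
    []
    [(1, 1, 19)]
    []
    [0, 1, 191, 3, 109, 5, 27, 7, -55, -33, -11]
    [(.six 1 1 19 1 18 2, 3), (.six 1 5 15 18 18 6, 5), (.six 1 7 13 16 18 8, 7),
     (.six 5 7 9 7 7 7, 9), (.six 5 5 11 5 7 9, 10), (.six 5 6 10 14 14 14, 6),
     (.six 6 7 8 7 7 7, 8), (.six 4 8 9 14 14 14, 4), (.six 2 9 10 10 15 17, 2)]
    [.dist 3 1, .dist 3 2, .gen 1 1 19] = true := by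
  decide +kernel

theorem certs_21 : ∀ p ∈ ([1, 2, 4, 5, 8, 10, 11, 13, 16, 17, 19, 20] : List ℕ), HasCert 21 p := by
  intro p hp
  simp only [List.mem_cons, List.not_mem_nil, or_false] at hp
  rcases hp with rfl | rfl | rfl | rfl | rfl | rfl | rfl | rfl | rfl | rfl | rfl | rfl
  exacts [⟨_, _, _, _, _, _, _, cert_21_1⟩, ⟨_, _, _, _, _, _, _, cert_21_2⟩,
   ⟨_, _, _, _, _, _, _, cert_21_4⟩, ⟨_, _, _, _, _, _, _, cert_21_5⟩,
   ⟨_, _, _, _, _, _, _, cert_21_8⟩, ⟨_, _, _, _, _, _, _, cert_21_10⟩,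
   ⟨_, _, _, _, _, _, _, cert_21_11⟩, ⟨_, _, _, _, _, _, _, cert_21_13⟩,
   ⟨_, _, _, _, _, _, _, cert_21_16⟩, ⟨_, _, _, _, _, _, _, cert_21_17⟩,
   ⟨_, _, _, _, _, _, _, cert_21_19⟩, ⟨_, _, _, _, _, _, _, cert_21_20⟩]

end Pool.Agent.FermAll
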