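import Pool.Agent.FermAll.CertP

/-!
# Certificates for the degrees 24, 28, 30
-/

set_option autoImplicit false

namespace Pool.Agent.FermAll

theorem cert_24_1 : certB 24 1 1
    [(1, 1, 22), (3, 22, 23), (6, 21, 21), (4, 22, 22)]
    []
    [1, 5, 7, 11]
    [0, 1, 2, 3, 4, 5, 6, -17, 8, -15, 10, -37, 12]
    [(.gen 1 1 22, 2), (.gen 3 22 23, 3), (.gen 6 21 21, 6), (.six 1 6 17 19 22 7, 5),
     (.six 1 10 13 18 19 11, 10), (.gen 4 22 22, 4), (.six 1 8 15 19 20 9, 8), (.dist 2 4, 12),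
     (.six 2 23 23 5 7 12, 7), (.six 2 5 17 9 18 21, 9), (.six 2 9 13 7 20 21, 11)]
    [.dist 2 1, .dist 2 3] = true := by
  decide +kernel

theorem cert_24_5 : certB 24 5 2
    [(1, 1, 22), (3, 22, 23)]
    [(8, 20, 20)]
    [1, 7]
    [0, 1, 2, 3, 4, 5, -18, -17, 8, 9, -14, 11, 12]
    [(.gen 1 1 22, 2), (.gen 3 22 23, 3), (.six 2 4 18 21 21 6, 4), (.six 12 20 16 20 20 8, 12),
     (.dist 2 1, 11), (.six 1 13 10 14 20 14, 10), (.gen 8 20 20, 8), (.six 3 7 14 3 8 13, 7),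
     (.six 2 23 23 5 7 12, 5), (.six 5 21 22 15 16 17, 9), (.six 3 6 15 14 14 20, 6)]
    [.dist 2 2] = true := by
  decide +kernel

theorem cert_24_7 : certB 24 7 2
    [(2, 23, 23), (1, 2, 21)]
    [(3, 9, 12)]
    [1, 5]
    [0, 1, 2, 3, 4, 5, -42, 7, 8, 9, -14, 11, -12]
    [(.gen 2 23 23, 2), (.gen 1 2 21, 3), (.six 3 3 18 3 15 6, 9), (.dist 3 1, 7),
     (.six 1 1 22 14 17 17, 10), (.six 2 3 19 3 16 5, 8), (.gen 3 9 12, 12),
     (.six 2 23 23 5 7 12, 5), (.six 2 9 13 3 5 16, 11), (.six 2 9 13 7 20 21, 4),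
     (.six 4 10 10 15 15 18, 6)]
    [.dist 2 1] = true := by
  decide +kernel

theorem cert_24_11 : certB 24 11 2
    [(1, 1, 22), (10, 15, 23)]
    [(7, 19, 22)]
    [1, 5]
    [0, 1, 2, -21, 4, -19, 6, -17, 8, 9, 10, -37, 36]
    [(.gen 1 1 22, 2), (.six 2 2 20 2 18 4, 6), (.six 2 2 20 6 14 4, 10),
     (.six 1 14 9 14 19 15, 5), (.gen 10 15 23, 9), (.gen 7 19 22, 7), (.six 2 23 23 5 7 12, 12),
     (.six 12 18 18 14 16 18, 8), (.six 12 16 20 16 16 16, 4), (.six 11 18 19 12 16 20, 11),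
     (.six 3 8 13 4 5 15, 3)]
    [.dist 2 1, .dist 2 2] = true := by
  decide +kernel

theorem cert_24_13 : certB 24 13 2
    [(2, 2, 20), (3, 22, 23)]
    [(2, 23, 23)]
    [1, 5]
    [0, 1, 2, 3, 4, 5, 6, 7, 8, 9, 10, -13, -12]
    [(.gen 2 23 23, 2), (.gen 2 2 20, 4), (.gen 3 22 23, 3), (.six 1 2 21 7 20 21, 7),
     (.six 1 1 22 1 7 16, 8), (.six 2 7 15 7 20 21, 9), (.six 2 2 20 9 18 21, 6),
     (.six 4 22 22 6 6 12, 12), (.six 6 6 12 7 19 22, 5), (.six 1 9 14 3 5 16, 10),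
     (.six 3 7 14 13 15 20, 11)]
    [.dist 2 2] = true := by
  decide +kernel

theorem cert_24_17 : certB 24 17 2
    [(4, 22, 22), (5, 9, 10)]
    [(2, 23, 23)]
    [1, 5]
    [0, 1, 2, -21, 4, 5, 54, 7, 8, -15, 10, -133, 36]
    [(.gen 2 23 23, 2), (.gen 4 22 22, 4), (.six 1 7 16 20 20 8, 7), (.six 1 8 15 17 22 9, 8),
     (.six 12 16 20 16 16 16, 12), (.six 12 17 19 16 16 16, 5), (.six 12 17 19 14 17 17, 10),
     (.six 2 10 12 7 18 23, 6), (.six 6 6 12 11 14 23, 11), (.gen 5 9 10, 9),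
     (.six 1 2 21 1 9 14, 3)]
    [.dist 2 1, .dist 2 2] = true := by
  decide +kernel

theorem cert_24_19 : certB 24 19 2
    [(2, 4, 18), (1, 3, 20)]
    [(2, 23, 23)]
    [1, 7]
    [0, 1, 2, 3, 4, 5, 6, -41, 56, 465, 58, -205, -12]
    [(.gen 2 23 23, 2), (.six 1 1 22 2 20 2, 4), (.gen 2 4 18, 6), (.six 1 6 17 19 22 7, 5),
     (.six 6 6 12 6 19 23, 12), (.six 12 17 19 12 18 18, 7), (.six 12 18 18 14 17 17, 10),
     (.six 1 4 19 10 16 22, 8), (.six 4 7 13 16 16 16, 11), (.gen 1 3 20, 3),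
     (.six 3 8 13 13 15 20, 9)]
    [.dist 2 1, .dist 2 2] = true := by
  decide +kernel

theorem cert_24_23 : certB 24 23 2
    []
    [(3, 10, 11)]
    []
    [0, 1, 26, 3, -20, 5, 30, 7, -16, 9, -14, 11, 12]
    [(.six 1 1 22 1 21 2, 3), (.six 3 3 18 3 15 6, 9), (.six 1 5 18 21 21 6, 5),
     (.six 2 3 19 9 17 22, 7), (.six 1 4 19 11 17 20, 11), (.gen 3 10 11, 10),
     (.six 12 17 19 14 17 17, 12), (.six 12 17 19 15 16 17, 8), (.six 12 17 19 14 16 18, 6),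
     (.six 12 18 18 14 14 20, 4), (.six 12 16 20 13 13 22, 2)]
    [.dist 2 1] = true := by
  decide +kernel

theorem certs_24 : ∀ p ∈ ([1, 5, 7, 11, 13, 17, 19, 23] : List ℕ), HasCert 24 p := by
  intro p hp
  simp only [List.mem_cons, List.not_mem_nil, or_false] at hp
  rcases hp with rfl | rfl | rfl | rfl | rfl | rfl | rfl | rfl
  exacts [⟨_, _, _, _, _, _, _, cert_24_1⟩, ⟨_, _, _, _, _, _, _, cert_24_5⟩,
   ⟨_, _, _, _, _, _, _, cert_24_7⟩, ⟨_, _, _, _, _, _, _, cert_24_11⟩,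
   ⟨_, _, _, _, _, _, _, cert_24_13⟩, ⟨_, _, _, _, _, _, _, cert_24_17⟩,
   ⟨_, _, _, _, _, _, _, cert_24_19⟩, ⟨_, _, _, _, _, _, _, cert_24_23⟩]

theorem cert_28_1 : certB 28 1 1
    [(2, 27, 27), (4, 26, 26), (1, 4, 23), (5, 25, 26), (10, 23, 23), (10, 21, 25)]
    []
    [1, 3, 5, 9, 11, 13]
    [0, 1, 2, 3, 4, 5, -22, 7, 8, 9, 10, 11, -44, 41, -14]
    [(.gen 2 27 27, 2), (.gen 4 26 26, 4), (.gen 1 4 23, 5), (.gen 5 25 26, 3),
     (.gen 10 23 23, 10), (.six 2 11 15 18 25 13, 11), (.gen 10 21 25, 7),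
     (.six 1 9 18 21 25 10, 9), (.six 4 9 15 20 23 13, 8), (.dist 2 10, 14),
     (.six 2 4 22 18 18 20, 6), (.six 3 8 17 12 22 22, 12), (.six 1 15 12 16 24 16, 13)]
    [.dist 2 1, .dist 2 2] = true := by
  decide +kernel

theorem cert_28_3 : certB 28 3 6
    []
    [(16, 17, 23)]
    []
    [0, 1, 2, 3, 60, 5, 62, 35, 8, 9, 10, 11, -16, 13, 98]
    [(.six 1 1 26 1 25 2, 3), (.six 3 3 22 3 19 6, 9), (.six 1 1 26 3 23 2, 5),
     (.six 2 3 23 11 19 26, 11), (.six 1 2 25 13 17 26, 13), (.six 7 15 6 17 17 22, 7),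
     (.gen 16 17 23, 12), (.six 14 21 21 16 19 21, 14), (.six 14 21 21 18 19 19, 10),
     (.six 14 21 21 18 18 20, 8), (.six 14 20 22 18 19 19, 6), (.six 14 20 22 16 16 24, 4),
     (.six 14 18 24 15 15 26, 2)]
    [.dist 2 1, .dist 2 2] = true := by
  decide +kernel

theorem cert_28_5 : certB 28 5 6
    [(2, 27, 27)]
    [(6, 8, 14)]
    [1]
    [0, 1, 2, 3, -108, -51, 6, -273, -20, 37, -18, 95, 68, -183, 14]
    [(.gen 2 27 27, 2), (.six 2 2 24 2 22 4, 6), (.six 14 22 20 22 26 8, 14),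
     (.six 6 6 16 6 10 12, 10), (.six 1 18 9 18 19 19, 9), (.six 2 27 27 5 9 14, 5),
     (.six 3 26 27 5 9 14, 3), (.six 10 23 23 14 17 25, 11), (.six 14 15 27 17 17 22, 13),
     (.six 13 21 22 14 17 25, 7), (.gen 6 8 14, 8), (.six 14 20 22 16 20 20, 12),
     (.six 14 20 22 16 16 24, 4)]
    [.dist 2 1, .dist 2 2] = true := by
  decide +kernel

theorem cert_28_9 : certB 28 9 3
    [(2, 27, 27), (4, 5, 19)]
    []
    [1, 5]
    [0, 1, 2, 3, 4, 5, 6, -21, -48, 9, 10, -17, 12, -15, -14]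
    [(.gen 2 27 27, 2), (.six 2 2 24 2 22 4, 6), (.six 2 2 24 6 18 4, 10),
     (.six 6 10 12 14 26 16, 14), (.dist 2 1, 13), (.six 1 6 21 1 13 14, 7),
     (.six 1 6 21 13 18 25, 3), (.six 14 15 27 14 17 25, 11), (.six 10 19 27 14 17 25, 9),
     (.six 14 19 23 17 17 22, 5), (.gen 4 5 19, 4), (.six 14 16 26 15 17 24, 12),
     (.six 14 16 26 18 18 20, 8)]
    [.dist 2 2] = true := by
  decide +kernel

theorem cert_28_11 : certB 28 11 6
    [(3, 12, 13)]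
    [(5, 25, 26)]
    [1]
    [0, 1, 2, 3, 60, 5, 6, 7, 36, 9, 10, 11, -16, 13, 42]
    [(.six 1 1 26 1 25 2, 3), (.six 1 3 24 3 21 4, 7), (.six 1 1 26 3 23 2, 5),
     (.six 2 5 21 9 21 26, 9), (.six 1 4 23 13 19 24, 13), (.six 1 2 25 13 17 26, 11),
     (.gen 5 25 26, 2), (.six 14 21 21 15 15 26, 14), (.six 14 21 21 18 19 19, 10),
     (.six 6 11 11 18 19 19, 6), (.gen 3 12 13, 12), (.six 14 16 26 18 18 20, 8),
     (.six 8 23 25 14 18 24, 4)]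
    [.dist 2 1] = true := by
  decide +kernel

theorem cert_28_13 : certB 28 13 2
    [(2, 27, 27), (13, 18, 25), (15, 18, 23)]
    [(14, 18, 24)]
    [1, 3, 5]
    [0, 1, 2, 3, 32, 33, 6, 63, 36, 65, -18, -17, -100, -15, 14]
    [(.gen 2 27 27, 2), (.six 2 2 24 2 22 4, 6), (.six 14 22 20 22 26 8, 14), (.dist 2 13, 13),
     (.six 1 2 25 10 15 3, 10), (.gen 13 18 25, 3), (.dist 2 11, 11), (.gen 15 18 23, 5),
     (.six 3 6 19 5 6 17, 9), (.six 1 6 21 5 6 17, 7), (.gen 14 18 24, 4),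
     (.six 14 18 24 18 18 20, 8), (.six 14 20 22 16 20 20, 12)]
    [.dist 2 1] = true := by
  decide +kernel

theorem cert_28_15 : certB 28 15 2
    [(4, 26, 26), (1, 3, 24), (5, 25, 26)]
    [(1, 1, 26)]
    [1, 3, 5]
    [0, 1, 2, 3, 4, 5, 6, -21, 8, -19, 10, -17, -16, 13, -70]
    [(.gen 1 1 26, 2), (.gen 4 26 26, 4), (.gen 1 3 24, 3), (.six 1 1 26 3 3 22, 6),
     (.six 2 8 18 22 24 10, 8), (.gen 5 25 26, 5), (.six 3 3 22 5 5 18, 10),
     (.six 2 2 24 16 18 22, 12), (.six 1 3 24 5 7 16, 7), (.six 1 7 20 16 17 23, 11),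
     (.six 4 11 13 12 21 23, 13), (.six 3 9 16 15 20 21, 9), (.six 14 21 21 18 19 19, 14)]
    [.dist 2 1, .dist 2 2] = true := by
  decide +kernel

theorem cert_28_17 : certB 28 17 6
    [(2, 27, 27)]
    [(6, 8, 14)]
    [1]
    [0, 1, 2, 3, -108, -51, 6, -273, -20, 37, -18, 95, 68, -183, 14]
    [(.gen 2 27 27, 2), (.six 2 2 24 2 22 4, 6), (.six 14 22 20 22 26 8, 14),
     (.six 6 6 16 6 10 12, 10), (.six 1 18 9 18 19 19, 9), (.six 2 27 27 5 9 14, 5),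
     (.six 3 26 27 5 9 14, 3), (.six 10 23 23 14 17 25, 11), (.six 14 15 27 17 17 22, 13),
     (.six 13 21 22 14 17 25, 7), (.gen 6 8 14, 8), (.six 14 20 22 16 20 20, 12),
     (.six 14 20 22 16 16 24, 4)]
    [.dist 2 1, .dist 2 2] = true := by
  decide +kernel

theorem cert_28_19 : certB 28 19 6
    []
    [(16, 17, 23)]
    []
    [0, 1, 2, 3, 60, 5, 62, 35, 8, 9, 10, 11, -16, 13, 98]
    [(.six 1 1 26 1 25 2, 3), (.six 3 3 22 3 19 6, 9), (.six 1 1 26 3 23 2, 5),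
     (.six 2 3 23 11 19 26, 11), (.six 1 2 25 13 17 26, 13), (.six 7 15 6 17 17 22, 7),
     (.gen 16 17 23, 12), (.six 14 21 21 16 19 21, 14), (.six 14 21 21 18 19 19, 10),
     (.six 14 21 21 18 18 20, 8), (.six 14 20 22 18 19 19, 6), (.six 14 20 22 16 16 24, 4),
     (.six 14 18 24 15 15 26, 2)]
    [.dist 2 1, .dist 2 2] = true := by
  decide +kernel

theorem cert_28_23 : certB 28 23 6
    [(3, 12, 13)]
    [(5, 25, 26)]
    [1]
    [0, 1, 2, 3, 60, 5, 6, 7, 36, 9, 10, 11, -16, 13, 42]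
    [(.six 1 1 26 1 25 2, 3), (.six 1 3 24 3 21 4, 7), (.six 1 1 26 3 23 2, 5),
     (.six 2 5 21 9 21 26, 9), (.six 1 4 23 13 19 24, 13), (.six 1 2 25 13 17 26, 11),
     (.gen 5 25 26, 2), (.six 14 21 21 15 15 26, 14), (.six 14 21 21 18 19 19, 10),
     (.six 6 11 11 18 19 19, 6), (.gen 3 12 13, 12), (.six 14 16 26 18 18 20, 8),
     (.six 8 23 25 14 18 24, 4)]
    [.dist 2 1] = true := by
  decide +kernel

theorem cert_28_25 : certB 28 25 3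
    [(2, 27, 27), (4, 5, 19)]
    []
    [1, 5]
    [0, 1, 2, 3, 4, 5, 6, -21, -48, 9, 10, -17, 12, -15, -14]
    [(.gen 2 27 27, 2), (.six 2 2 24 2 22 4, 6), (.six 2 2 24 6 18 4, 10),
     (.six 6 10 12 14 26 16, 14), (.dist 2 1, 13), (.six 1 6 21 1 13 14, 7),
     (.six 1 6 21 13 18 25, 3), (.six 14 15 27 14 17 25, 11), (.six 10 19 27 14 17 25, 9),
     (.six 14 19 23 17 17 22, 5), (.gen 4 5 19, 4), (.six 14 16 26 15 17 24, 12),
     (.six 14 16 26 18 18 20, 8)]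
    [.dist 2 2] = true := by
  decide +kernel

theorem cert_28_27 : certB 28 27 2
    []
    [(16, 17, 23)]
    []
    [0, 1, 2, 3, 60, 5, 62, 35, 8, 9, 10, 11, -16, 13, 98]
    [(.six 1 1 26 1 25 2, 3), (.six 3 3 22 3 19 6, 9), (.six 1 1 26 3 23 2, 5),
     (.six 2 3 23 11 19 26, 11), (.six 1 2 25 13 17 26, 13), (.six 7 15 6 17 17 22, 7),
     (.gen 16 17 23, 12), (.six 14 21 21 16 19 21, 14), (.six 14 21 21 18 19 19, 10),
     (.six 14 21 21 18 18 20, 8), (.six 14 20 22 18 19 19, 6), (.six 14 20 22 16 16 24, 4),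
     (.six 14 18 24 15 15 26, 2)]
    [.dist 2 1, .dist 2 2] = true := by
  decide +kernel

theorem certs_28 : ∀ p ∈ ([1, 3, 5, 9, 11, 13, 15, 17, 19, 23, 25, 27] : List ℕ), HasCert 28 p := by
  intro p hp
  simp only [List.mem_cons, List.not_mem_nil, or_false] at hp
  rcases hp with rfl | rfl | rfl | rfl | rfl | rfl | rfl | rfl | rfl | rfl | rfl | rfl
  exacts [⟨_, _, _, _, _, _, _, cert_28_1⟩, ⟨_, _, _, _, _, _, _, cert_28_3⟩,
   ⟨_, _, _, _, _, _, _, cert_28_5⟩, ⟨_, _, _, _, _, _, _, cert_28_9⟩,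
   ⟨_, _, _, _, _, _, _, cert_28_11⟩, ⟨_, _, _, _, _, _, _, cert_28_13⟩,
   ⟨_, _, _, _, _, _, _, cert_28_15⟩, ⟨_, _, _, _, _, _, _, cert_28_17⟩,
   ⟨_, _, _, _, _, _, _, cert_28_19⟩, ⟨_, _, _, _, _, _, _, cert_28_23⟩,
   ⟨_, _, _, _, _, _, _, cert_28_25⟩, ⟨_, _, _, _, _, _, _, cert_28_27⟩]

theorem cert_30_1 : certB 30 1 1
    [(2, 29, 29), (1, 2, 27), (3, 4, 23), (3, 7, 20)]
    []
    [1, 7, 11, 13]
    [0, 1, 2, 3, 4, 5, 6, 7, 8, -51, 10, 11, -18, 73, -46, 45]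
    [(.gen 2 29 29, 2), (.gen 1 2 27, 3), (.six 1 4 25 27 28 5, 4), (.gen 3 4 23, 7),
     (.six 1 7 22 25 27 8, 5), (.six 1 8 21 25 26 9, 8), (.gen 3 7 20, 10),
     (.six 1 10 19 10 25 25, 11), (.six 4 7 19 18 20 22, 12), (.six 2 12 16 12 22 26, 14),
     (.six 3 10 17 16 18 26, 13), (.six 4 12 14 13 23 24, 6), (.six 6 7 17 15 18 27, 15),
     (.six 7 8 15 9 25 26, 9)]
    [.dist 2 1, .dist 2 2] = true := by
  decide +kernel

theorem cert_30_7 : certB 30 7 4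
    [(2, 29, 29)]
    [(15, 18, 27)]
    [1]
    [0, 1, 2, 3, 4, 5, -24, 7, 8, 9, 10, -19, -18, 13, 14, -15]
    [(.gen 2 29 29, 2), (.six 1 2 27 2 25 3, 5), (.six 1 1 28 7 25 28, 7),
     (.six 1 1 28 3 25 2, 3), (.six 1 1 28 4 28 28, 4), (.six 2 3 25 8 26 26, 8),
     (.six 4 28 28 7 8 15, 15), (.six 8 25 27 15 19 26, 11), (.six 15 17 28 19 19 22, 13),
     (.six 14 17 29 15 19 26, 14), (.six 14 21 25 15 19 26, 9), (.gen 15 18 27, 12),
     (.six 15 21 24 18 21 21, 6), (.six 15 21 24 19 20 21, 10)]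
    [.dist 2 1] = true := by
  decide +kernel

theorem cert_30_11 : certB 30 11 2
    [(1, 1, 28), (4, 28, 28)]
    [(6, 8, 16)]
    [1, 7]
    [0, 1, 2, 93, 4, 35, -24, 7, 8, -51, -170, 11, -108, 13, -16, 15]
    [(.gen 1 1 28, 2), (.gen 4 28 28, 4), (.six 1 1 28 8 26 26, 8), (.six 1 2 27 8 19 3, 11),
     (.six 1 8 21 23 28 9, 7), (.six 4 28 28 15 22 23, 15), (.six 15 17 28 15 22 23, 13),
     (.six 15 17 28 16 22 22, 14), (.six 5 8 17 14 23 23, 5), (.six 14 21 25 15 22 23, 9),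
     (.six 3 8 19 9 25 26, 3), (.gen 6 8 16, 6), (.six 6 7 17 15 18 27, 12),
     (.six 3 10 17 18 19 23, 10)]
    [.dist 2 1] = true := by
  decide +kernel

theorem cert_30_13 : certB 30 13 4
    [(2, 29, 29)]
    [(15, 18, 27)]
    [1]
    [0, 1, 2, 3, 4, 5, -24, 7, 8, 9, 10, -19, -18, 13, 14, -15]
    [(.gen 2 29 29, 2), (.six 1 2 27 2 25 3, 5), (.six 1 1 28 7 25 28, 7),
     (.six 1 1 28 3 25 2, 3), (.six 1 1 28 4 28 28, 4), (.six 2 3 25 8 26 26, 8),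
     (.six 4 28 28 7 8 15, 15), (.six 8 25 27 15 19 26, 11), (.six 15 17 28 19 19 22, 13),
     (.six 14 17 29 15 19 26, 14), (.six 14 21 25 15 19 26, 9), (.gen 15 18 27, 12),
     (.six 15 21 24 18 21 21, 6), (.six 15 21 24 19 20 21, 10)]
    [.dist 2 1] = true := by
  decide +kernel

theorem cert_30_17 : certB 30 17 4
    [(17, 21, 22)]
    [(6, 9, 15)]
    [1]
    [0, 1, -268, 3, -176, 5, 36, -173, -52, 39, -140, -49, -18, 13, 74, -75]
    [(.six 1 1 28 1 27 2, 3), (.six 1 5 24 27 27 6, 5), (.six 3 5 22 5 17 8, 13),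
     (.six 9 17 4 17 17 26, 9), (.six 3 17 10 19 21 20, 11), (.six 13 13 4 15 19 26, 15),
     (.six 11 11 8 15 23 22, 7), (.gen 17 21 22, 8), (.six 15 16 29 19 19 22, 14),
     (.six 15 16 29 17 17 26, 4), (.six 4 27 29 15 17 28, 2), (.gen 6 9 15, 6),
     (.six 15 21 24 19 20 21, 10), (.six 15 20 25 18 21 21, 12)]
    [.dist 2 1, .dist 2 2, .dist 2 3] = true := by
  decide +kernel

theorem cert_30_19 : certB 30 19 2
    [(2, 29, 29), (4, 28, 28)]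
    [(15, 21, 24)]
    [1, 7]
    [0, 1, 2, 3, 4, 65, -24, 7, 8, 9, 10, -19, -18, 43, 14, -15]
    [(.gen 2 29 29, 2), (.gen 4 28 28, 4), (.six 1 4 25 27 28 5, 3), (.six 1 1 28 3 4 23, 7),
     (.six 1 1 28 4 4 22, 8), (.six 4 28 28 7 8 15, 15), (.six 8 23 29 15 19 26, 11),
     (.six 15 16 29 19 19 22, 14), (.six 4 11 15 7 9 14, 9), (.six 4 9 17 19 19 22, 13),
     (.six 2 11 17 3 5 22, 5), (.gen 15 21 24, 6), (.six 15 21 24 19 20 21, 10),
     (.six 15 18 27 19 20 21, 12)]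
    [.dist 2 1] = true := by
  decide +kernel

theorem cert_30_23 : certB 30 23 4
    [(17, 21, 22)]
    [(6, 9, 15)]
    [1]
    [0, 1, -268, 3, -176, 5, 36, -173, -52, 39, -140, -49, -18, 13, 74, -75]
    [(.six 1 1 28 1 27 2, 3), (.six 1 5 24 27 27 6, 5), (.six 3 5 22 5 17 8, 13),
     (.six 9 17 4 17 17 26, 9), (.six 3 17 10 19 21 20, 11), (.six 13 13 4 15 19 26, 15),
     (.six 11 11 8 15 23 22, 7), (.gen 17 21 22, 8), (.six 15 16 29 19 19 22, 14),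
     (.six 15 16 29 17 17 26, 4), (.six 4 27 29 15 17 28, 2), (.gen 6 9 15, 6),
     (.six 15 21 24 19 20 21, 10), (.six 15 20 25 18 21 21, 12)]
    [.dist 2 1, .dist 2 2, .dist 2 3] = true := by
  decide +kernel

theorem cert_30_29 : certB 30 29 2
    []
    [(13, 20, 27)]
    []
    [0, 1, -58, 3, 4, 5, 6, -83, 8, 9, 10, -19, 12, 13, 14, -45]
    [(.six 1 1 28 1 27 2, 3), (.six 3 3 24 3 21 6, 9), (.six 1 5 24 27 27 6, 5),
     (.six 5 13 12 21 21 18, 13), (.six 3 17 10 19 21 20, 11), (.six 13 13 4 15 19 26, 15),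
     (.six 11 11 8 15 23 22, 7), (.gen 13 20 27, 10), (.six 15 22 23 20 20 20, 8),
     (.six 15 22 23 18 21 21, 12), (.six 15 22 23 18 18 24, 6), (.six 15 22 23 16 20 24, 14),
     (.six 15 22 23 16 18 26, 4), (.six 15 19 26 16 16 28, 2)]
    [.dist 2 2, .dist 2 3, .dist 2 4] = true := by
  decide +kernel

theorem certs_30 : ∀ p ∈ ([1, 7, 11, 13, 17, 19, 23, 29] : List ℕ), HasCert 30 p := by
  intro p hp
  simp only [List.mem_cons, List.not_mem_nil, or_false] at hp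
  rcases hp with rfl | rfl | rfl | rfl | rfl | rfl | rfl | rfl
  exacts [⟨_, _, _, _, _, _, _, cert_30_1⟩, ⟨_, _, _, _, _, _, _, cert_30_7⟩,
   ⟨_, _, _, _, _, _, _, cert_30_11⟩, ⟨_, _, _, _, _, _, _, cert_30_13⟩,
   ⟨_, _, _, _, _, _, _, cert_30_17⟩, ⟨_, _, _, _, _, _, _, cert_30_19⟩,
   ⟨_, _, _, _, _, _, _, cert_30_23⟩, ⟨_, _, _, _, _, _, _, cert_30_29⟩]

end Pool.Agent.FermAll
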