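import Pool.Agent.FermAll.CertP

/-!
# Certificates for the degrees 36
-/

set_option autoImplicit false

namespace Pool.Agent.FermAll

theorem cert_36_1 : certB 36 1 1
    [(1, 1, 34), (4, 34, 34), (4, 4, 28), (20, 26, 26), (6, 13, 17), (13, 29, 30)]
    []
    [1, 5, 7, 11, 13, 17]
    [0, 1, 2, -69, 4, 77, -30, 79, 8, -27, 10, 83, -24, 49, 14, -21, -20, -19, 18]
    [(.gen 1 1 34, 2), (.gen 4 34 34, 4), (.gen 4 4 28, 8), (.six 2 10 24 28 32 12, 10),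
     (.gen 20 26 26, 16), (.six 2 10 24 16 28 28, 12), (.six 1 16 19 10 28 34, 17),
     (.six 4 20 12 22 26 24, 14), (.six 10 12 14 18 32 22, 18), (.six 6 32 34 8 10 18, 6),
     (.gen 6 13 17, 13), (.six 2 10 24 13 28 31, 5), (.gen 13 29 30, 7),
     (.six 4 11 21 28 29 15, 11), (.six 1 13 22 20 25 27, 9), (.six 12 15 9 18 27 27, 15),
     (.six 3 9 24 21 21 30, 3)]
    [.dist 2 1] = true := by
  decide +kernel

theorem cert_36_5 : certB 36 5 6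
    [(2, 35, 35)]
    [(7, 13, 16)]
    [1]
    [0, 1, 2, 3, 220, -31, 6, 43, 80, -63, 10, 11, -24, 49, -22, -21, -92, 17, 18]
    [(.six 1 1 34 1 33 2, 3), (.gen 2 35 35, 2), (.six 2 2 32 2 30 4, 6),
     (.six 2 10 24 30 30 12, 10), (.six 3 34 35 11 26 35, 11), (.six 3 34 35 21 25 26, 15),
     (.six 17 25 30 21 25 26, 17), (.six 5 10 21 17 25 30, 5), (.six 1 4 31 17 23 32, 13),
     (.six 5 10 21 13 29 30, 7), (.six 17 21 34 18 25 29, 18), (.six 18 23 31 22 25 25, 14),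
     (.gen 7 13 16, 16), (.six 18 26 28 20 26 26, 8), (.six 2 7 27 3 5 28, 9),
     (.six 3 9 24 21 21 30, 12), (.six 18 24 30 20 20 32, 4)]
    [.dist 2 2, .dist 2 3] = true := by
  decide +kernel

theorem cert_36_7 : certB 36 7 6
    [(1, 3, 32)]
    [(17, 27, 28)]
    [1]
    [0, 1, -142, 3, 4, 5, 42, 7, 8, -27, 46, 11, 12, 13, -22, -21, 16, -19, -18]
    [(.six 1 1 34 1 33 2, 3), (.gen 1 3 32, 4), (.six 3 5 28 32 32 8, 5),
     (.six 1 4 31 8 31 33, 8), (.six 4 4 28 4 24 8, 12), (.six 1 11 24 4 4 28, 11),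
     (.six 4 8 24 16 25 31, 16), (.six 5 15 16 16 28 28, 15), (.six 5 15 16 19 25 28, 17),
     (.six 5 15 16 7 12 17, 7), (.six 5 7 24 21 23 28, 13), (.gen 17 27 28, 9),
     (.six 6 9 21 24 24 24, 6), (.six 6 14 16 24 24 24, 14), (.six 18 22 32 21 23 28, 18),
     (.six 18 22 32 19 26 27, 10), (.six 18 20 34 20 26 26, 2)]
    [.dist 2 1, .dist 2 2] = true := by
  decide +kernel

theorem cert_36_11 : certB 36 11 6
    []
    [(5, 5, 26)]
    []
    [0, 1, 2, 3, -32, 5, -138, -29, -64, 9, 10, 47, -24, 13, 50, 15, 124, 17, 54]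
    [(.six 1 1 34 1 33 2, 3), (.six 3 3 30 3 27 6, 9), (.six 1 5 30 33 33 6, 5),
     (.six 4 5 27 13 27 32, 13), (.six 2 3 31 15 23 34, 15), (.six 1 2 33 17 21 34, 17),
     (.six 11 19 6 21 21 30, 11), (.six 3 4 29 15 25 32, 7), (.gen 5 5 26, 10),
     (.six 18 27 27 23 23 26, 18), (.six 18 27 27 23 24 25, 12), (.six 18 27 27 22 24 26, 14),
     (.six 18 27 27 22 22 28, 8), (.six 18 27 27 20 24 28, 16), (.six 18 27 27 20 22 30, 6),
     (.six 18 24 30 20 20 32, 4), (.six 18 22 32 19 19 34, 2)]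
    [.dist 2 1] = true := by
  decide +kernel

theorem cert_36_13 : certB 36 13 3
    [(2, 35, 35), (6, 32, 34)]
    []
    [1, 5]
    [0, 1, 2, 3, 4, 5, 6, 7, -64, 81, 46, -61, 48, 13, 14, 15, 16, -55, -18]
    [(.six 1 1 34 1 33 2, 3), (.gen 2 35 35, 2), (.six 2 2 32 2 30 4, 6), (.gen 6 32 34, 4),
     (.six 1 4 31 4 34 34, 5), (.six 1 1 34 7 31 34, 7), (.six 1 5 30 7 23 6, 13),
     (.six 2 13 21 13 29 30, 15), (.six 1 14 21 13 29 30, 14), (.six 2 4 30 4 14 18, 18),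
     (.six 2 4 30 2 16 18, 16), (.six 3 12 21 20 22 30, 12), (.six 3 9 24 21 21 30, 9),
     (.six 4 11 21 5 9 22, 11), (.six 2 13 21 17 25 30, 17), (.six 15 25 32 19 26 27, 10),
     (.six 15 28 29 19 26 27, 8)]
    [.dist 2 1] = true := by
  decide +kernel

theorem cert_36_17 : certB 36 17 2
    [(1, 1, 34), (2, 15, 19), (15, 28, 29)]
    [(10, 12, 14)]
    [1, 5, 7]
    [0, 1, 2, 75, 112, -247, 6, -65, 80, -63, 10, -277, -24, -275, 14, 15, -92, 17, 18]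
    [(.gen 1 1 34, 2), (.six 2 2 32 2 30 4, 6), (.six 18 30 24 30 30 12, 18),
     (.six 2 2 32 6 26 4, 10), (.six 6 14 16 26 26 20, 14), (.six 1 6 29 10 19 7, 17),
     (.gen 10 12 14, 12), (.six 18 26 28 24 24 24, 8), (.six 18 26 28 20 26 26, 16),
     (.six 18 26 28 20 20 32, 4), (.gen 2 15 19, 15), (.six 15 27 30 18 26 28, 9),
     (.six 3 9 24 21 21 30, 3), (.gen 15 28 29, 7), (.six 4 5 27 17 26 29, 5),
     (.six 5 15 16 22 23 27, 13), (.six 5 11 20 20 23 29, 11)]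
    [.dist 2 3, .dist 2 4] = true := by
  decide +kernel

theorem cert_36_19 : certB 36 19 2
    [(2, 2, 32), (4, 33, 35), (6, 31, 35)]
    [(1, 1, 34)]
    [1, 5, 7]
    [0, 1, 2, 3, 4, 5, 6, 7, 8, 9, 10, -25, 12, -23, 14, 15, -20, 17, -18]
    [(.gen 1 1 34, 2), (.gen 2 2 32, 4), (.gen 4 33 35, 3), (.six 1 1 34 6 33 33, 6),
     (.gen 6 31 35, 5), (.six 1 7 28 31 33 8, 7), (.six 1 5 30 3 7 26, 10),
     (.six 5 5 26 7 7 22, 14), (.six 4 12 20 26 30 16, 12), (.six 4 7 25 22 24 26, 11),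
     (.six 4 7 25 22 22 28, 8), (.six 6 32 34 8 10 18, 18), (.six 6 10 20 18 22 32, 16),
     (.six 3 12 21 20 22 30, 15), (.six 7 14 15 9 11 16, 9), (.six 5 14 17 16 27 29, 17),
     (.six 3 7 26 19 23 30, 13)]
    [.dist 2 1] = true := by
  decide +kernel

theorem cert_36_23 : certB 36 23 6
    []
    [(5, 5, 26)]
    []
    [0, 1, 2, 3, -32, 5, -138, -29, -64, 9, 10, 47, -24, 13, 50, 15, 124, 17, 54]
    [(.six 1 1 34 1 33 2, 3), (.six 3 3 30 3 27 6, 9), (.six 1 5 30 33 33 6, 5),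
     (.six 4 5 27 13 27 32, 13), (.six 2 3 31 15 23 34, 15), (.six 1 2 33 17 21 34, 17),
     (.six 11 19 6 21 21 30, 11), (.six 3 4 29 15 25 32, 7), (.gen 5 5 26, 10),
     (.six 18 27 27 23 23 26, 18), (.six 18 27 27 23 24 25, 12), (.six 18 27 27 22 24 26, 14),
     (.six 18 27 27 22 22 28, 8), (.six 18 27 27 20 24 28, 16), (.six 18 27 27 20 22 30, 6),
     (.six 18 24 30 20 20 32, 4), (.six 18 22 32 19 19 34, 2)]
    [.dist 2 1] = true := by
  decide +kernel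

theorem cert_36_25 : certB 36 25 3
    [(2, 35, 35), (6, 32, 34)]
    []
    [1, 5]
    [0, 1, 2, 3, 4, 5, 6, 7, -64, 81, 46, -61, 48, 13, 14, 15, 16, -55, -18]
    [(.six 1 1 34 1 33 2, 3), (.gen 2 35 35, 2), (.six 2 2 32 2 30 4, 6), (.gen 6 32 34, 4),
     (.six 1 4 31 4 34 34, 5), (.six 1 1 34 7 31 34, 7), (.six 1 5 30 7 23 6, 13),
     (.six 2 13 21 13 29 30, 15), (.six 1 14 21 13 29 30, 14), (.six 2 4 30 4 14 18, 18),
     (.six 2 4 30 2 16 18, 16), (.six 3 12 21 20 22 30, 12), (.six 3 9 24 21 21 30, 9),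
     (.six 4 11 21 5 9 22, 11), (.six 2 13 21 17 25 30, 17), (.six 15 25 32 19 26 27, 10),
     (.six 15 28 29 19 26 27, 8)]
    [.dist 2 1] = true := by
  decide +kernel

theorem cert_36_29 : certB 36 29 6
    [(2, 35, 35)]
    [(7, 13, 16)]
    [1]
    [0, 1, 2, 3, 220, -31, 6, 43, 80, -63, 10, 11, -24, 49, -22, -21, -92, 17, 18]
    [(.six 1 1 34 1 33 2, 3), (.gen 2 35 35, 2), (.six 2 2 32 2 30 4, 6),
     (.six 2 10 24 30 30 12, 10), (.six 3 34 35 11 26 35, 11), (.six 3 34 35 21 25 26, 15),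
     (.six 17 25 30 21 25 26, 17), (.six 5 10 21 17 25 30, 5), (.six 1 4 31 17 23 32, 13),
     (.six 5 10 21 13 29 30, 7), (.six 17 21 34 18 25 29, 18), (.six 18 23 31 22 25 25, 14),
     (.gen 7 13 16, 16), (.six 18 26 28 20 26 26, 8), (.six 2 7 27 3 5 28, 9),
     (.six 3 9 24 21 21 30, 12), (.six 18 24 30 20 20 32, 4)]
    [.dist 2 2, .dist 2 3] = true := by
  decide +kernel

theorem cert_36_31 : certB 36 31 6
    [(1, 3, 32)]
    [(17, 27, 28)]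
    [1]
    [0, 1, -142, 3, 4, 5, 42, 7, 8, -27, 46, 11, 12, 13, -22, -21, 16, -19, -18]
    [(.six 1 1 34 1 33 2, 3), (.gen 1 3 32, 4), (.six 3 5 28 32 32 8, 5),
     (.six 1 4 31 8 31 33, 8), (.six 4 4 28 4 24 8, 12), (.six 1 11 24 4 4 28, 11),
     (.six 4 8 24 16 25 31, 16), (.six 5 15 16 16 28 28, 15), (.six 5 15 16 19 25 28, 17),
     (.six 5 15 16 7 12 17, 7), (.six 5 7 24 21 23 28, 13), (.gen 17 27 28, 9),
     (.six 6 9 21 24 24 24, 6), (.six 6 14 16 24 24 24, 14), (.six 18 22 32 21 23 28, 18),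
     (.six 18 22 32 19 26 27, 10), (.six 18 20 34 20 26 26, 2)]
    [.dist 2 1, .dist 2 2] = true := by
  decide +kernel

theorem cert_36_35 : certB 36 35 2
    []
    [(5, 5, 26)]
    []
    [0, 1, 2, 3, -32, 5, -138, -29, -64, 9, 10, 47, -24, 13, 50, 15, 124, 17, 54]
    [(.six 1 1 34 1 33 2, 3), (.six 3 3 30 3 27 6, 9), (.six 1 5 30 33 33 6, 5),
     (.six 4 5 27 13 27 32, 13), (.six 2 3 31 15 23 34, 15), (.six 1 2 33 17 21 34, 17),
     (.six 11 19 6 21 21 30, 11), (.six 3 4 29 15 25 32, 7), (.gen 5 5 26, 10),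
     (.six 18 27 27 23 23 26, 18), (.six 18 27 27 23 24 25, 12), (.six 18 27 27 22 24 26, 14),
     (.six 18 27 27 22 22 28, 8), (.six 18 27 27 20 24 28, 16), (.six 18 27 27 20 22 30, 6),
     (.six 18 24 30 20 20 32, 4), (.six 18 22 32 19 19 34, 2)]
    [.dist 2 1] = true := by
  decide +kernel

theorem certs_36 : ∀ p ∈ ([1, 5, 7, 11, 13, 17, 19, 23, 25, 29, 31, 35] : List ℕ), HasCert 36 p := by
  intro p hp
  simp only [List.mem_cons, List.not_mem_nil, or_false] at hp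
  rcases hp with rfl | rfl | rfl | rfl | rfl | rfl | rfl | rfl | rfl | rfl | rfl | rfl
  exacts [⟨_, _, _, _, _, _, _, cert_36_1⟩, ⟨_, _, _, _, _, _, _, cert_36_5⟩,
   ⟨_, _, _, _, _, _, _, cert_36_7⟩, ⟨_, _, _, _, _, _, _, cert_36_11⟩,
   ⟨_, _, _, _, _, _, _, cert_36_13⟩, ⟨_, _, _, _, _, _, _, cert_36_17⟩,
   ⟨_, _, _, _, _, _, _, cert_36_19⟩, ⟨_, _, _, _, _, _, _, cert_36_23⟩,
   ⟨_, _, _, _, _, _, _, cert_36_25⟩, ⟨_, _, _, _, _, _, _, cert_36_29⟩,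
   ⟨_, _, _, _, _, _, _, cert_36_31⟩, ⟨_, _, _, _, _, _, _, cert_36_35⟩]

end Pool.Agent.FermAll
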