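import Pool.Agent.FermAll.CertP

/-!
# Certificates for the degrees 39
-/

set_option autoImplicit false

namespace Pool.Agent.FermAll

theorem cert_39_1 : certB 39 1 1
    [(1, 1, 37), (3, 37, 38), (1, 3, 35), (5, 36, 37), (3, 3, 33), (7, 35, 36), (11, 33, 34),
     (7, 7, 25), (19, 24, 35), (18, 23, 37), (4, 13, 22), (8, 12, 19)]
    []
    [1, 2, 4, 5, 7, 8, 10, 11, 14, 16, 17, 19]
    [0, 1, 2, 3, 4, 5, 6, 7, 8, 9, 10, 11, 12, 13, 14, 15, 16, 17, 18, 19]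
    [(.gen 1 1 37, 2), (.gen 3 37 38, 3), (.gen 1 3 35, 4), (.gen 5 36 37, 5), (.gen 3 3 33, 6),
     (.gen 7 35 36, 7), (.gen 11 33 34, 11), (.dist 3 2, 15), (.gen 7 7 25, 14),
     (.six 2 5 32 14 29 35, 10), (.dist 3 1, 12), (.gen 19 24 35, 19), (.dist 3 6, 18),
     (.dist 3 5, 8), (.gen 18 23 37, 16), (.six 1 16 22 19 28 31, 17), (.dist 3 3, 9),
     (.gen 4 13 22, 13)]
    [.gen 8 12 19] = true := by
  decide +kernel

theorem cert_39_2 : certB 39 2 12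
    [(1, 1, 37)]
    [(10, 33, 35)]
    [1]
    [0, 1, 2, 81, 4, 5, 6, 7, 8, -69, 10, -28, 51, 52, 14, 15, -23, -22, 18, -20]
    [(.gen 1 1 37, 2), (.six 1 1 37 4 37 37, 4), (.six 1 1 37 8 35 35, 8),
     (.six 1 1 37 10 31 37, 10), (.six 1 4 34 4 37 37, 5), (.six 8 32 38 10 34 34, 7),
     (.six 2 5 32 14 29 35, 14), (.six 7 7 25 25 25 28, 11), (.six 4 10 25 19 28 31, 19),
     (.six 8 14 17 10 10 19, 17), (.six 1 16 22 19 28 31, 16), (.gen 10 33 35, 6),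
     (.six 6 14 19 22 24 32, 15), (.six 7 15 17 10 11 18, 18), (.six 7 14 18 9 10 20, 9),
     (.six 7 13 19 8 9 22, 13), (.six 3 17 19 5 8 26, 3), (.six 3 17 19 4 8 27, 12)]
    [.dist 3 1, .dist 3 2] = true := by
  decide +kernel

theorem cert_39_4 : certB 39 4 6
    [(1, 1, 37), (13, 28, 37)]
    [(9, 14, 16)]
    [1, 2]
    [0, 1, 2, 3, 4, 5, 45, 7, 8, 9, 10, -28, -27, -26, 14, -24, -23, -22, 57, -20]
    [(.gen 1 1 37, 2), (.six 1 1 37 4 37 37, 4), (.six 1 1 37 8 35 35, 8),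
     (.six 1 1 37 10 31 37, 10), (.six 1 4 34 4 37 37, 5), (.six 8 32 38 10 34 34, 7),
     (.six 2 5 32 14 29 35, 14), (.six 7 7 25 25 25 28, 11), (.six 4 10 25 19 28 31, 19),
     (.six 8 14 17 10 10 19, 17), (.six 1 16 22 19 28 31, 16), (.gen 9 14 16, 9),
     (.six 7 15 17 9 10 20, 15), (.six 7 15 17 10 11 18, 18), (.six 6 14 19 8 10 21, 6),
     (.six 3 17 19 6 8 25, 3), (.six 3 17 19 4 8 27, 12), (.gen 13 28 37, 13)]
    [.dist 3 1] = true := by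
  decide +kernel

theorem cert_39_7 : certB 39 7 12
    [(11, 13, 15)]
    [(1, 1, 37)]
    [1]
    [0, 1, -349, 3, -1361, 5, -345, 7, 437, 9, 361, -145, 207, 598, 53, -453, -23, 251, 57, -761]
    [(.six 1 1 37 1 36 2, 3), (.six 1 5 33 36 36 6, 5), (.six 1 7 31 34 36 8, 7),
     (.six 1 9 29 32 36 10, 9), (.six 7 7 25 9 16 14, 16), (.six 7 16 16 18 30 30, 18),
     (.six 9 9 21 9 14 16, 14), (.six 9 14 16 11 14 14, 11), (.six 11 12 16 11 14 14, 12),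
     (.six 11 14 14 24 27 27, 15), (.six 11 11 17 24 27 27, 17), (.six 10 14 15 22 28 28, 10),
     (.six 10 10 19 25 25 28, 19), (.six 8 15 16 20 29 29, 8), (.six 6 16 17 20 27 31, 6),
     (.six 4 17 18 20 25 33, 4), (.six 2 18 19 19 24 35, 2), (.gen 11 13 15, 13)]
    [.dist 3 1, .dist 3 3, .gen 1 1 37] = true := by
  decide +kernel

theorem cert_39_10 : certB 39 10 6
    [(1, 1, 37), (13, 28, 37)]
    [(9, 14, 16)]
    [1, 2]
    [0, 1, 2, 3, 4, 5, 45, 7, 8, 9, 10, -28, -27, -26, 14, -24, -23, -22, 57, -20]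
    [(.gen 1 1 37, 2), (.six 1 1 37 4 37 37, 4), (.six 1 1 37 8 35 35, 8),
     (.six 1 1 37 10 31 37, 10), (.six 1 4 34 4 37 37, 5), (.six 8 32 38 10 34 34, 7),
     (.six 2 5 32 14 29 35, 14), (.six 7 7 25 25 25 28, 11), (.six 4 10 25 19 28 31, 19),
     (.six 8 14 17 10 10 19, 17), (.six 1 16 22 19 28 31, 16), (.gen 9 14 16, 9),
     (.six 7 15 17 9 10 20, 15), (.six 7 15 17 10 11 18, 18), (.six 6 14 19 8 10 21, 6),
     (.six 3 17 19 6 8 25, 3), (.six 3 17 19 4 8 27, 12), (.gen 13 28 37, 13)]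
    [.dist 3 1] = true := by
  decide +kernel

theorem cert_39_11 : certB 39 11 12
    [(1, 1, 37)]
    [(10, 33, 35)]
    [1]
    [0, 1, 2, 81, 4, 5, 6, 7, 8, -69, 10, -28, 51, 52, 14, 15, -23, -22, 18, -20]
    [(.gen 1 1 37, 2), (.six 1 1 37 4 37 37, 4), (.six 1 1 37 8 35 35, 8),
     (.six 1 1 37 10 31 37, 10), (.six 1 4 34 4 37 37, 5), (.six 8 32 38 10 34 34, 7),
     (.six 2 5 32 14 29 35, 14), (.six 7 7 25 25 25 28, 11), (.six 4 10 25 19 28 31, 19),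
     (.six 8 14 17 10 10 19, 17), (.six 1 16 22 19 28 31, 16), (.gen 10 33 35, 6),
     (.six 6 14 19 22 24 32, 15), (.six 7 15 17 10 11 18, 18), (.six 7 14 18 9 10 20, 9),
     (.six 7 13 19 8 9 22, 13), (.six 3 17 19 5 8 26, 3), (.six 3 17 19 4 8 27, 12)]
    [.dist 3 1, .dist 3 2] = true := by
  decide +kernel

theorem cert_39_14 : certB 39 14 2
    [(1, 1, 37), (1, 2, 36), (6, 36, 36), (1, 5, 33), (8, 33, 37), (22, 28, 28)]
    [(2, 5, 32)]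
    [1, 2, 4, 5, 7, 10]
    [0, 1, 2, 3, -35, 5, 6, 7, 8, -69, 88, 11, 12, 13, 14, -24, -101, -22, -21, -20]
    [(.gen 1 1 37, 2), (.gen 1 2 36, 3), (.gen 6 36 36, 6), (.gen 1 5 33, 5), (.gen 2 5 32, 7),
     (.gen 8 33 37, 8), (.six 1 5 33 8 25 6, 14), (.six 1 6 32 21 25 32, 18),
     (.six 1 13 25 7 34 37, 13), (.six 2 11 26 31 34 13, 11), (.six 8 11 20 26 26 26, 19),
     (.six 1 2 36 1 11 27, 12), (.dist 3 5, 15), (.gen 22 28 28, 17), (.six 2 4 33 11 22 6, 4),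
     (.six 4 5 30 4 8 27, 9), (.six 4 10 25 26 26 26, 10), (.six 8 10 21 8 15 16, 16)]
    [.dist 3 2] = true := by
  decide +kernel

theorem cert_39_16 : certB 39 16 3
    [(1, 1, 37), (10, 32, 36), (8, 33, 37), (23, 26, 29)]
    []
    [1, 2, 4, 8]
    [0, 1, 2, 3, 4, 5, 6, 7, 8, -69, 10, -28, 90, 13, 14, 15, -23, -22, 18, -20]
    [(.gen 1 1 37, 2), (.six 1 1 37 4 37 37, 4), (.six 1 5 33 35 37 6, 5),
     (.six 1 1 37 10 34 34, 10), (.six 2 8 29 34 34 10, 8), (.six 1 7 31 2 2 35, 7),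
     (.six 2 5 32 14 29 35, 14), (.six 7 7 25 25 25 28, 11), (.six 4 10 25 19 28 31, 19),
     (.six 8 14 17 10 10 19, 17), (.six 1 16 22 19 28 31, 16), (.gen 10 32 36, 3),
     (.six 3 17 19 16 30 32, 9), (.six 2 7 30 20 27 31, 12), (.gen 8 33 37, 6),
     (.six 6 14 19 22 24 32, 15), (.six 7 15 17 8 10 21, 18), (.gen 23 26 29, 13)]
    [.dist 3 1, .dist 3 2] = true := by
  decide +kernel

theorem cert_39_17 : certB 39 17 6
    []
    [(1, 1, 37)]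
    []
    [0, 1, 1523, 3, 2383, 5, 1995, 7, 1139, 9, 127, 1259, -27, 247, -259, 93, -491, -139, -21,
     487]
    [(.six 1 1 37 1 36 2, 3), (.six 1 5 33 36 36 6, 5), (.six 1 7 31 34 36 8, 7),
     (.six 1 1 37 7 30 2, 9), (.six 9 9 21 9 12 18, 12), (.six 5 7 27 24 27 27, 15),
     (.six 9 12 18 12 12 15, 18), (.six 7 15 17 21 27 30, 17), (.six 10 12 17 12 12 15, 10),
     (.six 10 14 15 12 12 15, 14), (.six 12 12 15 12 13 14, 13), (.six 11 14 14 26 26 26, 11),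
     (.six 11 12 16 26 26 26, 16), (.six 10 10 19 23 27 28, 19), (.six 8 15 16 20 29 29, 8),
     (.six 6 16 17 21 26 31, 6), (.six 4 17 18 20 25 33, 4), (.six 2 18 19 19 24 35, 2)]
    [.dist 3 1, .dist 3 3, .gen 1 1 37] = true := by
  decide +kernel

theorem cert_39_19 : certB 39 19 12
    [(11, 13, 15)]
    [(1, 1, 37)]
    [1]
    [0, 1, -349, 3, -1361, 5, -345, 7, 437, 9, 361, -145, 207, 598, 53, -453, -23, 251, 57, -761]
    [(.six 1 1 37 1 36 2, 3), (.six 1 5 33 36 36 6, 5), (.six 1 7 31 34 36 8, 7),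
     (.six 1 9 29 32 36 10, 9), (.six 7 7 25 9 16 14, 16), (.six 7 16 16 18 30 30, 18),
     (.six 9 9 21 9 14 16, 14), (.six 9 14 16 11 14 14, 11), (.six 11 12 16 11 14 14, 12),
     (.six 11 14 14 24 27 27, 15), (.six 11 11 17 24 27 27, 17), (.six 10 14 15 22 28 28, 10),
     (.six 10 10 19 25 25 28, 19), (.six 8 15 16 20 29 29, 8), (.six 6 16 17 20 27 31, 6),
     (.six 4 17 18 20 25 33, 4), (.six 2 18 19 19 24 35, 2), (.gen 11 13 15, 13)]
    [.dist 3 1, .dist 3 3, .gen 1 1 37] = true := by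
  decide +kernel

theorem cert_39_20 : certB 39 20 12
    [(1, 1, 37)]
    [(10, 33, 35)]
    [1]
    [0, 1, 2, 81, 4, 5, 6, 7, 8, -69, 10, -28, 51, 52, 14, 15, -23, -22, 18, -20]
    [(.gen 1 1 37, 2), (.six 1 1 37 4 37 37, 4), (.six 1 1 37 8 35 35, 8),
     (.six 1 1 37 10 31 37, 10), (.six 1 4 34 4 37 37, 5), (.six 8 32 38 10 34 34, 7),
     (.six 2 5 32 14 29 35, 14), (.six 7 7 25 25 25 28, 11), (.six 4 10 25 19 28 31, 19),
     (.six 8 14 17 10 10 19, 17), (.six 1 16 22 19 28 31, 16), (.gen 10 33 35, 6),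
     (.six 6 14 19 22 24 32, 15), (.six 7 15 17 10 11 18, 18), (.six 7 14 18 9 10 20, 9),
     (.six 7 13 19 8 9 22, 13), (.six 3 17 19 5 8 26, 3), (.six 3 17 19 4 8 27, 12)]
    [.dist 3 1, .dist 3 2] = true := by
  decide +kernel

theorem cert_39_22 : certB 39 22 3
    [(1, 1, 37), (10, 32, 36), (8, 33, 37), (23, 26, 29)]
    []
    [1, 2, 4, 8]
    [0, 1, 2, 3, 4, 5, 6, 7, 8, -69, 10, -28, 90, 13, 14, 15, -23, -22, 18, -20]
    [(.gen 1 1 37, 2), (.six 1 1 37 4 37 37, 4), (.six 1 5 33 35 37 6, 5),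
     (.six 1 1 37 10 34 34, 10), (.six 2 8 29 34 34 10, 8), (.six 1 7 31 2 2 35, 7),
     (.six 2 5 32 14 29 35, 14), (.six 7 7 25 25 25 28, 11), (.six 4 10 25 19 28 31, 19),
     (.six 8 14 17 10 10 19, 17), (.six 1 16 22 19 28 31, 16), (.gen 10 32 36, 3),
     (.six 3 17 19 16 30 32, 9), (.six 2 7 30 20 27 31, 12), (.gen 8 33 37, 6),
     (.six 6 14 19 22 24 32, 15), (.six 7 15 17 8 10 21, 18), (.gen 23 26 29, 13)]
    [.dist 3 1, .dist 3 2] = true := by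
  decide +kernel

theorem cert_39_23 : certB 39 23 6
    []
    [(1, 1, 37)]
    []
    [0, 1, 1523, 3, 2383, 5, 1995, 7, 1139, 9, 127, 1259, -27, 247, -259, 93, -491, -139, -21,
     487]
    [(.six 1 1 37 1 36 2, 3), (.six 1 5 33 36 36 6, 5), (.six 1 7 31 34 36 8, 7),
     (.six 1 1 37 7 30 2, 9), (.six 9 9 21 9 12 18, 12), (.six 5 7 27 24 27 27, 15),
     (.six 9 12 18 12 12 15, 18), (.six 7 15 17 21 27 30, 17), (.six 10 12 17 12 12 15, 10),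
     (.six 10 14 15 12 12 15, 14), (.six 12 12 15 12 13 14, 13), (.six 11 14 14 26 26 26, 11),
     (.six 11 12 16 26 26 26, 16), (.six 10 10 19 23 27 28, 19), (.six 8 15 16 20 29 29, 8),
     (.six 6 16 17 21 26 31, 6), (.six 4 17 18 20 25 33, 4), (.six 2 18 19 19 24 35, 2)]
    [.dist 3 1, .dist 3 3, .gen 1 1 37] = true := by
  decide +kernel

theorem cert_39_25 : certB 39 25 2
    [(1, 1, 37), (2, 2, 35), (4, 36, 38), (22, 27, 29), (7, 11, 21), (16, 26, 36)]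
    [(1, 14, 24)]
    [1, 2, 4, 5, 7, 10]
    [0, 1, 2, 3, 4, -385, -33, -461, -733, 9, 439, 440, -183, 130, -337, 93, 133, -256, -21,
     -1073]
    [(.gen 1 1 37, 2), (.gen 2 2 35, 4), (.gen 4 36 38, 3), (.six 3 3 33 3 30 6, 9),
     (.six 3 9 27 9 18 12, 18), (.six 3 6 30 9 21 9, 6), (.six 6 15 18 18 30 30, 15),
     (.six 9 12 18 9 15 15, 12), (.six 4 17 18 24 27 27, 17), (.six 2 15 22 15 28 35, 11),
     (.six 1 14 24 11 30 37, 14), (.gen 22 27 29, 10), (.six 4 17 18 6 10 23, 16),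
     (.gen 7 11 21, 7), (.six 7 16 16 20 29 29, 19), (.six 4 10 25 19 28 31, 8),
     (.six 5 16 18 18 29 31, 5), (.gen 16 26 36, 13)]
    [.dist 3 1, .dist 3 4, .gen 1 14 24] = true := by
  decide +kernel

theorem cert_39_28 : certB 39 28 12
    [(11, 13, 15)]
    [(1, 1, 37)]
    [1]
    [0, 1, -349, 3, -1361, 5, -345, 7, 437, 9, 361, -145, 207, 598, 53, -453, -23, 251, 57, -761]
    [(.six 1 1 37 1 36 2, 3), (.six 1 5 33 36 36 6, 5), (.six 1 7 31 34 36 8, 7),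
     (.six 1 9 29 32 36 10, 9), (.six 7 7 25 9 16 14, 16), (.six 7 16 16 18 30 30, 18),
     (.six 9 9 21 9 14 16, 14), (.six 9 14 16 11 14 14, 11), (.six 11 12 16 11 14 14, 12),
     (.six 11 14 14 24 27 27, 15), (.six 11 11 17 24 27 27, 17), (.six 10 14 15 22 28 28, 10),
     (.six 10 10 19 25 25 28, 19), (.six 8 15 16 20 29 29, 8), (.six 6 16 17 20 27 31, 6),
     (.six 4 17 18 20 25 33, 4), (.six 2 18 19 19 24 35, 2), (.gen 11 13 15, 13)]
    [.dist 3 1, .dist 3 3, .gen 1 1 37] = true := by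
  decide +kernel

theorem cert_39_29 : certB 39 29 6
    [(5, 9, 25), (11, 13, 15)]
    [(1, 1, 37)]
    [1, 2]
    [0, 1, 2, 42, 4, -112, -189, 7, -70, 126, 49, -28, -105, 91, 14, -63, -140, 56, -21, -98]
    [(.gen 1 1 37, 2), (.six 1 1 37 2 35 2, 4), (.six 1 2 36 4 32 3, 7),
     (.six 2 2 35 14 32 32, 14), (.six 7 7 25 25 25 28, 11), (.six 11 11 17 11 14 14, 17),
     (.six 8 14 17 11 14 14, 8), (.six 8 11 20 11 14 14, 19), (.six 8 8 23 8 11 20, 16),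
     (.six 7 13 19 16 31 31, 13), (.six 10 13 16 25 25 28, 10), (.six 5 17 17 23 26 29, 5),
     (.gen 5 9 25, 9), (.six 9 14 16 10 12 17, 12), (.six 3 17 19 12 32 34, 3),
     (.gen 11 13 15, 15), (.six 9 9 21 12 12 15, 18), (.six 3 3 33 18 30 30, 6)]
    [.dist 3 1, .dist 3 3] = true := by
  decide +kernel

theorem cert_39_31 : certB 39 31 4
    [(1, 1, 37), (1, 2, 36), (13, 30, 35)]
    [(1, 5, 33)]
    [1, 2, 4]
    [0, 1, 2, 3, -152, 5, -111, 46, 125, 9, 10, -184, -27, -143, 53, 15, 16, -100, 57, 58]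
    [(.gen 1 1 37, 2), (.gen 1 2 36, 3), (.six 3 3 33 3 30 6, 9), (.six 9 9 21 9 12 18, 12),
     (.six 1 3 35 5 30 4, 5), (.six 3 9 27 5 9 25, 14), (.six 5 9 25 24 27 27, 15),
     (.six 9 12 18 12 12 15, 18), (.six 6 15 18 18 30 30, 6), (.six 6 8 25 24 27 27, 8),
     (.six 2 16 21 14 31 33, 16), (.six 8 10 21 23 25 30, 10), (.six 9 14 16 20 29 29, 19),
     (.six 8 14 17 20 29 29, 17), (.six 7 16 16 22 25 31, 7), (.six 5 6 28 23 23 32, 11),
     (.six 4 16 19 25 25 28, 4), (.gen 13 30 35, 13)]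
    [.dist 3 1, .gen 1 5 33] = true := by
  decide +kernel

theorem cert_39_32 : certB 39 32 12
    [(1, 1, 37)]
    [(10, 33, 35)]
    [1]
    [0, 1, 2, 81, 4, 5, 6, 7, 8, -69, 10, -28, 51, 52, 14, 15, -23, -22, 18, -20]
    [(.gen 1 1 37, 2), (.six 1 1 37 4 37 37, 4), (.six 1 1 37 8 35 35, 8),
     (.six 1 1 37 10 31 37, 10), (.six 1 4 34 4 37 37, 5), (.six 8 32 38 10 34 34, 7),
     (.six 2 5 32 14 29 35, 14), (.six 7 7 25 25 25 28, 11), (.six 4 10 25 19 28 31, 19),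
     (.six 8 14 17 10 10 19, 17), (.six 1 16 22 19 28 31, 16), (.gen 10 33 35, 6),
     (.six 6 14 19 22 24 32, 15), (.six 7 15 17 10 11 18, 18), (.six 7 14 18 9 10 20, 9),
     (.six 7 13 19 8 9 22, 13), (.six 3 17 19 5 8 26, 3), (.six 3 17 19 4 8 27, 12)]
    [.dist 3 1, .dist 3 2] = true := by
  decide +kernel

theorem cert_39_34 : certB 39 34 4
    [(1, 1, 37), (1, 2, 36), (13, 30, 35)]
    [(1, 5, 33)]
    [1, 2, 4]
    [0, 1, 2, 3, -152, 5, -111, 46, 125, 9, 10, -184, -27, -143, 53, 15, 16, -100, 57, 58]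
    [(.gen 1 1 37, 2), (.gen 1 2 36, 3), (.six 3 3 33 3 30 6, 9), (.six 9 9 21 9 12 18, 12),
     (.six 1 3 35 5 30 4, 5), (.six 3 9 27 5 9 25, 14), (.six 5 9 25 24 27 27, 15),
     (.six 9 12 18 12 12 15, 18), (.six 6 15 18 18 30 30, 6), (.six 6 8 25 24 27 27, 8),
     (.six 2 16 21 14 31 33, 16), (.six 8 10 21 23 25 30, 10), (.six 9 14 16 20 29 29, 19),
     (.six 8 14 17 20 29 29, 17), (.six 7 16 16 22 25 31, 7), (.six 5 6 28 23 23 32, 11),
     (.six 4 16 19 25 25 28, 4), (.gen 13 30 35, 13)]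
    [.dist 3 1, .gen 1 5 33] = true := by
  decide +kernel

theorem cert_39_35 : certB 39 35 6
    [(5, 9, 25), (11, 13, 15)]
    [(1, 1, 37)]
    [1, 2]
    [0, 1, 2, 42, 4, -112, -189, 7, -70, 126, 49, -28, -105, 91, 14, -63, -140, 56, -21, -98]
    [(.gen 1 1 37, 2), (.six 1 1 37 2 35 2, 4), (.six 1 2 36 4 32 3, 7),
     (.six 2 2 35 14 32 32, 14), (.six 7 7 25 25 25 28, 11), (.six 11 11 17 11 14 14, 17),
     (.six 8 14 17 11 14 14, 8), (.six 8 11 20 11 14 14, 19), (.six 8 8 23 8 11 20, 16),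
     (.six 7 13 19 16 31 31, 13), (.six 10 13 16 25 25 28, 10), (.six 5 17 17 23 26 29, 5),
     (.gen 5 9 25, 9), (.six 9 14 16 10 12 17, 12), (.six 3 17 19 12 32 34, 3),
     (.gen 11 13 15, 15), (.six 9 9 21 12 12 15, 18), (.six 3 3 33 18 30 30, 6)]
    [.dist 3 1, .dist 3 3] = true := by
  decide +kernel

theorem cert_39_37 : certB 39 37 12
    [(11, 13, 15)]
    [(1, 1, 37)]
    [1]
    [0, 1, -349, 3, -1361, 5, -345, 7, 437, 9, 361, -145, 207, 598, 53, -453, -23, 251, 57, -761]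
    [(.six 1 1 37 1 36 2, 3), (.six 1 5 33 36 36 6, 5), (.six 1 7 31 34 36 8, 7),
     (.six 1 9 29 32 36 10, 9), (.six 7 7 25 9 16 14, 16), (.six 7 16 16 18 30 30, 18),
     (.six 9 9 21 9 14 16, 14), (.six 9 14 16 11 14 14, 11), (.six 11 12 16 11 14 14, 12),
     (.six 11 14 14 24 27 27, 15), (.six 11 11 17 24 27 27, 17), (.six 10 14 15 22 28 28, 10),
     (.six 10 10 19 25 25 28, 19), (.six 8 15 16 20 29 29, 8), (.six 6 16 17 20 27 31, 6),
     (.six 4 17 18 20 25 33, 4), (.six 2 18 19 19 24 35, 2), (.gen 11 13 15, 13)]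
    [.dist 3 1, .dist 3 3, .gen 1 1 37] = true := by
  decide +kernel

theorem cert_39_38 : certB 39 38 2
    []
    [(1, 1, 37)]
    []
    [0, 1, 1523, 3, 2383, 5, 1995, 7, 1139, 9, 127, 1259, -27, 247, -259, 93, -491, -139, -21,
     487]
    [(.six 1 1 37 1 36 2, 3), (.six 1 5 33 36 36 6, 5), (.six 1 7 31 34 36 8, 7),
     (.six 1 1 37 7 30 2, 9), (.six 9 9 21 9 12 18, 12), (.six 5 7 27 24 27 27, 15),
     (.six 9 12 18 12 12 15, 18), (.six 7 15 17 21 27 30, 17), (.six 10 12 17 12 12 15, 10),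
     (.six 10 14 15 12 12 15, 14), (.six 12 12 15 12 13 14, 13), (.six 11 14 14 26 26 26, 11),
     (.six 11 12 16 26 26 26, 16), (.six 10 10 19 23 27 28, 19), (.six 8 15 16 20 29 29, 8),
     (.six 6 16 17 21 26 31, 6), (.six 4 17 18 20 25 33, 4), (.six 2 18 19 19 24 35, 2)]
    [.dist 3 1, .dist 3 3, .gen 1 1 37] = true := by
  decide +kernel

theorem certs_39 : ∀ p ∈ ([1, 2, 4, 7, 10, 11, 14, 16, 17, 19, 20, 22, 23, 25, 28, 29, 31, 32, 34, 35, 37, 38] : List ℕ), HasCert 39 p := by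
  intro p hp
  simp only [List.mem_cons, List.not_mem_nil, or_false] at hp
  rcases hp with rfl | rfl | rfl | rfl | rfl | rfl | rfl | rfl | rfl | rfl | rfl | rfl | rfl | rfl | rfl | rfl | rfl | rfl | rfl | rfl | rfl | rfl
  exacts [⟨_, _, _, _, _, _, _, cert_39_1⟩, ⟨_, _, _, _, _, _, _, cert_39_2⟩,
   ⟨_, _, _, _, _, _, _, cert_39_4⟩, ⟨_, _, _, _, _, _, _, cert_39_7⟩,
   ⟨_, _, _, _, _, _, _, cert_39_10⟩, ⟨_, _, _, _, _, _, _, cert_39_11⟩,
   ⟨_, _, _, _, _, _, _, cert_39_14⟩, ⟨_, _, _, _, _, _, _, cert_39_16⟩,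
   ⟨_, _, _, _, _, _, _, cert_39_17⟩, ⟨_, _, _, _, _, _, _, cert_39_19⟩,
   ⟨_, _, _, _, _, _, _, cert_39_20⟩, ⟨_, _, _, _, _, _, _, cert_39_22⟩,
   ⟨_, _, _, _, _, _, _, cert_39_23⟩, ⟨_, _, _, _, _, _, _, cert_39_25⟩,
   ⟨_, _, _, _, _, _, _, cert_39_28⟩, ⟨_, _, _, _, _, _, _, cert_39_29⟩,
   ⟨_, _, _, _, _, _, _, cert_39_31⟩, ⟨_, _, _, _, _, _, _, cert_39_32⟩,
   ⟨_, _, _, _, _, _, _, cert_39_34⟩, ⟨_, _, _, _, _, _, _, cert_39_35⟩,
   ⟨_, _, _, _, _, _, _, cert_39_37⟩, ⟨_, _, _, _, _, _, _, cert_39_38⟩]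

end Pool.Agent.FermAll
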