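import Pool.Agent.FermAll.CertP

/-!
# Certificates for the degrees 42
-/

set_option autoImplicit false

namespace Pool.Agent.FermAll

theorem cert_42_1 : certB 42 1 1
    [(1, 1, 40), (3, 40, 41), (5, 39, 40), (6, 8, 28), (14, 32, 38), (19, 31, 34)]
    []
    [1, 5, 11, 13, 17, 19]
    [0, 1, 2, 3, 4, 5, 6, 49, 8, -33, 10, 11, -30, 13, 14, 15, 16, -25, 18, 19, -22, 21]
    [(.gen 1 1 40, 2), (.gen 3 40 41, 3), (.gen 5 39 40, 5), (.six 2 5 35 38 39 7, 4),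
     (.six 1 6 35 37 40 7, 6), (.six 1 2 39 8 38 38, 8), (.gen 6 8 28, 14), (.gen 14 32 38, 10),
     (.six 1 11 30 32 40 12, 11), (.six 3 13 26 31 37 16, 13), (.six 1 4 37 15 29 40, 15),
     (.gen 19 31 34, 19), (.six 6 11 25 23 27 34, 17), (.six 3 40 41 4 17 21, 21),
     (.six 3 17 22 21 23 40, 20), (.six 5 15 22 12 36 36, 12), (.six 6 6 30 26 27 31, 16),
     (.six 3 6 33 26 27 31, 9), (.six 9 16 17 24 30 30, 18), (.dist 2 14, 7)]
    [.dist 2 1] = true := by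
  decide +kernel

theorem cert_42_5 : certB 42 5 6
    []
    [(19, 24, 41)]
    []
    [0, 1, -208, 3, 130, 5, -78, -35, -34, 9, -32, 11, -72, 13, 14, -27, 58, 17, -24, -23, 20,
     -21]
    [(.six 1 1 40 1 39 2, 3), (.six 3 3 36 3 33 6, 9), (.six 1 5 36 39 39 6, 5),
     (.six 5 13 24 33 33 18, 13), (.six 13 13 16 21 37 26, 21), (.six 13 17 12 21 33 30, 17),
     (.six 3 25 14 27 29 28, 15), (.six 17 19 6 21 27 36, 19), (.six 11 23 8 25 25 34, 11),
     (.six 7 23 12 23 31 30, 7), (.gen 19 24 41, 18), (.six 21 31 32 24 29 31, 10),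
     (.six 21 31 32 27 28 29, 14), (.six 21 30 33 28 28 28, 12), (.six 21 31 32 26 28 30, 16),
     (.six 21 31 32 24 26 34, 8), (.six 21 31 32 22 28 34, 20), (.six 21 31 32 22 26 36, 6),
     (.six 21 27 36 23 23 38, 4), (.six 21 25 38 22 22 40, 2)]
    [.dist 2 1, .dist 2 3, .dist 2 4] = true := by
  decide +kernel

theorem cert_42_11 : certB 42 11 6
    [(2, 15, 25)]
    [(14, 33, 37)]
    [1]
    [0, 1, 44, 3, 1054, 5, 258, 7, 1394, 177, 220, -31, -114, 223, 182, 15, -530, 59, -192, -23,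
     188, 105]
    [(.six 1 1 40 1 39 2, 3), (.six 1 5 36 39 39 6, 5), (.six 5 5 32 5 27 10, 15),
     (.six 3 5 34 7 27 8, 7), (.six 7 23 12 27 27 30, 19), (.six 11 23 8 23 27 34, 11),
     (.six 5 23 14 25 31 28, 17), (.six 19 19 4 21 25 38, 21), (.six 17 17 8 21 29 34, 13),
     (.six 9 23 10 23 29 32, 9), (.gen 2 15 25, 2), (.six 21 22 41 21 23 40, 20),
     (.six 21 22 41 27 27 30, 12), (.six 21 31 32 27 27 30, 10), (.six 21 31 32 26 29 29, 16),
     (.six 21 31 32 22 26 36, 6), (.six 21 24 39 23 25 36, 18), (.six 4 16 22 18 30 36, 4),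
     (.six 4 6 32 20 30 34, 8), (.gen 14 33 37, 14)]
    [.dist 2 1, .dist 2 3] = true := by
  decide +kernel

theorem cert_42_13 : certB 42 13 2
    [(2, 41, 41), (3, 40, 41), (13, 14, 15)]
    [(4, 39, 41)]
    [1, 5, 11]
    [0, 1, 2, 3, 4, 5, 6, -161, 50, 9, 10, -31, 96, -29, -70, 99, 100, 17, 18, -65, 20, -21]
    [(.gen 2 41 41, 2), (.gen 3 40 41, 3), (.six 3 3 36 3 33 6, 9), (.six 3 9 30 9 21 12, 21),
     (.six 1 21 20 29 33 22, 13), (.six 2 41 41 8 13 21, 8), (.six 1 12 29 20 30 34, 20),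
     (.six 13 13 16 21 22 41, 16), (.six 2 16 24 27 39 18, 15), (.gen 13 14 15, 14),
     (.dist 2 14, 7), (.gen 4 39 41, 4), (.six 3 40 41 4 17 21, 17),
     (.six 17 33 34 21 23 40, 19), (.six 21 26 37 23 23 38, 5), (.six 6 37 41 8 13 21, 6),
     (.six 11 36 37 21 23 40, 11), (.six 8 38 38 10 11 21, 10), (.six 2 18 22 5 5 32, 18),
     (.six 2 18 22 23 30 31, 12)]
    [.dist 2 1] = true := by
  decide +kernel

theorem cert_42_17 : certB 42 17 6
    []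
    [(19, 24, 41)]
    []
    [0, 1, -208, 3, 130, 5, -78, -35, -34, 9, -32, 11, -72, 13, 14, -27, 58, 17, -24, -23, 20,
     -21]
    [(.six 1 1 40 1 39 2, 3), (.six 3 3 36 3 33 6, 9), (.six 1 5 36 39 39 6, 5),
     (.six 5 13 24 33 33 18, 13), (.six 13 13 16 21 37 26, 21), (.six 13 17 12 21 33 30, 17),
     (.six 3 25 14 27 29 28, 15), (.six 17 19 6 21 27 36, 19), (.six 11 23 8 25 25 34, 11),
     (.six 7 23 12 23 31 30, 7), (.gen 19 24 41, 18), (.six 21 31 32 24 29 31, 10),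
     (.six 21 31 32 27 28 29, 14), (.six 21 30 33 28 28 28, 12), (.six 21 31 32 26 28 30, 16),
     (.six 21 31 32 24 26 34, 8), (.six 21 31 32 22 28 34, 20), (.six 21 31 32 22 26 36, 6),
     (.six 21 27 36 23 23 38, 4), (.six 21 25 38 22 22 40, 2)]
    [.dist 2 1, .dist 2 3, .dist 2 4] = true := by
  decide +kernel

theorem cert_42_19 : certB 42 19 6
    [(1, 13, 28)]
    [(13, 13, 16)]
    [1]
    [0, 1, 44, 3, 4, 5, 6, -35, -118, -75, 10, -31, -30, -29, -28, 15, 58, 59, 60, -23, -64, -21]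
    [(.six 1 1 40 1 39 2, 3), (.six 1 5 36 39 39 6, 5), (.six 5 5 32 5 27 10, 15),
     (.six 3 5 34 15 19 8, 19), (.six 3 5 34 11 23 8, 11), (.six 5 23 14 25 31 28, 17),
     (.six 17 19 6 21 27 36, 21), (.six 21 29 34 37 39 8, 13), (.six 9 23 10 23 29 32, 9),
     (.gen 1 13 28, 14), (.dist 2 7, 7), (.gen 13 13 16, 16), (.six 21 31 32 26 29 29, 10),
     (.six 21 31 32 27 27 30, 12), (.six 21 31 32 24 30 30, 18), (.six 21 31 32 24 26 34, 8),
     (.six 21 29 34 24 24 36, 6), (.six 21 31 32 22 26 36, 20), (.six 21 31 32 22 24 38, 4),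
     (.six 21 25 38 22 22 40, 2)]
    [.dist 2 2] = true := by
  decide +kernel

theorem cert_42_23 : certB 42 23 6
    [(2, 15, 25)]
    [(14, 33, 37)]
    [1]
    [0, 1, 44, 3, 1054, 5, 258, 7, 1394, 177, 220, -31, -114, 223, 182, 15, -530, 59, -192, -23,
     188, 105]
    [(.six 1 1 40 1 39 2, 3), (.six 1 5 36 39 39 6, 5), (.six 5 5 32 5 27 10, 15),
     (.six 3 5 34 7 27 8, 7), (.six 7 23 12 27 27 30, 19), (.six 11 23 8 23 27 34, 11),
     (.six 5 23 14 25 31 28, 17), (.six 19 19 4 21 25 38, 21), (.six 17 17 8 21 29 34, 13),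
     (.six 9 23 10 23 29 32, 9), (.gen 2 15 25, 2), (.six 21 22 41 21 23 40, 20),
     (.six 21 22 41 27 27 30, 12), (.six 21 31 32 27 27 30, 10), (.six 21 31 32 26 29 29, 16),
     (.six 21 31 32 22 26 36, 6), (.six 21 24 39 23 25 36, 18), (.six 4 16 22 18 30 36, 4),
     (.six 4 6 32 20 30 34, 8), (.gen 14 33 37, 14)]
    [.dist 2 1, .dist 2 3] = true := by
  decide +kernel

theorem cert_42_25 : certB 42 25 3
    [(22, 29, 33), (1, 13, 28)]
    []
    [1, 11]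
    [0, 1, 44, 3, 4, 5, 48, 7, 8, 9, 10, -31, 12, 13, 14, 15, 16, -25, 18, -23, -22, 21]
    [(.six 1 1 40 1 39 2, 3), (.six 1 5 36 39 39 6, 5), (.six 1 9 32 37 37 10, 9),
     (.six 21 33 30 33 39 12, 21), (.six 21 29 34 37 39 8, 13), (.six 13 17 12 21 33 30, 17),
     (.six 3 25 14 27 29 28, 15), (.six 3 5 34 15 19 8, 19), (.six 3 5 34 11 23 8, 11),
     (.gen 22 29 33, 20), (.six 21 22 41 27 27 30, 12), (.six 21 31 32 27 27 30, 10),
     (.six 21 31 32 26 29 29, 16), (.six 21 31 32 22 26 36, 6), (.six 21 24 39 23 25 36, 18),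
     (.six 4 16 22 18 30 36, 4), (.six 4 6 32 20 30 34, 8), (.six 2 16 24 20 30 34, 2),
     (.gen 1 13 28, 14), (.dist 2 7, 7)]
    [.dist 2 2, .dist 2 3] = true := by
  decide +kernel

theorem cert_42_29 : certB 42 29 2
    [(1, 1, 40), (4, 40, 40), (4, 4, 34)]
    [(19, 28, 37)]
    [1, 5, 11]
    [0, 1, 2, 3, 4, 5, 6, 7, 8, 9, 10, -31, 12, 13, 14, 15, 16, -67, 18, 19, 20, -21]
    [(.gen 1 1 40, 2), (.gen 4 40 40, 4), (.gen 4 4 34, 8), (.six 1 2 39 8 38 38, 3),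
     (.six 1 1 40 1 8 33, 9), (.six 1 16 25 33 34 17, 16), (.six 7 9 26 8 8 26, 7),
     (.six 2 7 33 12 34 38, 12), (.six 2 10 30 4 4 34, 10), (.six 2 10 30 16 29 39, 13),
     (.six 3 13 26 20 32 32, 20), (.six 4 6 32 20 30 34, 6), (.six 4 16 22 18 30 36, 18),
     (.six 3 15 24 12 36 36, 15), (.six 6 6 30 26 27 31, 11), (.six 6 11 25 27 27 30, 17),
     (.six 6 11 25 23 27 34, 19), (.six 21 25 38 23 29 32, 21), (.six 4 40 40 5 16 21, 5),
     (.gen 19 28 37, 14)]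
    [.dist 2 1] = true := by
  decide +kernel

theorem cert_42_31 : certB 42 31 6
    [(1, 13, 28)]
    [(13, 13, 16)]
    [1]
    [0, 1, 44, 3, 4, 5, 6, -35, -118, -75, 10, -31, -30, -29, -28, 15, 58, 59, 60, -23, -64, -21]
    [(.six 1 1 40 1 39 2, 3), (.six 1 5 36 39 39 6, 5), (.six 5 5 32 5 27 10, 15),
     (.six 3 5 34 15 19 8, 19), (.six 3 5 34 11 23 8, 11), (.six 5 23 14 25 31 28, 17),
     (.six 17 19 6 21 27 36, 21), (.six 21 29 34 37 39 8, 13), (.six 9 23 10 23 29 32, 9),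
     (.gen 1 13 28, 14), (.dist 2 7, 7), (.gen 13 13 16, 16), (.six 21 31 32 26 29 29, 10),
     (.six 21 31 32 27 27 30, 12), (.six 21 31 32 24 30 30, 18), (.six 21 31 32 24 26 34, 8),
     (.six 21 29 34 24 24 36, 6), (.six 21 31 32 22 26 36, 20), (.six 21 31 32 22 24 38, 4),
     (.six 21 25 38 22 22 40, 2)]
    [.dist 2 2] = true := by
  decide +kernel

theorem cert_42_37 : certB 42 37 3
    [(22, 29, 33), (1, 13, 28)]
    []
    [1, 11]
    [0, 1, 44, 3, 4, 5, 48, 7, 8, 9, 10, -31, 12, 13, 14, 15, 16, -25, 18, -23, -22, 21]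
    [(.six 1 1 40 1 39 2, 3), (.six 1 5 36 39 39 6, 5), (.six 1 9 32 37 37 10, 9),
     (.six 21 33 30 33 39 12, 21), (.six 21 29 34 37 39 8, 13), (.six 13 17 12 21 33 30, 17),
     (.six 3 25 14 27 29 28, 15), (.six 3 5 34 15 19 8, 19), (.six 3 5 34 11 23 8, 11),
     (.gen 22 29 33, 20), (.six 21 22 41 27 27 30, 12), (.six 21 31 32 27 27 30, 10),
     (.six 21 31 32 26 29 29, 16), (.six 21 31 32 22 26 36, 6), (.six 21 24 39 23 25 36, 18),
     (.six 4 16 22 18 30 36, 4), (.six 4 6 32 20 30 34, 8), (.six 2 16 24 20 30 34, 2),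
     (.gen 1 13 28, 14), (.dist 2 7, 7)]
    [.dist 2 2, .dist 2 3] = true := by
  decide +kernel

theorem cert_42_41 : certB 42 41 2
    []
    [(19, 24, 41)]
    []
    [0, 1, -208, 3, 130, 5, -78, -35, -34, 9, -32, 11, -72, 13, 14, -27, 58, 17, -24, -23, 20,
     -21]
    [(.six 1 1 40 1 39 2, 3), (.six 3 3 36 3 33 6, 9), (.six 1 5 36 39 39 6, 5),
     (.six 5 13 24 33 33 18, 13), (.six 13 13 16 21 37 26, 21), (.six 13 17 12 21 33 30, 17),
     (.six 3 25 14 27 29 28, 15), (.six 17 19 6 21 27 36, 19), (.six 11 23 8 25 25 34, 11),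
     (.six 7 23 12 23 31 30, 7), (.gen 19 24 41, 18), (.six 21 31 32 24 29 31, 10),
     (.six 21 31 32 27 28 29, 14), (.six 21 30 33 28 28 28, 12), (.six 21 31 32 26 28 30, 16),
     (.six 21 31 32 24 26 34, 8), (.six 21 31 32 22 28 34, 20), (.six 21 31 32 22 26 36, 6),
     (.six 21 27 36 23 23 38, 4), (.six 21 25 38 22 22 40, 2)]
    [.dist 2 1, .dist 2 3, .dist 2 4] = true := by
  decide +kernel

theorem certs_42 : ∀ p ∈ ([1, 5, 11, 13, 17, 19, 23, 25, 29, 31, 37, 41] : List ℕ), HasCert 42 p := by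
  intro p hp
  simp only [List.mem_cons, List.not_mem_nil, or_false] at hp
  rcases hp with rfl | rfl | rfl | rfl | rfl | rfl | rfl | rfl | rfl | rfl | rfl | rfl
  exacts [⟨_, _, _, _, _, _, _, cert_42_1⟩, ⟨_, _, _, _, _, _, _, cert_42_5⟩,
   ⟨_, _, _, _, _, _, _, cert_42_11⟩, ⟨_, _, _, _, _, _, _, cert_42_13⟩,
   ⟨_, _, _, _, _, _, _, cert_42_17⟩, ⟨_, _, _, _, _, _, _, cert_42_19⟩,
   ⟨_, _, _, _, _, _, _, cert_42_23⟩, ⟨_, _, _, _, _, _, _, cert_42_25⟩,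
   ⟨_, _, _, _, _, _, _, cert_42_29⟩, ⟨_, _, _, _, _, _, _, cert_42_31⟩,
   ⟨_, _, _, _, _, _, _, cert_42_37⟩, ⟨_, _, _, _, _, _, _, cert_42_41⟩]

end Pool.Agent.FermAll
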