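import Pool.Agent.FermD.Stat

/-!
# Tate classes on Fermat varieties in all characteristics: the definitions of the statement

Let `X` be the Fermat variety of degree `m` and dimension `n` over a field of characteristic zero or
of characteristic `p` prime to `m`. Its primitive cohomology is the sum of lines `V(s)`, `s` a
family of `n + 2` nonzero elements of `ZMod m` with sum zero.

`IsTate P s` for a unit `P` of `ZMod m`: in characteristic `p ≡ P`, the line `V(s)` consists of Tate
classes over some finite extension (Weil, Stickelberger); for `P = 1` it also means that `V(s)`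
consists of Hodge classes in characteristic zero (Shioda).
-/

set_option autoImplicit false

namespace Pool.Agent.FermAll

open Finset Pool.Agent.FermD

/-- `s` has `2 r` elements, all different from zero, and for all `t` prime to `m` the sum of the
fractional parts `⟨t P ^ i c / m⟩` over all `c ∈ s` and all `i < f` is `r f`, where `f` is the order
of `P`. -/
def IsTate {m : ℕ} [NeZero m] (P : (ZMod m)ˣ) (s : Multiset (ZMod m)) : Prop :=
  (0 : ZMod m) ∉ s ∧ ∃ r : ℕ, s.card = 2 * r ∧ ∀ t : (ZMod m)ˣ,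
    (s.map fun c => ∑ i ∈ range (orderOf P),
      (((P ^ i * t : (ZMod m)ˣ) : ZMod m) * c).val).sum = r * orderOf P * m

/-- The classes of divisors on the product of two Fermat curves: `V(x, y, z) ⊗ V(x', y', z')`. -/
def curves {m : ℕ} [NeZero m] (P : (ZMod m)ˣ) : Set (Multiset (ZMod m)) :=
  {u | IsTate P u ∧ ∃ x y z x' y' z' : ZMod m, x + y + z = 0 ∧ x' + y' + z' = 0 ∧
    u = {x, y, z, x', y', z'}}

/-- The Hodge classes which come from the Fermat varieties of degree `n`. -/
def lifts1 (m n : ℕ) [NeZero n] : Set (Multiset (ZMod m)) :=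
  {s | ∃ u : Multiset (ZMod n), IsTate 1 u ∧ s = u.map (mulD m n)}

/-- The case `a`: characteristic zero or `p ≡ 1`. -/
def CaseA {m : ℕ} (P : (ZMod m)ˣ) : Prop :=
  P = 1 ∧ ∃ a b c : ℕ, m = 2 ^ a * 3 ^ b * 5 ^ c ∨ m = 2 ^ a * 3 ^ b * 7 ^ c ∨
    m = 2 * 3 ^ b * 11 ^ c ∨ m = 2 * 3 ^ b * 13 ^ c

/-- The case `b`: `m = n` or `m = 2 n` with `n` odd, and for each prime divisor `l` of `n` the number
`-1` is a power of `P` modulo the prime-to-`l` part of `n`. -/
def CaseB {m : ℕ} (P : (ZMod m)ˣ) : Prop :=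
  ∃ n : ℕ, (m = n ∨ Odd n ∧ m = 2 * n) ∧
    ∀ l : ℕ, l.Prime → l ∣ n → ∃ j k : ℕ, n ∣ l ^ k * ((P : ZMod m).val ^ j + 1)

/-- The case `c`: all `P`. -/
def CaseC (m : ℕ) : Prop :=
  (∃ a b : ℕ, m = 3 ^ a * 5 ^ b ∨ m = 2 * 3 ^ a * 5 ^ b ∨ m = 4 * 3 ^ a) ∨
    m < 33 ∨ m = 39 ∨ m = 42 ∨ m = 60

/-- The degrees such that all types of complex multiplication come from the Fermat curve. -/
def degrees : Finset ℕ := {3, 4, 5, 6, 7, 8, 9, 10, 12, 14, 15, 16, 18, 20, 22, 24, 30, 36, 42}

end Pool.Agent.FermAll
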