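import Pool.Agent.FermAll.Main
import Pool.Agent.FermD.Rank

/-!
# The rank of the functionals in characteristic `p`

`rank_le`: if `t i`, `i ∈ ι`, are units such that `P ^ j t i ≠ t i'` for `i ≠ i'` and
`P ^ j t i ≠ - t i'` for all `i`, `i'` then the functionals `beta P f t` span a space of dimension at
least `card ι`.
-/

set_option autoImplicit false

namespace Pool.Agent.FermAll

open Finset Pool.Stick Pool.Agent.FermD Pool.Agent.StarkRQ

variable {m : ℕ} [NeZero m] {P : (ZMod m)ˣ}

/-- all values of the functionals -/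
noncomputable def bw (P : (ZMod m)ˣ) (f : ℕ) : A m →+ ((ZMod m)ˣ → ℝ) where
  toFun v t := beta P f t v
  map_zero' := by
    funext t
    simp
  map_add' v w := by
    funext t
    simp

theorem bw_apply (f : ℕ) (v : A m) (t : (ZMod m)ˣ) : bw P f v t = beta P f t v := rfl

/-- the norm -/
def nrm (P : (ZMod m)ˣ) (f : ℕ) : ((ZMod m)ˣ → ℝ) →ₗ[ℝ] ((ZMod m)ˣ → ℝ) where
  toFun W t := ∑ i ∈ range f, W (P ^ i * t)
  map_add' V W := by
    funext t
    simp [Finset.sum_add_distrib]
  map_smul' c W := by
    funext t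
    simp [Finset.mul_sum]

theorem nrm_apply (f : ℕ) (W : (ZMod m)ˣ → ℝ) (t : (ZMod m)ˣ) :
    nrm P f W t = ∑ i ∈ range f, W (P ^ i * t) := rfl

theorem bw_e (f : ℕ) {x : ZMod m} (hx : x ≠ 0) : bw P f (e x) = nrm P f (bv (e x)) := by
  funext t
  rw [bw_apply, beta_e, nrm_apply]
  refine sum_congr rfl fun i _ => ?_
  rw [bv_apply, bt_e, if_neg hx]

theorem bv_e_zero : bv (e (0 : ZMod m)) = 0 := by
  funext t
  rw [bv_apply, bt_e, if_pos rfl]
  rfl

theorem span_bv (hm : 3 ≤ m) :
    Submodule.span ℝ (Set.range fun x : ZMod m => bv (e x)) = oddF m := by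
  refine Submodule.eq_of_le_of_finrank_le ?_ ?_
  · rw [Submodule.span_le]
    rintro _ ⟨x, rfl⟩ u
    change bt (-u) (e x) = - bt u (e x)
    rw [bt_e, bt_e]
    by_cases hx : x = 0
    · simp [hx]
    · have h1 : (u : ZMod m) * x ≠ 0 := unit_mul_ne_zero u hx
      rw [if_neg hx, if_neg hx, Units.val_neg, neg_mul, hh_neg h1]
  · have h1 := finrank_all hm
    have h2 := finrank_oddF hm
    omega

theorem rank_le (hm : 3 ≤ m) {f : ℕ} (hf : 0 < f) {ι : Type*} [Fintype ι] (t : ι → (ZMod m)ˣ)
    (h1 : ∀ i i', i ≠ i' → ∀ j < f, P ^ j * t i ≠ t i')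
    (h2 : ∀ i i', ∀ j < f, P ^ j * t i ≠ - t i') :
    Fintype.card ι ≤
      Module.finrank ℝ (Submodule.span ℝ (Set.range fun x : {x : ZMod m // x ≠ 0} =>
        bw P f (e x.1))) := by
  classical
  set S := Submodule.span ℝ (Set.range fun x : {x : ZMod m // x ≠ 0} => bw P f (e x.1)) with hS
  have hle : (oddF m).map (nrm P f) ≤ S := by
    rw [← span_bv hm, Submodule.map_span, Submodule.span_le]
    rintro _ ⟨_, ⟨x, rfl⟩, rfl⟩
    by_cases hx : x = 0
    · subst hx
      change nrm P f (bv (e (0 : ZMod m))) ∈ S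
      rw [bv_e_zero, map_zero]
      exact zero_mem _
    · change nrm P f (bv (e x)) ∈ S
      rw [← bw_e f hx]
      exact Submodule.subset_span ⟨⟨x, hx⟩, rfl⟩
  -- the functions
  let W : ι → ((ZMod m)ˣ → ℝ) := fun i u => if u = t i then 1 else if u = - t i then -1 else 0
  have h0 : ∀ i i', t i ≠ - t i' := by
    intro i i' h
    have := h2 i i' 0 hf
    rw [pow_zero, one_mul] at this
    exact this h
  have hW : ∀ i, W i ∈ oddF m := by
    intro i u
    change (if -u = t i then (1 : ℝ) else if -u = - t i then -1 else 0) =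
      - (if u = t i then (1 : ℝ) else if u = - t i then -1 else 0)
    by_cases ha : u = t i
    · have hb : ¬ -u = t i := by
        intro h
        exact h0 i i (h.symm.trans (by rw [ha]))
      have hc : -u = - t i := by rw [ha]
      rw [if_neg hb, if_pos hc, if_pos ha]
    · by_cases hb : u = - t i
      · have hc : -u = t i := by rw [hb, neg_neg]
        rw [if_pos hc, if_neg ha, if_pos hb]
        norm_num
      · have hc : ¬ -u = t i := fun h => hb (by rw [← h, neg_neg])
        have hd : ¬ -u = - t i := fun h => ha (neg_injective h)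
        rw [if_neg hc, if_neg hd, if_neg ha, if_neg hb]
        norm_num
  have hval : ∀ i i', i ≠ i' → nrm P f (W i) (t i') = 0 := by
    intro i i' hii
    rw [nrm_apply]
    refine Finset.sum_eq_zero fun j hj => ?_
    have hj := Finset.mem_range.1 hj
    change (if P ^ j * t i' = t i then (1 : ℝ) else if P ^ j * t i' = - t i then -1 else 0) = 0
    rw [if_neg (h1 i' i (Ne.symm hii) j hj), if_neg (h2 i' i j hj)]
  have hval' : ∀ i, nrm P f (W i) (t i) ≠ 0 := by
    intro i
    have h3 : (1 : ℝ) ≤ nrm P f (W i) (t i) := by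
      rw [nrm_apply]
      have h4 : W i (P ^ 0 * t i) = 1 := by
        change (if P ^ 0 * t i = t i then (1 : ℝ) else _) = 1
        rw [if_pos (by rw [pow_zero, one_mul])]
      rw [← h4]
      refine Finset.single_le_sum (f := fun j => W i (P ^ j * t i)) (fun j hj => ?_)
        (Finset.mem_range.2 hf)
      have hj := Finset.mem_range.1 hj
      change 0 ≤ (if P ^ j * t i = t i then (1 : ℝ) else if P ^ j * t i = - t i then -1 else 0)
      rw [if_neg (h2 i i j hj)]
      split_ifs <;> norm_num
    linarith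
  have hind : LinearIndependent ℝ fun i => nrm P f (W i) := by
    rw [Fintype.linearIndependent_iff]
    intro g hg i
    have h3 := congrFun hg (t i)
    rw [Finset.sum_apply, Finset.sum_eq_single i] at h3
    · rw [Pi.smul_apply, smul_eq_mul, Pi.zero_apply, mul_eq_zero] at h3
      exact h3.resolve_right (hval' i)
    · intro i' _ hne
      rw [Pi.smul_apply, hval i' i hne, smul_zero]
    · intro h
      exact absurd (Finset.mem_univ i) h
  have h3 := finrank_span_eq_card hind
  rw [← h3]
  refine Submodule.finrank_mono ?_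
  rw [Submodule.span_le]
  rintro _ ⟨i, rfl⟩
  exact hle ⟨W i, hW i, rfl⟩

end Pool.Agent.FermAll
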