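import Pool.Agent.FermAll.Run
import Pool.Agent.FermAll.Rank

/-!
# Certificates: the kernel of the functionals

`tate_of_cert`: if the certificate is correct then all Tate classes of degree `n` with the Frobenius
`P` are generated by divisors on products of two Fermat curves.
-/

set_option autoImplicit false

namespace Pool.Agent.FermAll

open Finset Pool.Stick Pool.Agent.FermD Pool.Agent.StarkRQ

variable {n : ℕ} [NeZero n] {P : (ZMod n)ˣ} {f p : ℕ}

theorem isTate_iff_f (hPf : P ^ f = 1) (hf : f ≠ 0) {s : Multiset (ZMod n)} :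
    IsTate P s ↔ (0 : ZMod n) ∉ s ∧ Even s.card ∧ ∀ t, beta P f t (toA s) = 0 := by
  obtain ⟨k, hk⟩ := orderOf_dvd_of_pow_eq_one hPf
  have hk' : f = k * orderOf P := by rw [hk, mul_comm]
  have hk0 : (k : ℝ) ≠ 0 := by
    intro h
    have h1 : k = 0 := by exact_mod_cast h
    rw [h1, zero_mul] at hk'
    exact hf hk'
  clear hk
  subst hk'
  rw [isTate_iff]
  refine and_congr Iff.rfl (and_congr Iff.rfl (forall_congr' fun t => ?_))
  rw [beta_mul_order, mul_eq_zero]
  exact ⟨fun h => Or.inr h, fun h => h.resolve_left hk0⟩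

/-- the multiset of the residue classes -/
def ms (n : ℕ) (L : List ℕ) : Multiset (ZMod n) := (L.map fun y : ℕ => (y : ZMod n) : List (ZMod n))

omit [NeZero n] in
theorem natCast_ne_zero_of {y : ℕ} (h0 : 0 < y) (hn : y < n) : (y : ZMod n) ≠ 0 := by
  intro h
  rw [ZMod.natCast_eq_zero_iff] at h
  exact absurd (Nat.le_of_dvd h0 h) (by omega)

omit [NeZero n] in
theorem sum_range_list {M : Type*} [AddCommMonoid M] (l : ℕ) (g : ℕ → M) :
    ((List.range l).map g).sum = ∑ a ∈ range l, g a := by
  induction l with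
  | zero => simp
  | succ l ih => rw [List.range_succ, List.map_append, List.sum_append, ih, sum_range_succ]; simp

theorem tateB_sound (hp : (p : ZMod n) = P) (hPf : P ^ f = 1) (hf : f ≠ 0) {L : List ℕ} {r : ℕ}
    (hL : L.length = 2 * r) (hpos : posB n L = true)
    (h : tateB n ((List.range f).map fun i => p ^ i % n) L r = true) : IsTate P (ms n L) := by
  rw [isTate_iff_f hPf hf]
  simp only [posB, List.all_eq_true, decide_eq_true_eq] at hpos
  refine ⟨?_, ?_, fun t => ?_⟩
  · intro h0
    rw [ms, Multiset.mem_coe, List.mem_map] at h0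
    obtain ⟨y, hy, h1⟩ := h0
    exact natCast_ne_zero_of (hpos y hy).1 (hpos y hy).2 h1
  · rw [ms, Multiset.coe_card, List.length_map, hL]
    exact even_two_mul r
  · have hn0 : (n : ℝ) ≠ 0 := by exact_mod_cast NeZero.ne n
    have h1 : ((ms n L).map fun c => ∑ i ∈ range f,
        (((P ^ i * t : (ZMod n)ˣ) : ZMod n) * c).val).sum = r * f * n := by
      simp only [tateB, List.all_eq_true, Bool.or_eq_true, Bool.not_eq_true', beq_eq_false_iff_ne,
        beq_iff_eq, List.mem_range] at h
      have h2 := (h (t : ZMod n).val (ZMod.val_lt _)).resolve_left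
        (not_not_intro (ZMod.val_coe_unit_coprime t))
      rw [List.length_map, List.length_range] at h2
      rw [← h2, List.map_map, sum_range_list, ms, Multiset.map_coe, Multiset.sum_coe, List.map_map]
      have h3 : ∀ i y : ℕ, (((P ^ i * t : (ZMod n)ˣ) : ZMod n) * (y : ZMod n)).val =
          p ^ i % n * (t : ZMod n).val * y % n := by
        intro i y
        have h4 : ((P ^ i * t : (ZMod n)ˣ) : ZMod n) * (y : ZMod n) =
            ((p ^ i % n * (t : ZMod n).val * y : ℕ) : ZMod n) := by
          push_cast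
          rw [ZMod.natCast_mod, ZMod.natCast_zmod_val]
          push_cast
          rw [hp]
        rw [h4, ZMod.val_natCast]
      have h4 : ∀ L : List ℕ, (L.map ((fun c : ZMod n => ∑ i ∈ range f,
          (((P ^ i * t : (ZMod n)ˣ) : ZMod n) * c).val) ∘ fun y : ℕ => (y : ZMod n))).sum =
          ∑ i ∈ range f, (L.map fun y => p ^ i % n * (t : ZMod n).val * y % n).sum := by
        intro L
        induction L with
        | nil => simp
        | cons y L ih =>
          simp only [List.map_cons, List.sum_cons, sum_add_distrib]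
          rw [ih]
          congr 1
          exact sum_congr rfl fun i _ => h3 i y
      rw [h4]
      rfl
    rw [beta_toA, h1, ms, Multiset.coe_card, List.length_map, hL]
    push_cast
    field_simp
    ring

/-- the sum of a triple -/
noncomputable def trip (n : ℕ) (g : ℕ × ℕ × ℕ) : A n :=
  e (g.1 : ZMod n) + e (g.2.1 : ZMod n) + e (g.2.2 : ZMod n)

/-- the relations given by cycles -/
noncomputable def RelQ (P : (ZMod n)ˣ) : AddSubgroup (A n) :=
  AddSubgroup.closure (relP n ∪ relDD n ∪ toA '' curves P)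

theorem RelQ_zero {v : A n} (hv : v ∈ RelQ P) : v 0 = 0 := by
  induction hv using AddSubgroup.closure_induction with
  | mem x hx =>
    rcases hx with (⟨c, hc, rfl⟩ | ⟨l, hl, hlm, hx⟩) | ⟨u, hu, rfl⟩
    · rw [Finsupp.add_apply, e_zero hc, e_zero (neg_ne_zero.2 hc), add_zero]
    · exact relD_zero hlm hx
    · rw [toA_apply, Multiset.count_eq_zero_of_notMem hu.1.1]
      rfl
  | zero => rfl
  | add x y _ _ hx hy => rw [Finsupp.add_apply, hx, hy, add_zero]
  | neg x _ hx => rw [Finsupp.neg_apply, hx, neg_zero]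

theorem RelQ_cnt {v : A n} (hv : v ∈ RelQ P) : Even (cnt v) := by
  induction hv using AddSubgroup.closure_induction with
  | mem x hx =>
    rcases hx with (hx | hx) | ⟨u, hu, rfl⟩
    · exact even_cnt_relA (p := 1) (AddSubgroup.subset_closure (Or.inl (Or.inl hx)))
    · exact even_cnt_relA (p := 1) (AddSubgroup.subset_closure (Or.inl (Or.inr hx)))
    · rw [cnt_toA]
      exact_mod_cast (isTate_iff.1 hu.1).2.1
  | zero => rw [map_zero]; exact ⟨0, rfl⟩
  | add x y _ _ hx hy => rw [map_add]; exact hx.add hy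
  | neg x _ hx => rw [map_neg]; exact hx.neg

theorem RelQ_beta (hPf : P ^ f = 1) (hf : f ≠ 0) {v : A n} (hv : v ∈ RelQ P) (t : (ZMod n)ˣ) :
    beta P f t v = 0 := by
  induction hv using AddSubgroup.closure_induction with
  | mem x hx =>
    rcases hx with (hx | ⟨l, hl, hlm, hx⟩) | ⟨u, hu, rfl⟩
    · exact beta_relP t hx
    · obtain ⟨M, hM⟩ := hlm
      exact beta_relD hM hl.pos (fun h => by rw [hM, h]; exact dvd_mul_right _ _) t hx
    · exact ((isTate_iff_f hPf hf).1 hu.1).2.2 t
  | zero => rw [map_zero]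
  | add x y _ _ hx hy => rw [map_add, hx, hy, add_zero]
  | neg x _ hx => rw [map_neg, hx, neg_zero]

/-- closed under negation -/
theorem isTate_neg {s : Multiset (ZMod n)} (hs : IsTate P s) : IsTate P (s.map Neg.neg) := by
  have h0 := hs.1
  have key : ∀ s : Multiset (ZMod n), (0 : ZMod n) ∉ s → ∀ (f : ℕ) (t : (ZMod n)ˣ),
      beta P f t (toA (s.map Neg.neg)) = - beta P f t (toA s) := by
    intro s
    induction s using Multiset.induction_on with
    | empty => intro _ f t; simp [toA_zero]
    | cons c s ih =>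
      intro h f t
      rw [Multiset.mem_cons, not_or] at h
      rw [Multiset.map_cons, toA_cons, toA_cons, map_add, map_add, ih h.2, neg_add,
        beta_e_neg t (Ne.symm h.1)]
  rw [isTate_iff] at hs ⊢
  refine ⟨?_, by rw [Multiset.card_map]; exact hs.2.1, fun t => by
    rw [key s h0, hs.2.2, neg_zero]⟩
  intro h
  obtain ⟨c, hc, h1⟩ := Multiset.mem_map.1 h
  rw [neg_eq_zero] at h1
  exact hs.1 (h1 ▸ hc)

theorem curves_neg {u : Multiset (ZMod n)} (hu : u ∈ curves P) : u.map Neg.neg ∈ curves P := by
  obtain ⟨h1, x, y, z, x', y', z', h2, h3, rfl⟩ := hu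
  refine ⟨isTate_neg h1, -x, -y, -z, -x', -y', -z', by linear_combination -h2,
    by linear_combination -h3, ?_⟩
  simp

theorem alg_neg' {s : Multiset (ZMod n)} (hs : Alg (curves P) s) :
    Alg (curves P) (s.map Neg.neg) := by
  induction hs with
  | zero => exact Alg.zero
  | add _ _ h1 h2 => rw [Multiset.map_add]; exact Alg.add h1 h2
  | cancel c hc _ h =>
    refine Alg.cancel (-c) (neg_ne_zero.2 hc) ?_
    rw [Multiset.map_add] at h
    simpa using h
  | pair c hc =>
    have := Alg.pair (T := curves P) (-c) (neg_ne_zero.2 hc)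
    simpa using this
  | dist l x hl hlm hx =>
    rw [distSet_neg l x hlm]
    exact Alg.dist l (-x) hl hlm (by rw [mul_neg]; exact neg_ne_zero.2 hx)
  | base h => exact Alg.base (curves_neg h)

theorem alg_of_relQ {s : Multiset (ZMod n)} (hs : toA s ∈ RelQ P) : Alg (curves P) s := by
  refine of_mem_closure (𝒜 := FermD.Alg (curves P)) FermD.Alg.zero (fun _ _ => FermD.Alg.add)
    (fun _ c => FermD.Alg.cancel c) (fun _ => alg_neg')
    (fun _ h => (alg_isTate (fun u hu => hu.1) h).1) ?_ hs
  rintro x ((⟨c, hc, rfl⟩ | ⟨l, hl, hlm, y, hy, rfl⟩) | ⟨u, hu, rfl⟩)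
  · refine ⟨{c, -c}, FermD.Alg.pair c hc, ?_⟩
    rw [Multiset.insert_eq_cons, toA_cons, toA_singleton]
  · refine ⟨distSet n l y, FermD.Alg.dist l y hl hlm hy, ?_⟩
    unfold distSet
    rw [toA_add, toA_add, toA_singleton]
    congr 1
    split_ifs
    · rw [toA_singleton]
    · rw [toA_zero]
  · exact ⟨u, FermD.Alg.base hu, rfl⟩

end Pool.Agent.FermAll
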