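import Pool.Agent.FermAll.Defs
import Pool.Agent.FermD.Main
import Pool.Agent.Stick.Gen6

/-!
# Tate classes on Fermat varieties in all characteristics: proofs
-/

set_option autoImplicit false

namespace Pool.Agent.FermAll

open Finset Pool.Stick Pool.Agent.FermD Pool.Agent.StarkRQ

section Basic

variable {m : ℕ} [NeZero m] {P : (ZMod m)ˣ}

theorem isTate_iff {s : Multiset (ZMod m)} :
    IsTate P s ↔ (0 : ZMod m) ∉ s ∧ Even s.card ∧ ∀ t, beta P (orderOf P) t (toA s) = 0 := by
  have hm : (m : ℝ) ≠ 0 := by exact_mod_cast NeZero.ne m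
  constructor
  · rintro ⟨h0, r, hr, h⟩
    refine ⟨h0, ⟨r, by omega⟩, fun t => ?_⟩
    rw [beta_toA, h t, hr]
    push_cast
    field_simp
    ring
  · rintro ⟨h0, ⟨r, hr⟩, h⟩
    refine ⟨h0, r, by omega, fun t => ?_⟩
    have h1 := h t
    rw [beta_toA, hr] at h1
    push_cast at h1
    have h2 : (((s.map fun c => ∑ i ∈ range (orderOf P),
        (((P ^ i * t : (ZMod m)ˣ) : ZMod m) * c).val).sum : ℕ) : ℝ) =
        ((r * orderOf P * m : ℕ) : ℝ) := by
      push_cast
      field_simp at h1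
      linarith
    exact_mod_cast h2

theorem isTate_one {s : Multiset (ZMod m)} : IsTate 1 s ↔ IsHodge s := by
  unfold IsTate IsHodge
  simp only [orderOf_one, range_one, sum_singleton, one_pow, one_mul, mul_one]

omit [NeZero m] in
theorem lifts1_eq {n : ℕ} [NeZero n] : lifts1 m n = lifts m n := by
  ext s
  unfold lifts1 lifts
  simp only [isTate_one]

theorem beta_pair (f : ℕ) (t : (ZMod m)ˣ) {c : ZMod m} (hc : c ≠ 0) :
    beta P f t (toA {c, -c}) = 0 := by
  rw [Multiset.insert_eq_cons, toA_cons, toA_singleton, map_add, beta_e_neg t hc]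
  ring

theorem isTate_add {s u : Multiset (ZMod m)} (hs : IsTate P s) (hu : IsTate P u) :
    IsTate P (s + u) := by
  rw [isTate_iff] at *
  refine ⟨?_, ?_, fun t => ?_⟩
  · rw [Multiset.mem_add, not_or]
    exact ⟨hs.1, hu.1⟩
  · rw [Multiset.card_add]
    exact hs.2.1.add hu.2.1
  · rw [toA_add, map_add, hs.2.2 t, hu.2.2 t, add_zero]

theorem isTate_pair {c : ZMod m} (hc : c ≠ 0) : IsTate P {c, -c} := by
  rw [isTate_iff]
  refine ⟨?_, ⟨1, rfl⟩, fun t => beta_pair _ t hc⟩
  simp only [Multiset.insert_eq_cons, Multiset.mem_cons, Multiset.mem_singleton, not_or]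
  exact ⟨hc.symm, (neg_ne_zero.2 hc).symm⟩

theorem isTate_cancel {s : Multiset (ZMod m)} {c : ZMod m} (hc : c ≠ 0)
    (h : IsTate P (s + {c, -c})) : IsTate P s := by
  rw [isTate_iff] at *
  obtain ⟨h1, h2, h3⟩ := h
  refine ⟨fun h => h1 (Multiset.mem_add.2 (Or.inl h)), ?_, fun t => ?_⟩
  · rw [Multiset.card_add] at h2
    have h4 : Multiset.card ({c, -c} : Multiset (ZMod m)) = 2 := rfl
    rw [h4] at h2
    exact (Nat.even_add.1 h2).2 (by decide)
  · have h4 := h3 t
    rw [toA_add, map_add, beta_pair _ t hc, add_zero] at h4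
    exact h4

/-- The unit `P` as a natural number `≥ 2`. -/
theorem exists_nat (hm : 3 ≤ m) (P : (ZMod m)ˣ) : 2 ≤ (P : ZMod m).val + m ∧
    (((P : ZMod m).val + m : ℕ) : ZMod m) = P := by
  refine ⟨by omega, ?_⟩
  push_cast
  rw [ZMod.natCast_zmod_val, ZMod.natCast_self, add_zero]

theorem algG_isTate {p : ℕ} (hp : (p : ZMod m) = P) {s : Multiset (ZMod m)} (hs : AlgG p s) :
    IsTate P s := by
  rw [isTate_iff]
  exact ⟨algG_zero_notMem (hp ▸ P.isUnit) hs, algG_sum_of_balanced_even hs,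
    fun t => algG_balanced hp (pow_orderOf_eq_one P) t hs⟩

theorem isTate_dist {l : ℕ} {x : ZMod m} (hl : l.Prime) (hlm : l ∣ m)
    (hx : (l : ZMod m) * x ≠ 0) : IsTate P (distSet m l x) := by
  have hp : (((P : ZMod m).val : ℕ) : ZMod m) = P := ZMod.natCast_zmod_val _
  exact algG_isTate hp (AlgG.dist l x hl hlm hx)

theorem alg_isTate {T : Set (Multiset (ZMod m))} (hT : ∀ u ∈ T, IsTate P u)
    {s : Multiset (ZMod m)} (hs : Alg T s) : IsTate P s := by
  induction hs with
  | zero => rw [isTate_iff]; exact ⟨Multiset.notMem_zero _, by simp, fun t => by simp [toA_zero]⟩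
  | add _ _ h1 h2 => exact isTate_add h1 h2
  | cancel c hc _ h => exact isTate_cancel hc h
  | pair c hc => exact isTate_pair hc
  | dist l x hl hlm hx => exact isTate_dist hl hlm hx
  | base h => exact hT _ h

theorem curves_sum {u : Multiset (ZMod m)} (hu : u ∈ curves P) : u.sum = 0 := by
  obtain ⟨_, x, y, z, x', y', z', h1, h2, rfl⟩ := hu
  simp only [Multiset.insert_eq_cons, Multiset.sum_cons, Multiset.sum_singleton]
  linear_combination h1 + h2

theorem alg_sum_eq {T : Set (Multiset (ZMod m))} (hT : ∀ u ∈ T, u.sum = 0)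
    {s : Multiset (ZMod m)} (hs : Alg T s) : s.sum = 0 := by
  induction hs with
  | zero => rfl
  | add _ _ h1 h2 => rw [Multiset.sum_add, h1, h2, add_zero]
  | cancel c hc _ h =>
    rw [Multiset.sum_add] at h
    simpa using h
  | pair c hc => simp
  | dist l x hl hlm hx => rw [← sg_toA]; exact sg_relD hl hlm (toA_distSet l x hx)
  | base h => exact hT _ h

theorem alg_le {T T' : Set (Multiset (ZMod m))} (hT : ∀ u ∈ T, Alg T' u)
    {s : Multiset (ZMod m)} (hs : Alg T s) : Alg T' s := by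
  induction hs with
  | zero => exact Alg.zero
  | add _ _ h1 h2 => exact Alg.add h1 h2
  | cancel c hc _ h => exact Alg.cancel c hc h
  | pair c hc => exact Alg.pair c hc
  | dist l x hl hlm hx => exact Alg.dist l x hl hlm hx
  | base h => exact hT _ h

theorem algF_alg {p : ℕ} (hp : (p : ZMod m) = P) {s : Multiset (ZMod m)} (hs : AlgF p s) :
    Alg (curves P) s := by
  induction hs with
  | zero => exact Alg.zero
  | add _ _ h1 h2 => exact Alg.add h1 h2
  | cancel c hc _ h => exact Alg.cancel c hc h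
  | pair c hc => exact Alg.pair c hc
  | dist l x hl hlm hx => exact Alg.dist l x hl hlm hx
  | curves x y z x' y' z' hx hy hz hx' hy' hz' h1 h2 h3 =>
    exact Alg.base ⟨algG_isTate hp h3, x, y, z, x', y', z', h1, h2, rfl⟩

end Basic

section General

variable {m : ℕ} [NeZero m] {P : (ZMod m)ˣ}

/-- The Tate multisets are in `AlgG`. -/
theorem algG_of_isTate {p n : ℕ} (hP : (p : ZMod m) = P) (hmn : m = n ∨ Odd n ∧ m = 2 * n)
    (hn : ∀ l : ℕ, l.Prime → l ∣ n → ∃ j k : ℕ, n ∣ l ^ k * (p ^ j + 1))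
    {s : Multiset (ZMod m)} (hs : IsTate P s) : AlgG p s := by
  obtain ⟨h0, heven, hbal⟩ := isTate_iff.1 hs
  have hPu : IsUnit (p : ZMod m) := hP ▸ P.isUnit
  have hPf := pow_orderOf_eq_one P
  have hf0 : orderOf P ≠ 0 := (orderOf_pos P).ne'
  have hv0 : toA s 0 = 0 := by
    rw [toA_apply, Multiset.count_eq_zero_of_notMem h0]; rfl
  have hcnt : Even (cnt (toA s)) := by
    rw [cnt_toA]
    exact_mod_cast heven
  apply algG_of_relG hPu
  refine mem_relG_of_relL ?_ hcnt
  rcases hmn with hm | ⟨hodd, hm⟩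
  · subst hm
    exact mem_relL hn hP hPf hf0 hv0 hbal
  · subst hm
    have : NeZero n := ⟨by rintro rfl; simp at hodd⟩
    exact mem_relL_twice hodd hn hP hPf hf0 hv0 hbal

/-- The Tate multisets with sum zero are in `AlgF`. -/
theorem algF_of_isTate {p n : ℕ} (hp2 : 2 ≤ p) (hP : (p : ZMod m) = P) (hm3 : 3 ≤ m)
    (hmn : m = n ∨ Odd n ∧ m = 2 * n)
    (hn : ∀ l : ℕ, l.Prime → l ∣ n → ∃ j k : ℕ, n ∣ l ^ k * (p ^ j + 1))
    {s : Multiset (ZMod m)} (hT : IsTate P s) (hsum : s.sum = 0) : AlgF p s := by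
  have hs := algG_of_isTate hP hmn hn hT
  obtain ⟨h0, heven, hbal⟩ := isTate_iff.1 hT
  have hPf := pow_orderOf_eq_one P
  have hf0 : orderOf P ≠ 0 := (orderOf_pos P).ne'
  have hPu : IsUnit (p : ZMod m) := hP ▸ P.isUnit
  have hv0 : toA s 0 = 0 := by
    rw [toA_apply, Multiset.count_eq_zero_of_notMem h0]; rfl
  have hcnt : Even (cnt (toA s)) := by
    rw [cnt_toA]
    exact_mod_cast heven
  have hsg : sg (toA s) = 0 := by rw [sg_toA, hsum]
  apply algF_of_relC hPu
  change toA s ∈ RelC m p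
  by_cases hneg : (-1 : (ZMod m)ˣ) ∈ Subgroup.zpowers P
  · rw [← mem_powers_iff_mem_zpowers] at hneg
    obtain ⟨j, hj⟩ := hneg
    have hj' : (p : ZMod m) ^ j = -1 := by
      rw [hP, ← Units.val_pow_eq_pow_val]
      have : P ^ j = -1 := hj
      rw [this, Units.val_neg, Units.val_one]
    have h1 := mem_relS hm3 hv0 hsg hcnt
    have h2 : AddSubgroup.closure (relP m ∪ relS m) ≤ RelC m p := by
      rw [AddSubgroup.closure_le]
      rintro v (hv | ⟨x, y, z, x', y', z', hx, hy, hz, hx', hy', hz', h1, h2, rfl⟩)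
      · exact AddSubgroup.subset_closure (Or.inl (Or.inl hv))
      · refine AddSubgroup.subset_closure (Or.inr ⟨x, y, z, x', y', z', hx, hy, hz, hx', hy', hz',
          h1, h2, ?_, rfl⟩)
        have hss : ∀ x y : ZMod m, x ≠ 0 → y ≠ 0 → AlgG p {x, y} := fun x y hx hy =>
          AlgG.super x y j j hx hy (by rw [hj', neg_one_mul]) (by rw [hj', neg_one_mul])
        have h := AlgG.add (AlgG.add (hss x y hx hy) (hss z x' hz hx')) (hss y' z' hy' hz')
        convert h using 1
        simp only [Multiset.insert_eq_cons, ← Multiset.singleton_add]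
        abel
    exact h2 h1
  · -- not supersingular
    have hm0 : m ≠ 0 := NeZero.ne m
    have hn0 : n ≠ 0 := by
      rcases hmn with rfl | ⟨_, rfl⟩
      · exact hm0
      · intro h; simp [h] at hm0
    have hn1 : n ≠ 1 := by
      rcases hmn with rfl | ⟨_, rfl⟩ <;> omega
    obtain ⟨l, hl, hln⟩ := Nat.exists_prime_and_dvd hn1
    by_cases hpp : ∀ {d : ℕ}, d.Prime → d ∣ n → d = l
    · -- prime power
      have hpow := Nat.eq_prime_pow_of_unique_prime_dvd hn0 hpp
      set k := n.primeFactorsList.length with hk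
      have hk0 : k ≠ 0 := by
        intro h
        rw [h, pow_zero] at hpow
        exact hn1 hpow
      have hA : toA s ∈ RelA m p := by
        rcases hmn with hm | ⟨hodd, hm⟩
        · rw [← hm] at hpow
          exact Rel_le_RelA hl (hpow ▸ dvd_pow_self l hk0)
            (mem_rel_prime_pow hl hk0 hpow hP hPf hf0 hneg hv0 hcnt hbal)
        · subst hm
          have hl2 : l ≠ 2 := by
            rintro rfl
            rw [hpow] at hodd
            rw [Nat.odd_pow_iff hk0] at hodd
            exact absurd hodd (by decide)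
          have : NeZero n := ⟨hn0⟩
          exact mem_relA_twice hl hl2 hk0 hpow hP hPf hf0 hneg hv0 hcnt hbal
      exact mem_relC hP (AddSubgroup.mem_sup_left hA) hv0 hsg
    · -- two primes
      simp only [not_forall] at hpp
      obtain ⟨l', hl', hln', hll'⟩ := hpp
      have hpm : p.Coprime m := (ZMod.isUnit_iff_coprime p m).1 hPu
      have hg := gcd_dvd_two hp2 hpm hmn hn hl' hl hll' hln' hln hn0
      have hL : toA s ∈ RelL m p := by
        rcases hmn with hm | ⟨hodd, hm⟩
        · subst hm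
          exact mem_relL hn hP hPf hf0 hv0 hbal
        · subst hm
          have : NeZero n := ⟨hn0⟩
          exact mem_relL_twice hodd hn hP hPf hf0 hv0 hbal
      exact mem_relC_of_relL hP (exists_two (by omega) hg) hL hv0 hsg hcnt

/-- The degrees `n` and `2 n`. -/
theorem tate_curves {n : ℕ} (hm3 : 3 ≤ m) (hmn : m = n ∨ Odd n ∧ m = 2 * n)
    (hn : ∀ l : ℕ, l.Prime → l ∣ n → ∃ j k : ℕ, n ∣ l ^ k * ((P : ZMod m).val ^ j + 1))
    (s : Multiset (ZMod m)) : IsTate P s ∧ s.sum = 0 ↔ Alg (curves P) s := by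
  obtain ⟨hp2, hP⟩ := exists_nat hm3 P
  constructor
  · rintro ⟨hs, hsum⟩
    refine algF_alg hP (algF_of_isTate hp2 hP hm3 hmn (fun l hl hln => ?_) hs hsum)
    obtain ⟨j, k, h⟩ := hn l hl hln
    refine ⟨j, k, ?_⟩
    have hnm : n ∣ m := by
      rcases hmn with rfl | ⟨_, rfl⟩
      · exact dvd_rfl
      · exact dvd_mul_left _ _
    have h1 : (P : ZMod m).val + m ≡ (P : ZMod m).val [MOD n] := by
      have h2 : m ≡ 0 [MOD n] := (Nat.modEq_zero_iff_dvd).2 hnm
      simpa using Nat.ModEq.add_left ((P : ZMod m).val) h2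
    have h3 := ((h1.pow j).add_right 1).mul_left (l ^ k)
    exact (Nat.ModEq.dvd_iff h3 dvd_rfl).2 h
  · intro h
    exact ⟨alg_isTate (fun u hu => hu.1) h, alg_sum_eq (fun u hu => curves_sum hu) h⟩

theorem hodge_sum {s : Multiset (ZMod m)} (h : IsHodge s) : s.sum = 0 := by
  obtain ⟨_, r, _, h2⟩ := h
  have h3 := congrArg (fun z : ℕ => (z : ZMod m)) (h2 1)
  simp only [Units.val_one, one_mul] at h3
  rw [Nat.cast_multiset_sum, Multiset.map_map] at h3
  have h4 : (Multiset.map (Nat.cast ∘ fun c : ZMod m => c.val) s) = s := by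
    conv_rhs => rw [← Multiset.map_id s]
    refine Multiset.map_congr rfl fun c _ => ?_
    simp
  rw [h4] at h3
  rw [h3]
  push_cast
  rw [ZMod.natCast_self, mul_zero]

theorem four_curves {u : Multiset (ZMod m)} (hu : u ∈ four m) : Alg (curves (1 : (ZMod m)ˣ)) u := by
  obtain ⟨hc, hu⟩ := hu
  obtain ⟨a, b, c, d, rfl⟩ := Multiset.card_eq_four.1 hc
  have hsum := hodge_sum hu
  have h0 := hu.1
  simp only [Multiset.insert_eq_cons, Multiset.mem_cons, Multiset.mem_singleton, not_or,
    Multiset.sum_cons, Multiset.sum_singleton] at h0 hsum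
  obtain ⟨ha, hb, hc', hd⟩ := h0
  by_cases hab : a + b = 0
  · have hb' : b = -a := by linear_combination hab
    have hd' : d = -c := by linear_combination hsum - hab
    subst hb' hd'
    have h := Alg.add (Alg.pair (T := curves (1 : (ZMod m)ˣ)) a (Ne.symm ha))
      (Alg.pair (T := curves (1 : (ZMod m)ˣ)) c (Ne.symm hc'))
    convert h using 1
    simp only [Multiset.insert_eq_cons, ← Multiset.singleton_add]
    abel
  · refine Alg.cancel (a + b) hab (Alg.base ⟨?_, a, b, -(a + b), c, d, a + b, by ring,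
      by linear_combination hsum, ?_⟩)
    · exact isTate_add (isTate_one.2 hu) (isTate_pair hab)
    · simp only [Multiset.insert_eq_cons, ← Multiset.singleton_add]
      abel

/-- The degrees of theorem B, for `P = 1`. -/
theorem hodge_curves (h : red m ∈ levels) (s : Multiset (ZMod m)) :
    IsTate (1 : (ZMod m)ˣ) s ∧ s.sum = 0 ↔ Alg (curves (1 : (ZMod m)ˣ)) s := by
  constructor
  · rintro ⟨hs, _⟩
    exact alg_le (fun u hu => four_curves hu) ((hodge_four h s).1 (isTate_one.1 hs))
  · intro h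
    exact ⟨alg_isTate (fun u hu => hu.1) h, alg_sum_eq (fun u hu => curves_sum hu) h⟩

/-- The degrees `n` and `2 n`. -/
theorem tate_curves' {n : ℕ} (hmn : m = n ∨ Odd n ∧ m = 2 * n)
    (hn : ∀ l : ℕ, l.Prime → l ∣ n → ∃ j k : ℕ, n ∣ l ^ k * ((P : ZMod m).val ^ j + 1))
    (s : Multiset (ZMod m)) : IsTate P s ∧ s.sum = 0 ↔ Alg (curves P) s := by
  by_cases hm3 : 3 ≤ m
  · exact tate_curves hm3 hmn hn s
  · have hm0 := NeZero.ne m
    have h12 : m = 1 ∨ m = 2 := by omega
    have h1 : P = 1 := by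
      rcases h12 with rfl | rfl
      · exact Subsingleton.elim _ _
      · exact Subsingleton.elim _ _
    subst h1
    refine hodge_curves (red_mem_levels (a := m - 1) (b := 0) (c := 0) (Or.inl ?_)) s
    rcases h12 with rfl | rfl <;> norm_num

theorem beta_add (a b : ℕ) (t : (ZMod m)ˣ) (v : A m) :
    beta P (a + b) t v = beta P a t v + beta P b (P ^ a * t) v := by
  have h : beta P (a + b) t = beta P a t + beta P b (P ^ a * t) := by
    refine Finsupp.addHom_ext' fun x => AddMonoidHom.ext_int ?_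
    change beta P (a + b) t (e x) = beta P a t (e x) + beta P b (P ^ a * t) (e x)
    rw [beta_e, beta_e, beta_e, sum_range_add]
    congr 1
    refine Finset.sum_congr rfl fun i _ => ?_
    have h1 : P ^ (a + i) * t = P ^ i * (P ^ a * t) := by
      rw [pow_add, mul_comm (P ^ a), mul_assoc]
    rw [h1]
  rw [h]
  rfl

theorem beta_mul_order {k : ℕ} (t : (ZMod m)ˣ) (v : A m) :
    beta P (k * orderOf P) t v = k * beta P (orderOf P) t v := by
  induction k with
  | zero =>
    rw [zero_mul, Nat.cast_zero, zero_mul]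
    have h := beta_add (P := P) 0 0 t v
    rw [add_zero, pow_zero, one_mul] at h
    linarith
  | succ k ih =>
    rw [add_mul, one_mul, beta_add, ih]
    have h1 : P ^ (k * orderOf P) = 1 := by rw [mul_comm, pow_mul, pow_orderOf_eq_one, one_pow]
    rw [h1, one_mul]
    push_cast
    ring

/-- The Gauss sums. -/
theorem tate_gauss {p : ℕ} (hp : p.Prime) (hpP : (p : ZMod m) = P)
    {F : Type*} [Field F] [Fintype F] [CharP F p] {K : Type*} [Field K] [CharZero K]
    (χ : MulChar F K) (hχ : orderOf χ = m) {ψ : AddChar F K} (hψ : ψ ≠ 1)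
    (s : Multiset (ZMod m)) :
    IsTate P s ↔ (0 : ZMod m) ∉ s ∧ ∃ r N : ℕ, s.card = 2 * r ∧ 0 < N ∧
      (s.map fun c => gaussSum (χ ^ c.val) ψ).prod ^ N = (Fintype.card F : K) ^ (r * N) := by
  have : Fact p.Prime := ⟨hp⟩
  let _ : Algebra (ZMod p) F := ZMod.algebra F p
  have hf0 : Module.finrank (ZMod p) F ≠ 0 := Module.finrank_pos.ne'
  obtain ⟨P', hP', hPf'⟩ := exists_frob hp χ hχ
  have hPP : P' = P := by
    apply Units.ext
    rw [← hP', hpP]
  subst hPP
  obtain ⟨k, hk⟩ := orderOf_dvd_of_pow_eq_one hPf'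
  have hk' : Module.finrank (ZMod p) F = k * orderOf P' := by rw [hk, mul_comm]
  have hk0 : k ≠ 0 := by
    rintro rfl
    rw [zero_mul] at hk'
    exact hf0 hk'
  have key : ∀ t : (ZMod m)ˣ, beta P' (Module.finrank (ZMod p) F) t (toA s) = 0 ↔
      beta P' (orderOf P') t (toA s) = 0 := by
    intro t
    rw [hk', beta_mul_order, mul_eq_zero]
    constructor
    · rintro (h | h)
      · exact absurd h (by exact_mod_cast hk0)
      · exact h
    · exact Or.inr
  rw [isTate_iff]
  constructor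
  · rintro ⟨h0, ⟨r, hr⟩, h⟩
    have hr2 : s.card = 2 * r := by omega
    obtain ⟨N, hN, h1⟩ := exists_relation χ hχ hψ h0 hr2 hpP fun t => (key t).2 (h t)
    exact ⟨h0, r, N, hr2, hN, h1⟩
  · rintro ⟨h0, r, N, hr, hN, h⟩
    exact ⟨h0, ⟨r, by omega⟩, fun t => (key t).1 (beta_eq_zero χ hχ hψ hr hN h hpP t)⟩

end General

end Pool.Agent.FermAll
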