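import Mathlib

/-!
# Certificates: the part about lists

The certificate proves that an odd function `F` which satisfies certain relations is additive.
-/

set_option autoImplicit false

namespace Pool.Agent.FermAll

open Finset

/-- the coefficient of `z ≤ n / 2` in the relation with the members `L` -/
def cf (n : ℕ) (L : List ℕ) (z : ℕ) : ℤ :=
  (L.map fun y => if y = z then (1 : ℤ) else if y + z = n then -1 else 0).sum

/-- relations: distribution relations, divisors on products of two Fermat curves, given triples -/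
inductive Rc
  | dist (l x : ℕ)
  | six (a b c d e f : ℕ)
  | gen (a b c : ℕ)

/-- the members of the relation -/
def Rc.lst (n : ℕ) : Rc → List ℕ
  | .dist l x => ((List.range l).map fun a => n / l * a + x) ++
      ((n - l * x) % n) :: if l = 2 then [n / 2] else []
  | .six a b c d e f => [a, b, c, d, e, f]
  | .gen a b c => [a, b, c]

/-- the condition of Tate; `pw` is the list of the powers of `P` -/
def tateB (n : ℕ) (pw : List ℕ) (L : List ℕ) (r : ℕ) : Bool :=
  (List.range n).all fun t => !(Nat.gcd t n == 1) ||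
    ((pw.map fun q => (L.map fun y => q * t * y % n).sum).sum == r * pw.length * n)

/-- all members are between `1` and `n - 1` -/
def posB (n : ℕ) (L : List ℕ) : Bool := L.all fun y => decide (0 < y ∧ y < n)

/-- the relation is valid -/
def Rc.ok (n : ℕ) (pw : List ℕ) (G : List (ℕ × ℕ × ℕ)) : Rc → Bool
  | .dist l x => [2, 3, 5, 7, 11, 13].contains l && decide (n % l = 0 ∧ x < n / l ∧ l * x % n ≠ 0)
  | .six a b c d e f => posB n [a, b, c, d, e, f] &&
      decide ((a + b + c) % n = 0 ∧ (d + e + f) % n = 0) && tateB n pw [a, b, c, d, e, f] 3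
  | .gen a b c => G.contains (a, b, c)

/-- the sum of the labels of the relation -/
def tot (n : ℕ) (ν : List ℤ) (L : List ℕ) : ℤ :=
  ((List.range (n / 2 + 1)).map fun z => cf n L z * ν.getD z 0).sum

/-- one step: all members of the relation but `c` are known -/
def stepB (n : ℕ) (ν : List ℤ) (K L : List ℕ) (c : ℕ) : Bool :=
  (L.all fun y => decide (y < n)) && decide (c ≤ n / 2) && ((cf n L c).natAbs == 1) &&
    ((List.range (n / 2 + 1)).all fun z => cf n L z == 0 || K.contains z || z == c) &&
    (tot n ν L == 0)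

/-- all steps -/
def run (n : ℕ) (pw : List ℕ) (G : List (ℕ × ℕ × ℕ)) (ν : List ℤ) :
    List (Rc × ℕ) → List ℕ → Bool
  | [], K => (List.range (n / 2 + 1)).all fun z => K.contains z
  | (r, c) :: S, K => r.ok n pw G && stepB n ν K (r.lst n) c && run n pw G ν S (c :: K)

section Sound

variable {n : ℕ} {W : Type*} [AddCommGroup W] {F : ℕ → W}

theorem cf_nil (z : ℕ) : cf n [] z = 0 := rfl

theorem cf_cons (y : ℕ) (L : List ℕ) (z : ℕ) : cf n (y :: L) z =
    (if y = z then (1 : ℤ) else if y + z = n then -1 else 0) + cf n L z := by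
  simp [cf]

theorem cf_sound (h0 : F 0 = 0) (hneg : ∀ z, 0 < z → z < n → F (n - z) = - F z) {L : List ℕ}
    (hL : ∀ y ∈ L, y < n) : (L.map F).sum = ∑ z ∈ range (n / 2 + 1), cf n L z • F z := by
  induction L with
  | nil => simp [cf_nil]
  | cons y L ih =>
    have hy : y < n := hL y List.mem_cons_self
    rw [List.map_cons, List.sum_cons, ih fun z hz => hL z (List.mem_cons_of_mem _ hz)]
    simp only [cf_cons, add_smul]
    rw [sum_add_distrib]
    congr 1
    by_cases h : y ≤ n / 2
    · rw [sum_eq_single y]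
      · rw [if_pos rfl, one_smul]
      · intro z hz hne
        rw [mem_range] at hz
        rw [if_neg (Ne.symm hne), if_neg (by omega), zero_smul]
      · intro h1
        exact absurd (mem_range.2 (by omega)) h1
    · rw [sum_eq_single (n - y)]
      · rw [if_neg (by omega), if_pos (by omega), hneg y (by omega) hy]
        simp
      · intro z hz hne
        rw [mem_range] at hz
        rw [if_neg (by omega), if_neg (by omega), zero_smul]
      · intro h1
        exact absurd (mem_range.2 (by omega)) h1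

theorem tot_eq (ν : List ℤ) (L : List ℕ) :
    tot n ν L = ∑ z ∈ range (n / 2 + 1), cf n L z * ν.getD z 0 := by
  rw [tot]
  generalize n / 2 + 1 = k
  induction k with
  | zero => simp
  | succ k ih => rw [List.range_succ, List.map_append, List.sum_append, ih, sum_range_succ]; simp

theorem step_sound (h0 : F 0 = 0) (hneg : ∀ z, 0 < z → z < n → F (n - z) = - F z) {ν : List ℤ}
    {u : W} {K L : List ℕ} {c : ℕ} (hK : ∀ z ∈ K, F z = ν.getD z 0 • u)
    (hL : (L.map F).sum = 0) (h : stepB n ν K L c = true) : F c = ν.getD c 0 • u := by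
  simp only [stepB, Bool.and_eq_true, List.all_eq_true, Bool.or_eq_true, beq_iff_eq,
    List.contains_iff_mem, decide_eq_true_eq, List.mem_range] at h
  obtain ⟨⟨⟨⟨h1, h2⟩, h3⟩, h4⟩, h5⟩ := h
  rw [cf_sound h0 hneg h1] at hL
  rw [tot_eq] at h5
  have h6 : ∑ z ∈ range (n / 2 + 1), cf n L z • (F z - ν.getD z 0 • u) = 0 := by
    simp only [smul_sub, sum_sub_distrib]
    rw [hL, zero_sub, neg_eq_zero]
    simp only [smul_smul]
    rw [← sum_smul, h5, zero_smul]
  rw [sum_eq_single c] at h6
  · rcases Int.natAbs_eq (cf n L c) with h7 | h7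
    · rw [h7, h3, Nat.cast_one, one_smul] at h6
      exact sub_eq_zero.1 h6
    · rw [h7, h3, Nat.cast_one, neg_smul, one_smul, neg_eq_zero] at h6
      exact sub_eq_zero.1 h6
  · intro z hz hne
    rw [mem_range] at hz
    rcases h4 z hz with (h | h) | h
    · rw [h, zero_smul]
    · rw [hK z h, sub_self, smul_zero]
    · exact absurd h hne
  · intro h
    exact absurd (mem_range.2 (by omega)) h

theorem run_sound {pw : List ℕ} {G : List (ℕ × ℕ × ℕ)} (h0 : F 0 = 0)
    (hneg : ∀ z, 0 < z → z < n → F (n - z) = - F z)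
    (hrel : ∀ r : Rc, r.ok n pw G = true → ((r.lst n).map F).sum = 0) {ν : List ℤ} {u : W}
    (S : List (Rc × ℕ)) : ∀ K : List ℕ, (∀ z ∈ K, F z = ν.getD z 0 • u) →
    run n pw G ν S K = true → ∀ z, z ≤ n / 2 → F z = ν.getD z 0 • u := by
  induction S with
  | nil =>
    intro K hK h z hz
    simp only [run, List.all_eq_true, List.contains_iff_mem, List.mem_range] at h
    exact hK z (h z (by omega))
  | cons s S ih =>
    obtain ⟨r, c⟩ := s
    intro K hK h
    simp only [run, Bool.and_eq_true] at h
    obtain ⟨⟨h1, h2⟩, h3⟩ := h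
    refine ih _ (fun z hz => ?_) h3
    rcases List.mem_cons.1 hz with rfl | hz
    · exact step_sound h0 hneg hK (hrel r h1) h2
    · exact hK z hz

/-- the greatest common divisor of the labels of the relations -/
def ordB (n : ℕ) (pw : List ℕ) (G : List (ℕ × ℕ × ℕ)) (ν : List ℤ) (O : List Rc) : Bool :=
  (O.all fun r => r.ok n pw G && (r.lst n).all fun y => decide (y < n)) &&
    (O.foldr (fun r g => Nat.gcd (tot n ν (r.lst n)).natAbs g) 0 == n)

theorem ord_sound {pw : List ℕ} {G : List (ℕ × ℕ × ℕ)} (h0 : F 0 = 0)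
    (hneg : ∀ z, 0 < z → z < n → F (n - z) = - F z)
    (hrel : ∀ r : Rc, r.ok n pw G = true → ((r.lst n).map F).sum = 0) {ν : List ℤ} {u : W}
    (hν : ∀ z, z ≤ n / 2 → F z = ν.getD z 0 • u) {O : List Rc} (h : ordB n pw G ν O = true) :
    n • u = 0 := by
  simp only [ordB, Bool.and_eq_true, List.all_eq_true, beq_iff_eq, decide_eq_true_eq] at h
  obtain ⟨h1, h2⟩ := h
  have key : ∀ O : List Rc, (∀ r ∈ O, r.ok n pw G = true ∧ ∀ y ∈ r.lst n, y < n) →
      addOrderOf u ∣ O.foldr (fun r g => Nat.gcd (tot n ν (r.lst n)).natAbs g) 0 := by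
    intro O
    induction O with
    | nil => intro _; exact dvd_zero _
    | cons r O ih =>
      intro h
      rw [List.foldr_cons]
      refine Nat.dvd_gcd ?_ (ih fun s hs => h s (List.mem_cons_of_mem _ hs))
      obtain ⟨h3, h4⟩ := h r List.mem_cons_self
      have h5 := hrel r h3
      rw [cf_sound h0 hneg h4] at h5
      have h6 : tot n ν (r.lst n) • u = 0 := by
        rw [tot_eq, sum_smul, ← h5]
        refine sum_congr rfl fun z hz => ?_
        rw [mem_range] at hz
        rw [hν z (by omega), smul_smul]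
      rw [← Int.natCast_dvd_natCast, Int.dvd_natAbs]
      exact addOrderOf_dvd_iff_zsmul_eq_zero.2 h6
  have h3 := key O h1
  rw [h2] at h3
  exact addOrderOf_dvd_iff_nsmul_eq_zero.1 h3

/-- The function is additive. -/
theorem add_sound {pw : List ℕ} {G : List (ℕ × ℕ × ℕ)} (h0 : F 0 = 0)
    (hneg : ∀ z, 0 < z → z < n → F (n - z) = - F z)
    (hrel : ∀ r : Rc, r.ok n pw G = true → ((r.lst n).map F).sum = 0) {ν : List ℤ}
    {S : List (Rc × ℕ)} {O : List Rc} (hν0 : ν.getD 0 0 = 0) (hν1 : ν.getD 1 0 = 1)
    (h1 : run n pw G ν S [0, 1] = true) (h2 : ordB n pw G ν O = true)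
    (h3 : ((List.range (n / 2 + 1)).all fun z => (ν.getD z 0 - z) % n == 0) = true) :
    n • F 1 = 0 ∧ ∀ z, z < n → F z = z • F 1 := by
  have h4 := run_sound h0 hneg hrel (u := F 1) S [0, 1] (fun z hz => by
    simp only [List.mem_cons, List.not_mem_nil, or_false] at hz
    rcases hz with rfl | rfl
    · rw [hν0, zero_smul, h0]
    · rw [hν1, one_smul]) h1
  have h5 := ord_sound h0 hneg hrel h4 h2
  have h6 : ∀ z, z ≤ n / 2 → F z = z • F 1 := by
    intro z hz
    rw [h4 z hz]
    simp only [List.all_eq_true, beq_iff_eq, List.mem_range] at h3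
    obtain ⟨k, hk⟩ := Int.dvd_of_emod_eq_zero (h3 z (by omega))
    have h7 : ν.getD z 0 = z + n * k := by linarith
    rw [h7, add_smul, mul_comm, mul_smul, natCast_zsmul, natCast_zsmul, h5, smul_zero, add_zero]
  refine ⟨h5, fun z hz => ?_⟩
  by_cases h7 : z ≤ n / 2
  · exact h6 z h7
  · have h8 := hneg z (by omega) hz
    have h9 : F z = - F (n - z) := by rw [h8, neg_neg]
    rw [h9, h6 (n - z) (by omega), sub_nsmul _ hz.le, h5, zero_add, neg_neg]

end Sound

end Pool.Agent.FermAll
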