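import Pool.Agent.FermAll.Data1
import Pool.Agent.FermAll.Data2
import Pool.Agent.FermAll.Data3
import Pool.Agent.FermAll.Data4
import Pool.Agent.FermAll.Data5
import Pool.Agent.FermAll.Data6
import Pool.Agent.FermT.Final

/-!
# All characteristics for small degrees
-/

set_option autoImplicit false

namespace Pool.Agent.FermAll

open Finset Pool.Stick Pool.Agent.FermD

variable {m : ℕ} [NeZero m] {P : (ZMod m)ˣ}

theorem tate_case (h : CaseA P ∨ CaseB P) (s : Multiset (ZMod m)) :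
    IsTate P s ∧ s.sum = 0 ↔ Alg (curves P) s := by
  rcases h with ⟨rfl, _, _, _, h⟩ | ⟨n, hmn, hn⟩
  · exact hodge_curves (red_mem_levels h) s
  · exact tate_curves' hmn hn s

/-- powers of primes and twice odd powers of primes -/
theorem tate_pp {l k : ℕ} (hl : l.Prime) (hm : m = l ^ k ∨ l ≠ 2 ∧ m = 2 * l ^ k)
    (P : (ZMod m)ˣ) (s : Multiset (ZMod m)) : IsTate P s ∧ s.sum = 0 ↔ Alg (curves P) s := by
  refine tate_case (Or.inr ⟨l ^ k, ?_, fun l' hl' h => ?_⟩) s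
  · rcases hm with hm | ⟨h2, hm⟩
    · exact Or.inl hm
    · exact Or.inr ⟨(hl.odd_of_ne_two h2).pow, hm⟩
  · have h1 : l' = l := (Nat.prime_dvd_prime_iff_eq hl' hl).1 (hl'.dvd_of_dvd_pow h)
    subst h1
    exact ⟨0, k, dvd_mul_right _ _⟩

theorem tate_cert {L : List ℕ} (hL : ∀ p ∈ L, HasCert m p) (P : (ZMod m)ˣ)
    (h : (P : ZMod m).val ∈ L) (s : Multiset (ZMod m)) :
    IsTate P s ∧ s.sum = 0 ↔ Alg (curves P) s := by
  obtain ⟨f, E, T, Rp, ν, S, O, h1⟩ := hL _ h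
  exact tate_of_cert (ZMod.natCast_zmod_val _) h1 s

/-- the condition `b` for a number -/
theorem tate_b {n p : ℕ} (hn : n.primeFactorsList.all (fun l => (List.range 4).any fun j =>
    (List.range 4).any fun k => decide (n ∣ l ^ k * (p ^ j + 1))) = true)
    (P : (ZMod n)ˣ) [NeZero n] (hP : (P : ZMod n).val = p) (s : Multiset (ZMod n)) :
    IsTate P s ∧ s.sum = 0 ↔ Alg (curves P) s := by
  refine tate_case (Or.inr ⟨n, Or.inl rfl, fun l hl hln => ?_⟩) s
  have h1 := List.all_eq_true.1 hn l ((Nat.mem_primeFactorsList (NeZero.ne n)).2 ⟨hl, hln⟩)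
  obtain ⟨j, _, h2⟩ := List.any_eq_true.1 h1
  obtain ⟨k, _, h3⟩ := List.any_eq_true.1 h2
  rw [decide_eq_true_eq] at h3
  rw [hP]
  exact ⟨j, k, h3⟩

theorem tate_12 (P : (ZMod 12)ˣ) (s : Multiset (ZMod 12)) :
    IsTate P s ∧ s.sum = 0 ↔ Alg (curves P) s := by
  have h1 := ZMod.val_lt (P : ZMod 12)
  have h2 := ZMod.val_coe_unit_coprime P
  have key : ∀ p < 12, Nat.Coprime p 12 → p ∈ ([1, 5, 7, 11] : List ℕ) := by decide +kernel
  exact tate_cert certs_12 P (key _ h1 h2) s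

theorem tate_15 (P : (ZMod 15)ˣ) (s : Multiset (ZMod 15)) :
    IsTate P s ∧ s.sum = 0 ↔ Alg (curves P) s := by
  have h1 := ZMod.val_lt (P : ZMod 15)
  have h2 := ZMod.val_coe_unit_coprime P
  have key : ∀ p < 15, Nat.Coprime p 15 → p ∈ ([1, 2, 4, 7, 8, 11, 13, 14] : List ℕ) := by decide +kernel
  exact tate_cert certs_15 P (key _ h1 h2) s

theorem tate_20 (P : (ZMod 20)ˣ) (s : Multiset (ZMod 20)) :
    IsTate P s ∧ s.sum = 0 ↔ Alg (curves P) s := by
  have h1 := ZMod.val_lt (P : ZMod 20)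
  have h2 := ZMod.val_coe_unit_coprime P
  have key : ∀ p < 20, Nat.Coprime p 20 → p ∈ ([1, 9, 11, 13, 17, 19] : List ℕ) ∨ p = 3 ∨ p = 7 := by
    decide +kernel
  rcases key _ h1 h2 with h | h | h
  · exact tate_cert certs_20 P h s
  · exact tate_b (by decide +kernel) P h s
  · exact tate_b (by decide +kernel) P h s

theorem tate_21 (P : (ZMod 21)ˣ) (s : Multiset (ZMod 21)) :
    IsTate P s ∧ s.sum = 0 ↔ Alg (curves P) s := by
  have h1 := ZMod.val_lt (P : ZMod 21)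
  have h2 := ZMod.val_coe_unit_coprime P
  have key : ∀ p < 21, Nat.Coprime p 21 → p ∈ ([1, 2, 4, 5, 8, 10, 11, 13, 16, 17, 19, 20] : List ℕ) := by decide +kernel
  exact tate_cert certs_21 P (key _ h1 h2) s

theorem tate_24 (P : (ZMod 24)ˣ) (s : Multiset (ZMod 24)) :
    IsTate P s ∧ s.sum = 0 ↔ Alg (curves P) s := by
  have h1 := ZMod.val_lt (P : ZMod 24)
  have h2 := ZMod.val_coe_unit_coprime P
  have key : ∀ p < 24, Nat.Coprime p 24 → p ∈ ([1, 5, 7, 11, 13, 17, 19, 23] : List ℕ) := by decide +kernel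
  exact tate_cert certs_24 P (key _ h1 h2) s

theorem tate_28 (P : (ZMod 28)ˣ) (s : Multiset (ZMod 28)) :
    IsTate P s ∧ s.sum = 0 ↔ Alg (curves P) s := by
  have h1 := ZMod.val_lt (P : ZMod 28)
  have h2 := ZMod.val_coe_unit_coprime P
  have key : ∀ p < 28, Nat.Coprime p 28 → p ∈ ([1, 3, 5, 9, 11, 13, 15, 17, 19, 23, 25, 27] : List ℕ) := by decide +kernel
  exact tate_cert certs_28 P (key _ h1 h2) s

theorem tate_30 (P : (ZMod 30)ˣ) (s : Multiset (ZMod 30)) :
    IsTate P s ∧ s.sum = 0 ↔ Alg (curves P) s := by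
  have h1 := ZMod.val_lt (P : ZMod 30)
  have h2 := ZMod.val_coe_unit_coprime P
  have key : ∀ p < 30, Nat.Coprime p 30 → p ∈ ([1, 7, 11, 13, 17, 19, 23, 29] : List ℕ) := by decide +kernel
  exact tate_cert certs_30 P (key _ h1 h2) s

theorem tate_36 (P : (ZMod 36)ˣ) (s : Multiset (ZMod 36)) :
    IsTate P s ∧ s.sum = 0 ↔ Alg (curves P) s := by
  have h1 := ZMod.val_lt (P : ZMod 36)
  have h2 := ZMod.val_coe_unit_coprime P
  have key : ∀ p < 36, Nat.Coprime p 36 → p ∈ ([1, 5, 7, 11, 13, 17, 19, 23, 25, 29, 31, 35] : List ℕ) := by decide +kernel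
  exact tate_cert certs_36 P (key _ h1 h2) s

theorem tate_39 (P : (ZMod 39)ˣ) (s : Multiset (ZMod 39)) :
    IsTate P s ∧ s.sum = 0 ↔ Alg (curves P) s := by
  have h1 := ZMod.val_lt (P : ZMod 39)
  have h2 := ZMod.val_coe_unit_coprime P
  have key : ∀ p < 39, Nat.Coprime p 39 → p ∈ ([1, 2, 4, 7, 10, 11, 14, 16, 17, 19, 20, 22, 23, 25, 28, 29, 31, 32, 34, 35, 37, 38] : List ℕ) ∨ p = 5 ∨ p = 8 := by
    decide +kernel
  rcases key _ h1 h2 with h | h | h
  · exact tate_cert certs_39 P h s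
  · exact tate_b (by decide +kernel) P h s
  · exact tate_b (by decide +kernel) P h s

theorem tate_42 (P : (ZMod 42)ˣ) (s : Multiset (ZMod 42)) :
    IsTate P s ∧ s.sum = 0 ↔ Alg (curves P) s := by
  have h1 := ZMod.val_lt (P : ZMod 42)
  have h2 := ZMod.val_coe_unit_coprime P
  have key : ∀ p < 42, Nat.Coprime p 42 → p ∈ ([1, 5, 11, 13, 17, 19, 23, 25, 29, 31, 37, 41] : List ℕ) := by decide +kernel
  exact tate_cert certs_42 P (key _ h1 h2) s

theorem tate_60 (P : (ZMod 60)ˣ) (s : Multiset (ZMod 60)) :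
    IsTate P s ∧ s.sum = 0 ↔ Alg (curves P) s := by
  have h1 := ZMod.val_lt (P : ZMod 60)
  have h2 := ZMod.val_coe_unit_coprime P
  have key : ∀ p < 60, Nat.Coprime p 60 → p ∈ ([1, 7, 11, 13, 17, 19, 23, 29, 31, 37, 41, 43, 47, 49, 53, 59] : List ℕ) := by decide +kernel
  exact tate_cert certs_60 P (key _ h1 h2) s

/-- All characteristics for small degrees. -/
theorem tate_small (hm : CaseC m) (P : (ZMod m)ˣ) (s : Multiset (ZMod m)) : IsTate P s ∧ s.sum = 0 ↔ Alg (curves P) s := by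
  have hm0 := NeZero.ne m
  rcases hm with hm | hm
  · exact FermT.tate_fam P hm s
  have h : m = 1 ∨ m = 2 ∨ m = 3 ∨ m = 4 ∨ m = 5 ∨ m = 6 ∨ m = 7 ∨ m = 8 ∨ m = 9 ∨ m = 10 ∨ m = 11 ∨ m = 12 ∨ m = 13 ∨ m = 14 ∨ m = 15 ∨ m = 16 ∨ m = 17 ∨ m = 18 ∨ m = 19 ∨ m = 20 ∨ m = 21 ∨ m = 22 ∨ m = 23 ∨ m = 24 ∨ m = 25 ∨ m = 26 ∨ m = 27 ∨ m = 28 ∨ m = 29 ∨ m = 30 ∨ m = 31 ∨ m = 32 ∨ m = 39 ∨ m = 42 ∨ m = 60 := by
    omega
  rcases h with rfl | rfl | rfl | rfl | rfl | rfl | rfl | rfl | rfl | rfl | rfl | rfl | rfl | rfl | rfl | rfl | rfl | rfl | rfl | rfl | rfl | rfl | rfl | rfl | rfl | rfl | rfl | rfl | rfl | rfl | rfl | rfl | rfl | rfl | rfl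
  · exact tate_pp (l := 2) (k := 0) (by norm_num) (Or.inl (by norm_num)) P s
  · exact tate_pp (l := 2) (k := 1) (by norm_num) (Or.inl (by norm_num)) P s
  · exact tate_pp (l := 3) (k := 1) (by norm_num) (Or.inl (by norm_num)) P s
  · exact tate_pp (l := 2) (k := 2) (by norm_num) (Or.inl (by norm_num)) P s
  · exact tate_pp (l := 5) (k := 1) (by norm_num) (Or.inl (by norm_num)) P s
  · exact tate_pp (l := 3) (k := 1) (by norm_num) (Or.inr ⟨by norm_num, by norm_num⟩) P s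
  · exact tate_pp (l := 7) (k := 1) (by norm_num) (Or.inl (by norm_num)) P s
  · exact tate_pp (l := 2) (k := 3) (by norm_num) (Or.inl (by norm_num)) P s
  · exact tate_pp (l := 3) (k := 2) (by norm_num) (Or.inl (by norm_num)) P s
  · exact tate_pp (l := 5) (k := 1) (by norm_num) (Or.inr ⟨by norm_num, by norm_num⟩) P s
  · exact tate_pp (l := 11) (k := 1) (by norm_num) (Or.inl (by norm_num)) P s
  · exact tate_12 P s
  · exact tate_pp (l := 13) (k := 1) (by norm_num) (Or.inl (by norm_num)) P s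
  · exact tate_pp (l := 7) (k := 1) (by norm_num) (Or.inr ⟨by norm_num, by norm_num⟩) P s
  · exact tate_15 P s
  · exact tate_pp (l := 2) (k := 4) (by norm_num) (Or.inl (by norm_num)) P s
  · exact tate_pp (l := 17) (k := 1) (by norm_num) (Or.inl (by norm_num)) P s
  · exact tate_pp (l := 3) (k := 2) (by norm_num) (Or.inr ⟨by norm_num, by norm_num⟩) P s
  · exact tate_pp (l := 19) (k := 1) (by norm_num) (Or.inl (by norm_num)) P s
  · exact tate_20 P s
  · exact tate_21 P s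
  · exact tate_pp (l := 11) (k := 1) (by norm_num) (Or.inr ⟨by norm_num, by norm_num⟩) P s
  · exact tate_pp (l := 23) (k := 1) (by norm_num) (Or.inl (by norm_num)) P s
  · exact tate_24 P s
  · exact tate_pp (l := 5) (k := 2) (by norm_num) (Or.inl (by norm_num)) P s
  · exact tate_pp (l := 13) (k := 1) (by norm_num) (Or.inr ⟨by norm_num, by norm_num⟩) P s
  · exact tate_pp (l := 3) (k := 3) (by norm_num) (Or.inl (by norm_num)) P s
  · exact tate_28 P s
  · exact tate_pp (l := 29) (k := 1) (by norm_num) (Or.inl (by norm_num)) P s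
  · exact tate_30 P s
  · exact tate_pp (l := 31) (k := 1) (by norm_num) (Or.inl (by norm_num)) P s
  · exact tate_pp (l := 2) (k := 5) (by norm_num) (Or.inl (by norm_num)) P s
  · exact tate_39 P s
  · exact tate_42 P s
  · exact tate_60 P s

omit [NeZero m] in
theorem caseC_of_degrees (hm : m ∈ degrees) : CaseC m := by
  have h : ∀ n ∈ degrees, n = 36 ∨ n < 33 ∨ n = 39 ∨ n = 42 ∨ n = 60 := by decide
  rcases h m hm with h | h
  · exact Or.inl ⟨2, 0, Or.inr (Or.inr (by rw [h]; norm_num))⟩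
  · exact Or.inr h

end Pool.Agent.FermAll
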