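import Pool.Agent.FermAll.Main

/-!
# All types of complex multiplication by certain cyclotomic fields come from Fermat curves
-/

set_option autoImplicit false

namespace Pool.Agent.FermAll

open Finset Pool.Stick Pool.Agent.FermD

/-- the sum of the residues of `t x`, `t y`, `t z` modulo `m` -/
def vsum (m t : ℕ) (p : ℕ × ℕ × ℕ) : ℕ := t * p.1 % m + t * p.2.1 % m + t * p.2.2 % m

/-- each function `T → {0, 1}` is given by one of the triples in `L` -/
def cover (m : ℕ) : List ℕ → List (ℕ × ℕ × ℕ) → Bool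
  | [], L => !L.isEmpty
  | t :: T, L => cover m T (L.filter fun p => vsum m t p == m) &&
      cover m T (L.filter fun p => vsum m t p == 2 * m)

/-- the certificate: `T` is a half-system of units and `L` a list of triples with sum zero -/
def types (m : ℕ) (T : List ℕ) (L : List (ℕ × ℕ × ℕ)) : Bool :=
  cover m T L &&
  ((L.all fun p => decide (0 < p.1 ∧ p.1 < m ∧ 0 < p.2.1 ∧ p.2.1 < m ∧ 0 < p.2.2 ∧ p.2.2 < m ∧
    (p.1 + p.2.1 + p.2.2) % m = 0)) &&
  ((List.range m).all fun t => decide (Nat.gcd t m = 1 → t ∈ T ∨ m - t ∈ T)))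

theorem cover_spec {m : ℕ} : ∀ (T : List ℕ) (L : List (ℕ × ℕ × ℕ)), cover m T L = true →
    ∀ a : ℕ → ℕ, (∀ t ∈ T, a t = 0 ∨ a t = 1) → ∃ p ∈ L, ∀ t ∈ T, vsum m t p = (a t + 1) * m
  | [], L, h, a, _ => by
    cases L with
    | nil => simp [cover] at h
    | cons p L => exact ⟨p, List.mem_cons_self, fun t ht => absurd ht List.not_mem_nil⟩
  | t :: T, L, h, a, ha => by
    rw [cover, Bool.and_eq_true] at h
    have haT : ∀ u ∈ T, a u = 0 ∨ a u = 1 := fun u hu => ha u (List.mem_cons_of_mem _ hu)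
    rcases ha t List.mem_cons_self with h0 | h1
    · obtain ⟨p, hp, h2⟩ := cover_spec T _ h.1 a haT
      rw [List.mem_filter, beq_iff_eq] at hp
      refine ⟨p, hp.1, fun u hu => ?_⟩
      rcases List.mem_cons.1 hu with rfl | hu
      · rw [hp.2, h0, zero_add, one_mul]
      · exact h2 u hu
    · obtain ⟨p, hp, h2⟩ := cover_spec T _ h.2 a haT
      rw [List.mem_filter, beq_iff_eq] at hp
      refine ⟨p, hp.1, fun u hu => ?_⟩
      rcases List.mem_cons.1 hu with rfl | hu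
      · rw [hp.2, h1]
      · exact h2 u hu

variable {m : ℕ} [NeZero m]

theorem exists_triple (hm : 2 < m) {T : List ℕ} {L : List (ℕ × ℕ × ℕ)} (h : types m T L = true)
    {a : (ZMod m)ˣ → ℕ} (ha : ∀ t, a t + a (-t) = 1) :
    ∃ x y z : ZMod m, x ≠ 0 ∧ y ≠ 0 ∧ z ≠ 0 ∧ x + y + z = 0 ∧ ∀ t : (ZMod m)ˣ,
      ((t : ZMod m) * x).val + ((t : ZMod m) * y).val + ((t : ZMod m) * z).val =
        (a t + 1) * m := by
  rw [types, Bool.and_eq_true, Bool.and_eq_true] at h
  obtain ⟨h1, h2, h3⟩ := h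
  have hval : Function.Injective fun u : (ZMod m)ˣ => (u : ZMod m).val := fun u v huv =>
    Units.ext (ZMod.val_injective m huv)
  -- the function on the natural numbers
  let b : ℕ → ℕ := fun k => if h : ∃ u : (ZMod m)ˣ, (u : ZMod m).val = k then a h.choose else 0
  have hb : ∀ u : (ZMod m)ˣ, b (u : ZMod m).val = a u := by
    intro u
    have h : ∃ v : (ZMod m)ˣ, (v : ZMod m).val = (u : ZMod m).val := ⟨u, rfl⟩
    change (if h : ∃ v : (ZMod m)ˣ, (v : ZMod m).val = (u : ZMod m).val then a h.choose else 0) = _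
    rw [dif_pos h]
    congr 1
    exact hval h.choose_spec
  have hb1 : ∀ k, b k = 0 ∨ b k = 1 := by
    intro k
    change (if h : ∃ v : (ZMod m)ˣ, (v : ZMod m).val = k then a h.choose else 0) = 0 ∨
      (if h : ∃ v : (ZMod m)ˣ, (v : ZMod m).val = k then a h.choose else 0) = 1
    split_ifs with h
    · have := ha h.choose
      omega
    · exact Or.inl rfl
  obtain ⟨⟨x, y, z⟩, hp, hT⟩ := cover_spec T L h1 b fun t _ => hb1 t
  have h4 := List.all_eq_true.1 h2 _ hp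
  rw [decide_eq_true_eq] at h4
  obtain ⟨hx0, hxm, hy0, hym, hz0, hzm, hs⟩ : 0 < x ∧ x < m ∧ 0 < y ∧ y < m ∧ 0 < z ∧ z < m ∧
    (x + y + z) % m = 0 := h4
  have hne : ∀ {x : ℕ}, 0 < x → x < m → (x : ZMod m) ≠ 0 := by
    intro x h0 hm h
    rw [ZMod.natCast_eq_zero_iff] at h
    exact absurd (Nat.le_of_dvd h0 h) (by omega)
  have hv : ∀ (t : (ZMod m)ˣ) {x : ℕ}, x < m →
      ((t : ZMod m) * (x : ZMod m)).val = (t : ZMod m).val * x % m := by
    intro t x hx
    rw [ZMod.val_mul, ZMod.val_natCast, Nat.mod_eq_of_lt hx]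
  -- the values on the half-system
  have key : ∀ t : (ZMod m)ˣ, (t : ZMod m).val ∈ T →
      ((t : ZMod m) * (x : ZMod m)).val + ((t : ZMod m) * (y : ZMod m)).val +
        ((t : ZMod m) * (z : ZMod m)).val = (a t + 1) * m := by
    intro t ht
    have h5 := hT _ ht
    rw [hb] at h5
    rw [hv t hxm, hv t hym, hv t hzm]
    exact h5
  refine ⟨x, y, z, hne hx0 hxm, hne hy0 hym, hne hz0 hzm, ?_, fun t => ?_⟩
  · have h5 : ((x + y + z : ℕ) : ZMod m) = 0 := by
      rw [ZMod.natCast_eq_zero_iff]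
      exact Nat.dvd_of_mod_eq_zero hs
    rw [← h5]
    push_cast
    ring
  · have h5 := List.all_eq_true.1 h3 (t : ZMod m).val (List.mem_range.2 (ZMod.val_lt _))
    rw [decide_eq_true_eq] at h5
    rcases h5 (ZMod.val_coe_unit_coprime t) with h6 | h6
    · exact key t h6
    · have hneg : ((-t : (ZMod m)ˣ) : ZMod m).val = m - (t : ZMod m).val := by
        have : NeZero (t : ZMod m) := ⟨by
          have : Fact (1 < m) := ⟨by omega⟩
          exact t.ne_zero⟩
        rw [Units.val_neg, ZMod.val_neg_of_ne_zero]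
      have h7 := key (-t) (by rw [hneg]; exact h6)
      have hn : ∀ {x : ℕ}, 0 < x → x < m →
          (((-t : (ZMod m)ˣ) : ZMod m) * (x : ZMod m)).val =
            m - ((t : ZMod m) * (x : ZMod m)).val := by
        intro x h0 hx
        have : NeZero ((t : ZMod m) * (x : ZMod m)) := ⟨fun h => hne h0 hx (by
          rwa [Units.mul_right_eq_zero] at h)⟩
        rw [Units.val_neg, neg_mul, ZMod.val_neg_of_ne_zero]
      rw [hn hx0 hxm, hn hy0 hym, hn hz0 hzm] at h7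
      have h8 := ha t
      have l1 := ZMod.val_lt ((t : ZMod m) * (x : ZMod m))
      have l2 := ZMod.val_lt ((t : ZMod m) * (y : ZMod m))
      have l3 := ZMod.val_lt ((t : ZMod m) * (z : ZMod m))
      have h9 : a t = 0 ∧ a (-t) = 1 ∨ a t = 1 ∧ a (-t) = 0 := by omega
      rcases h9 with ⟨h9, h10⟩ | ⟨h9, h10⟩
      · rw [h10] at h7
        rw [h9]
        omega
      · rw [h10] at h7
        rw [h9]
        omega

theorem types_3 : types 3 [1]
    [(1, 1, 1), (2, 2, 2)] = true := by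
  decide +kernel

theorem types_4 : types 4 [1]
    [(1, 1, 2), (2, 3, 3)] = true := by
  decide +kernel

theorem types_5 : types 5 [1, 2]
    [(1, 1, 3), (1, 2, 2), (3, 3, 4), (2, 4, 4)] = true := by
  decide +kernel

theorem types_6 : types 6 [1]
    [(1, 1, 4), (2, 5, 5)] = true := by
  decide +kernel

theorem types_7 : types 7 [1, 2, 3]
    [(1, 1, 5), (1, 2, 4), (1, 3, 3), (2, 2, 3), (4, 5, 5), (4, 4, 6), (3, 5, 6),
     (2, 6, 6)] = true := by
  decide +kernel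

theorem types_8 : types 8 [1, 3]
    [(1, 1, 6), (1, 2, 5), (3, 6, 7), (2, 7, 7)] = true := by
  decide +kernel

theorem types_9 : types 9 [1, 2, 4]
    [(1, 1, 7), (1, 2, 6), (3, 3, 3), (1, 4, 4), (5, 5, 8), (6, 6, 6), (3, 7, 8),
     (2, 8, 8)] = true := by
  decide +kernel

theorem types_10 : types 10 [1, 3]
    [(1, 1, 8), (1, 3, 6), (4, 7, 9), (2, 9, 9)] = true := by
  decide +kernel

theorem types_12 : types 12 [1, 5]
    [(1, 1, 10), (1, 2, 9), (3, 10, 11), (2, 11, 11)] = true := by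
  decide +kernel

theorem types_14 : types 14 [1, 3, 5]
    [(1, 1, 12), (1, 2, 11), (1, 4, 9), (2, 4, 8), (6, 10, 12), (5, 10, 13), (3, 12, 13),
     (2, 13, 13)] = true := by
  decide +kernel

theorem types_15 : types 15 [1, 2, 4, 7]
    [(1, 1, 13), (1, 2, 12), (1, 3, 11), (2, 2, 11), (5, 5, 5), (4, 4, 7), (1, 7, 7), (2, 6, 7),
     (8, 9, 13), (8, 8, 14), (8, 11, 11), (10, 10, 10), (4, 13, 13), (4, 12, 14), (3, 13, 14),
     (2, 14, 14)] = true := by
  decide +kernel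

theorem types_16 : types 16 [1, 3, 5, 7]
    [(1, 1, 14), (1, 2, 13), (1, 3, 12), (1, 6, 9), (1, 5, 10), (2, 4, 10), (3, 3, 10),
     (2, 5, 9), (7, 11, 14), (6, 13, 13), (6, 12, 14), (6, 11, 15), (4, 14, 14), (4, 13, 15),
     (3, 14, 15), (2, 15, 15)] = true := by
  decide +kernel

theorem types_18 : types 18 [1, 5, 7]
    [(1, 1, 16), (1, 2, 15), (1, 3, 14), (1, 7, 10), (4, 16, 16), (4, 15, 17), (3, 16, 17),
     (2, 17, 17)] = true := by
  decide +kernel

theorem types_20 : types 20 [1, 3, 7, 9]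
    [(1, 1, 18), (1, 4, 15), (1, 5, 14), (1, 2, 17), (3, 5, 12), (1, 6, 13), (5, 5, 10),
     (2, 5, 13), (7, 15, 18), (10, 15, 15), (7, 14, 19), (8, 15, 17), (3, 18, 19), (6, 15, 19),
     (5, 16, 19), (2, 19, 19)] = true := by
  decide +kernel

theorem types_22 : types 22 [1, 3, 5, 7, 9]
    [(1, 1, 20), (1, 2, 19), (1, 3, 18), (1, 9, 12), (1, 8, 13), (1, 4, 17), (3, 3, 16),
     (2, 3, 17), (5, 7, 10), (1, 7, 14), (3, 5, 14), (2, 6, 14), (4, 5, 13), (2, 7, 13),
     (3, 6, 13), (3, 7, 12), (10, 15, 19), (9, 16, 19), (8, 18, 18), (9, 17, 18), (8, 16, 20),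
     (8, 17, 19), (8, 15, 21), (12, 15, 17), (5, 19, 20), (6, 19, 19), (5, 18, 21), (9, 14, 21),
     (4, 20, 20), (4, 19, 21), (3, 20, 21), (2, 21, 21)] = true := by
  decide +kernel

theorem types_24 : types 24 [1, 5, 7, 11]
    [(1, 1, 22), (1, 2, 21), (1, 3, 20), (1, 6, 17), (1, 9, 14), (1, 4, 19), (3, 3, 18),
     (2, 3, 19), (5, 21, 22), (6, 21, 21), (5, 20, 23), (10, 15, 23), (4, 22, 22), (4, 21, 23),
     (3, 22, 23), (2, 23, 23)] = true := by
  decide +kernel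

theorem types_30 : types 30 [1, 7, 11, 13]
    [(1, 1, 28), (1, 6, 23), (1, 5, 24), (1, 2, 27), (1, 12, 17), (1, 4, 25), (1, 8, 21),
     (2, 4, 24), (6, 26, 28), (9, 22, 29), (5, 26, 29), (6, 27, 27), (3, 28, 29), (6, 25, 29),
     (7, 24, 29), (2, 29, 29)] = true := by
  decide +kernel

theorem types_36 : types 36 [1, 5, 7, 11, 13, 17]
    [(1, 1, 34), (1, 4, 31), (1, 11, 24), (1, 2, 33), (1, 3, 32), (1, 6, 29), (1, 13, 22),
     (1, 16, 19), (1, 15, 20), (1, 10, 25), (1, 5, 30), (2, 4, 30), (3, 3, 30), (2, 9, 25),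
     (5, 9, 22), (2, 5, 29), (1, 7, 28), (1, 14, 21), (7, 7, 22), (2, 7, 27), (3, 7, 26),
     (2, 6, 28), (7, 13, 16), (2, 13, 21), (5, 14, 17), (2, 14, 20), (5, 7, 24), (4, 5, 27),
     (3, 5, 28), (3, 14, 19), (5, 5, 26), (4, 13, 19), (17, 23, 32), (10, 31, 31), (11, 30, 31),
     (8, 31, 33), (9, 31, 32), (12, 29, 31), (8, 32, 32), (16, 27, 29), (15, 23, 34),
     (20, 23, 29), (8, 30, 34), (10, 29, 33), (9, 29, 34), (14, 29, 29), (13, 29, 30),
     (8, 29, 35), (7, 31, 34), (14, 27, 31), (7, 32, 33), (6, 33, 33), (6, 32, 34), (6, 31, 35),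
     (11, 26, 35), (16, 21, 35), (4, 34, 34), (14, 23, 35), (5, 33, 34), (4, 33, 35),
     (3, 34, 35), (12, 25, 35), (5, 32, 35), (2, 35, 35)] = true := by
  decide +kernel

theorem types_42 : types 42 [1, 5, 11, 13, 17, 19]
    [(1, 1, 40), (1, 13, 28), (1, 14, 27), (1, 2, 39), (5, 9, 28), (1, 6, 35), (1, 9, 32),
     (2, 12, 28), (10, 14, 18), (1, 11, 30), (1, 7, 34), (2, 14, 26), (1, 3, 38), (3, 11, 28),
     (9, 14, 19), (1, 19, 22), (5, 14, 23), (1, 8, 33), (4, 7, 31), (4, 14, 24), (1, 16, 25),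
     (6, 8, 28), (12, 14, 16), (2, 8, 32), (5, 7, 30), (13, 14, 15), (7, 7, 28), (2, 7, 33),
     (3, 14, 25), (2, 15, 25), (3, 7, 32), (6, 14, 22), (20, 28, 36), (10, 35, 39), (9, 36, 39),
     (17, 28, 39), (9, 35, 40), (14, 35, 35), (27, 28, 29), (12, 35, 37), (10, 34, 40),
     (26, 28, 30), (14, 34, 36), (10, 37, 37), (18, 28, 38), (11, 35, 38), (9, 34, 41),
     (19, 28, 37), (4, 40, 40), (23, 28, 33), (14, 31, 39), (4, 39, 41), (16, 28, 40),
     (8, 35, 41), (12, 31, 41), (24, 28, 32), (14, 30, 40), (10, 33, 41), (7, 36, 41),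
     (14, 33, 37), (3, 40, 41), (15, 28, 41), (14, 29, 41), (2, 41, 41)] = true := by
  decide +kernel

theorem exists_types : ∀ n ∈ degrees, ∃ T L, types n T L = true := by
  intro n hn
  simp only [degrees, Finset.mem_insert, Finset.mem_singleton] at hn
  rcases hn with rfl | rfl | rfl | rfl | rfl | rfl | rfl | rfl | rfl | rfl | rfl | rfl | rfl |
    rfl | rfl | rfl | rfl | rfl | rfl
  exacts [⟨_, _, types_3⟩, ⟨_, _, types_4⟩, ⟨_, _, types_5⟩, ⟨_, _, types_6⟩, ⟨_, _, types_7⟩,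
    ⟨_, _, types_8⟩, ⟨_, _, types_9⟩, ⟨_, _, types_10⟩, ⟨_, _, types_12⟩, ⟨_, _, types_14⟩,
    ⟨_, _, types_15⟩, ⟨_, _, types_16⟩, ⟨_, _, types_18⟩, ⟨_, _, types_20⟩, ⟨_, _, types_22⟩,
    ⟨_, _, types_24⟩, ⟨_, _, types_30⟩, ⟨_, _, types_36⟩, ⟨_, _, types_42⟩]

end Pool.Agent.FermAll
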